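import Pool.Agent.Lib.MP_305fdd_al.Su.E.Ord
import Pool.Agent.Lib.MP_305fdd_al.Su.Pts.Ab
import Pool.Agent.Lib.MP_305fdd_al.Su.Eq

/-!
# MP_305fdd_al, surface groups, END block: the statements for subgroups

`surf_of_am`, `surf_of_hn` : `end_am`, `end_hn` for a group `G` which is an amalgam or an HNN
extension of free subgroups.
-/

set_option autoImplicit false
set_option linter.unusedSectionVars false

namespace Pool.Agent.SuE

open Matrix Pool.Agent.Lib.MP_305fdd_al

/-- transport along an isomorphism of the target -/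
def natBijCongr {L H H' : Type} [Group L] [Group H] [Group H'] (Φ : NatBij L H) (e : H ≃* H') :
    NatBij L H' where
  toFun Q _ _ θ := (Φ.toFun Q θ).comp e.symm.toMonoidHom
  invFun Q _ _ θ := Φ.invFun Q (θ.comp e.toMonoidHom)
  left_inv Q _ _ θ := by
    have h1 : ((Φ.toFun Q θ).comp e.symm.toMonoidHom).comp e.toMonoidHom = Φ.toFun Q θ := by
      ext x
      simp
    rw [h1, Φ.left_inv]
  right_inv Q _ _ θ := by
    rw [Φ.right_inv]
    ext x
    simp
  nat f θ := by
    rw [Φ.nat]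
    rfl

/-- `G` is the amalgam of the subgroups `A`, `A'` along the element `z` -/
structure AmUP (G : Type) [Group G] (A A' : Subgroup G) (z : G) : Prop where
  mem : z ∈ A
  mem' : z ∈ A'
  gen : A ⊔ A' = ⊤
  ext : ∀ (H : Type) [Group H] (f : A →* H) (f' : A' →* H), f ⟨z, mem⟩ = f' ⟨z, mem'⟩ →
    ∃ F : G →* H, (∀ a : A, F a = f a) ∧ ∀ a : A', F a = f' a

/-- `G` is the HNN extension of the subgroup `A` with `t z₀ t⁻¹ = z₁` -/
structure HnUP (G : Type) [Group G] (A : Subgroup G) (t z₀ z₁ : G) : Prop where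
  mem0 : z₀ ∈ A
  mem1 : z₁ ∈ A
  rel : t * z₀ * t⁻¹ = z₁
  gen : A ⊔ Subgroup.zpowers t = ⊤
  ext : ∀ (H : Type) [Group H] (f : A →* H) (τ : H), τ * f ⟨z₀, mem0⟩ * τ⁻¹ = f ⟨z₁, mem1⟩ →
    ∃ F : G →* H, (∀ a : A, F a = f a) ∧ F t = τ

section am

variable {G X X' : Type} [Group G] {A A' : Subgroup G} {z : G} (h : AmUP G A A' z)
  (e : FreeGroup X ≃* A) (e' : FreeGroup X' ≃* A')

/-- the amalgam of two free groups is a one relator group -/
theorem am_presented : ∃ E : G ≃* PresentedGroup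
    ({amRel (e.symm ⟨z, h.mem⟩) (e'.symm ⟨z, h.mem'⟩)} : Set (FreeGroup (X ⊕ X'))),
      E z = PresentedGroup.mk _ (FreeGroup.map Sum.inl (e.symm ⟨z, h.mem⟩)) := by
  set w := e.symm ⟨z, h.mem⟩ with hw
  set w' := e'.symm ⟨z, h.mem'⟩ with hw'
  let f : A →* PresentedGroup ({amRel w w'} : Set (FreeGroup (X ⊕ X'))) :=
    ((PresentedGroup.mk _).comp (FreeGroup.map Sum.inl)).comp e.symm.toMonoidHom
  let f' : A' →* PresentedGroup ({amRel w w'} : Set (FreeGroup (X ⊕ X'))) :=
    ((PresentedGroup.mk _).comp (FreeGroup.map Sum.inr)).comp e'.symm.toMonoidHom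
  have hff : f ⟨z, h.mem⟩ = f' ⟨z, h.mem'⟩ := by
    change PresentedGroup.mk _ (FreeGroup.map Sum.inl w) =
      PresentedGroup.mk _ (FreeGroup.map Sum.inr w')
    rw [← mul_inv_eq_one, ← map_inv, ← map_mul]
    exact PresentedGroup.one_of_mem (Set.mem_singleton _)
  obtain ⟨F, hF, hF'⟩ := h.ext _ f f' hff
  let j : FreeGroup (X ⊕ X') →* G :=
    FreeGroup.lift (Sum.elim (fun x => (e (FreeGroup.of x) : G)) fun x => (e' (FreeGroup.of x) : G))
  have hj : ∀ a, j (FreeGroup.map Sum.inl a) = (e a : G) := by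
    have h1 : j.comp (FreeGroup.map Sum.inl) = A.subtype.comp e.toMonoidHom := by
      apply FreeGroup.ext_hom
      intro x
      simp [j]
    exact fun a => DFunLike.congr_fun h1 a
  have hj' : ∀ a, j (FreeGroup.map Sum.inr a) = (e' a : G) := by
    have h1 : j.comp (FreeGroup.map Sum.inr) = A'.subtype.comp e'.toMonoidHom := by
      apply FreeGroup.ext_hom
      intro x
      simp [j]
    exact fun a => DFunLike.congr_fun h1 a
  have hjr : j (amRel w w') = 1 := by
    rw [amRel, map_mul, map_inv, hj, hj', hw, hw', MulEquiv.apply_symm_apply,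
      MulEquiv.apply_symm_apply, mul_inv_cancel]
  let F' : PresentedGroup ({amRel w w'} : Set (FreeGroup (X ⊕ X'))) →* G := desc j hjr
  have hF'mk : ∀ u, F' (PresentedGroup.mk _ u) = j u := desc_mk j hjr
  have h1 : F'.comp F = MonoidHom.id G := by
    have h2 : A ⊔ A' ≤ (F'.comp F).eqLocus (MonoidHom.id G) := by
      rw [sup_le_iff]
      constructor
      · intro a ha
        change F' (F a) = a
        rw [hF ⟨a, ha⟩]
        change F' (PresentedGroup.mk _ (FreeGroup.map Sum.inl (e.symm ⟨a, ha⟩))) = a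
        rw [hF'mk, hj, MulEquiv.apply_symm_apply]
      · intro a ha
        change F' (F a) = a
        rw [hF' ⟨a, ha⟩]
        change F' (PresentedGroup.mk _ (FreeGroup.map Sum.inr (e'.symm ⟨a, ha⟩))) = a
        rw [hF'mk, hj', MulEquiv.apply_symm_apply]
    rw [h.gen] at h2
    ext a
    exact h2 (Subgroup.mem_top a)
  have h3 : F.comp F' = MonoidHom.id _ := by
    apply PresentedGroup.ext
    rintro (x | x)
    · change F (F' (PresentedGroup.mk _ (FreeGroup.of (Sum.inl x)))) = _
      rw [hF'mk]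
      have h4 : j (FreeGroup.of (Sum.inl x)) = (e (FreeGroup.of x) : G) := by simp [j]
      rw [h4, hF]
      change PresentedGroup.mk _ (FreeGroup.map Sum.inl (e.symm (e (FreeGroup.of x)))) = _
      rw [MulEquiv.symm_apply_apply, FreeGroup.map.of]
      rfl
    · change F (F' (PresentedGroup.mk _ (FreeGroup.of (Sum.inr x)))) = _
      rw [hF'mk]
      have h4 : j (FreeGroup.of (Sum.inr x)) = (e' (FreeGroup.of x) : G) := by simp [j]
      rw [h4, hF']
      change PresentedGroup.mk _ (FreeGroup.map Sum.inr (e'.symm (e' (FreeGroup.of x)))) = _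
      rw [MulEquiv.symm_apply_apply, FreeGroup.map.of]
      rfl
  refine ⟨MonoidHom.toMulEquiv F F' h1 h3, ?_⟩
  exact hF ⟨z, h.mem⟩

/-- **END for an amalgam of free subgroups** -/
theorem surf_of_am [Fintype X] [Fintype X'] {g : ℕ}
    (hX : Fintype.card X + Fintype.card X' = 2 * g)
    {L : Type} [Group L] (Φ : NatBij L (Su.SurfaceGroup g)) (π : L →* G)
    (hπ : Function.Surjective π) (hk : SuPts.KerSL π)
    {F : Type} [Field F] [Algebra (ZMod 2) F] (ρ : G →* SpecialLinearGroup (Fin 2) F)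
    (hz : ∀ n, 0 < n → ρ z ^ n ≠ 1)
    (h : AmUP G A A' z) (e : FreeGroup X ≃* A) (e' : FreeGroup X' ≃* A') :
    Nonempty (G ≃* Su.SurfaceGroup g) := by
  obtain ⟨E, hE⟩ := am_presented h e e'
  obtain ⟨s⟩ := Su.nonempty_surfG g
  have hG : Group.FG G := Group.fg_of_surjective (f := E.symm.toMonoidHom.comp
    (PresentedGroup.mk _)) (E.symm.surjective.comp (PresentedGroup.mk_surjective _))
  have hcard : ∀ (Q : Type) [Group Q], Nat.card (PresentedGroup
      ({amRel (e.symm ⟨z, h.mem⟩) (e'.symm ⟨z, h.mem'⟩)} : Set (FreeGroup (X ⊕ X'))) →* Q) =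
        Nat.card (G →* Q) := fun Q _ => Nat.card_congr (MulEquiv.monoidHomCongrLeftEquiv E.symm)
  obtain ⟨E'⟩ := end_am hX (e.symm ⟨z, h.mem⟩) (e'.symm ⟨z, h.mem'⟩) (natBijCongr Φ s)
    (E.toMonoidHom.comp π) (E.surjective.comp hπ)
    (largeOrd_of_rep _ _ (ρ.comp E.symm.toMonoidHom) (by
      intro n hn
      rw [← hE]
      change (ρ (E.symm (E z))) ^ n ≠ 1
      rw [MulEquiv.symm_apply_apply]
      exact hz n hn))
    (by rw [hcard]; exact SuPts.card_cyc hπ hk Φ 2 two_pos)
    (by rw [hcard]; exact SuPts.card_cyc hπ hk Φ 4 (by norm_num))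
    (by rw [hcard]; exact SuPts.card_S3 hπ hk Φ)
  exact ⟨E.trans E'⟩

end am

section hn

variable {G X : Type} [Group G] {A : Subgroup G} {t z₀ z₁ : G} (h : HnUP G A t z₀ z₁)
  (e : FreeGroup X ≃* A)

/-- the HNN extension of a free group is a one relator group -/
theorem hn_presented : ∃ E : G ≃* PresentedGroup
    ({hnRel (fun b => if b then e.symm ⟨z₁, h.mem1⟩ else e.symm ⟨z₀, h.mem0⟩)} :
      Set (FreeGroup (Option X))),
      E z₀ = PresentedGroup.mk _ (FreeGroup.map some (e.symm ⟨z₀, h.mem0⟩)) := by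
  set w : Bool → FreeGroup X :=
    fun b => if b then e.symm ⟨z₁, h.mem1⟩ else e.symm ⟨z₀, h.mem0⟩ with hw
  have hw0 : w false = e.symm ⟨z₀, h.mem0⟩ := rfl
  have hw1 : w true = e.symm ⟨z₁, h.mem1⟩ := rfl
  let f : A →* PresentedGroup ({hnRel w} : Set (FreeGroup (Option X))) :=
    ((PresentedGroup.mk _).comp (FreeGroup.map some)).comp e.symm.toMonoidHom
  have hf : PresentedGroup.mk {hnRel w} (FreeGroup.of none) * f ⟨z₀, h.mem0⟩ *
      (PresentedGroup.mk {hnRel w} (FreeGroup.of none))⁻¹ = f ⟨z₁, h.mem1⟩ := by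
    change PresentedGroup.mk {hnRel w} (FreeGroup.of none) *
      PresentedGroup.mk {hnRel w} (FreeGroup.map some (w false)) *
      (PresentedGroup.mk {hnRel w} (FreeGroup.of none))⁻¹ =
      PresentedGroup.mk {hnRel w} (FreeGroup.map some (w true))
    rw [← mul_inv_eq_one, ← map_inv, ← map_inv, ← map_mul, ← map_mul, ← map_mul]
    exact PresentedGroup.one_of_mem (Set.mem_singleton _)
  obtain ⟨F, hF, hFt⟩ := h.ext _ f _ hf
  let j : FreeGroup (Option X) →* G :=
    FreeGroup.lift fun x => x.elim t fun x => (e (FreeGroup.of x) : G)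
  have hjt : j (FreeGroup.of none) = t := by simp [j]
  have hj : ∀ a, j (FreeGroup.map some a) = (e a : G) := by
    have h1 : j.comp (FreeGroup.map some) = A.subtype.comp e.toMonoidHom := by
      apply FreeGroup.ext_hom
      intro x
      simp [j]
    exact fun a => DFunLike.congr_fun h1 a
  have hjr : j (hnRel w) = 1 := by
    rw [hnRel, map_mul, map_mul, map_mul, map_inv, map_inv, hjt, hj, hj, hw0, hw1,
      MulEquiv.apply_symm_apply, MulEquiv.apply_symm_apply, mul_inv_eq_one]
    exact h.rel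
  let F' : PresentedGroup ({hnRel w} : Set (FreeGroup (Option X))) →* G := desc j hjr
  have hF'mk : ∀ u, F' (PresentedGroup.mk _ u) = j u := desc_mk j hjr
  have h1 : F'.comp F = MonoidHom.id G := by
    have h2 : A ⊔ Subgroup.zpowers t ≤ (F'.comp F).eqLocus (MonoidHom.id G) := by
      rw [sup_le_iff]
      constructor
      · intro a ha
        change F' (F a) = a
        rw [hF ⟨a, ha⟩]
        change F' (PresentedGroup.mk _ (FreeGroup.map some (e.symm ⟨a, ha⟩))) = a
        rw [hF'mk, hj, MulEquiv.apply_symm_apply]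
      · apply Subgroup.zpowers_le_of_mem
        change F' (F t) = t
        rw [hFt, hF'mk, hjt]
    rw [h.gen] at h2
    ext a
    exact h2 (Subgroup.mem_top a)
  have h3 : F.comp F' = MonoidHom.id _ := by
    apply PresentedGroup.ext
    rintro (_ | x)
    · change F (F' (PresentedGroup.mk _ (FreeGroup.of none))) = _
      rw [hF'mk, hjt, hFt]
      rfl
    · change F (F' (PresentedGroup.mk _ (FreeGroup.of (some x)))) = _
      rw [hF'mk]
      have h4 : j (FreeGroup.of (some x)) = (e (FreeGroup.of x) : G) := by simp [j]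
      rw [h4, hF]
      change PresentedGroup.mk _ (FreeGroup.map some (e.symm (e (FreeGroup.of x)))) = _
      rw [MulEquiv.symm_apply_apply, FreeGroup.map.of]
      rfl
  exact ⟨MonoidHom.toMulEquiv F F' h1 h3, hF ⟨z₀, h.mem0⟩⟩

/-- **END for an HNN extension of a free subgroup** -/
theorem surf_of_hn [Fintype X] {g : ℕ} (hX : Fintype.card X + 1 = 2 * g)
    {L : Type} [Group L] (Φ : NatBij L (Su.SurfaceGroup g)) (π : L →* G)
    (hπ : Function.Surjective π) (hk : SuPts.KerSL π)
    {F : Type} [Field F] [Algebra (ZMod 2) F] (ρ : G →* SpecialLinearGroup (Fin 2) F)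
    (hz : ∀ n, 0 < n → ρ z₀ ^ n ≠ 1)
    (h : HnUP G A t z₀ z₁) (e : FreeGroup X ≃* A) :
    Nonempty (G ≃* Su.SurfaceGroup g) := by
  obtain ⟨E, hE⟩ := hn_presented h e
  obtain ⟨s⟩ := Su.nonempty_surfG g
  have hG : Group.FG G := Group.fg_of_surjective (f := E.symm.toMonoidHom.comp
    (PresentedGroup.mk _)) (E.symm.surjective.comp (PresentedGroup.mk_surjective _))
  have hcard : ∀ (Q : Type) [Group Q], Nat.card (PresentedGroup
      ({hnRel (fun b => if b then e.symm ⟨z₁, h.mem1⟩ else e.symm ⟨z₀, h.mem0⟩)} :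
        Set (FreeGroup (Option X))) →* Q) =
        Nat.card (G →* Q) := fun Q _ => Nat.card_congr (MulEquiv.monoidHomCongrLeftEquiv E.symm)
  obtain ⟨E'⟩ := end_hn hX (fun b => if b then e.symm ⟨z₁, h.mem1⟩ else e.symm ⟨z₀, h.mem0⟩)
    (natBijCongr Φ s) (E.toMonoidHom.comp π) (E.surjective.comp hπ)
    (largeOrd_of_rep _ _ (ρ.comp E.symm.toMonoidHom) (by
      intro n hn
      have h1 : PresentedGroup.mk _ (FreeGroup.map some
          ((fun b => if b then e.symm ⟨z₁, h.mem1⟩ else e.symm ⟨z₀, h.mem0⟩ : Bool →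
            FreeGroup X) false)) = E z₀ := hE.symm
      rw [h1]
      change (ρ (E.symm (E z₀))) ^ n ≠ 1
      rw [MulEquiv.symm_apply_apply]
      exact hz n hn))
    (by rw [hcard]; exact SuPts.card_cyc hπ hk Φ 2 two_pos)
    (by rw [hcard]; exact SuPts.card_cyc hπ hk Φ 4 (by norm_num))
    (by rw [hcard]; exact SuPts.card_S3 hπ hk Φ)
  exact ⟨E.trans E'⟩

end hn

end Pool.Agent.SuE
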