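import Pool.Agent.Lib.MP_305fdd_al.Su.E.Rank

/-!
# MP_305fdd_al, surface groups, END block: finite generation

The vertex groups in `surf_of_am_rk`, `surf_of_hn_rk` are automatically finitely generated:
`surf_of_am_free`, `surf_of_hn_free`, `surf_of_tree_am_free`, `surf_of_tree_hn_free`.
-/

set_option autoImplicit false
set_option linter.unusedSectionVars false

namespace Pool.Agent.SuE

open Pool.Agent.Lib.MP_305fdd_al Pool.Agent.SuUp Pool.Agent.FrT Pool.Agent.SuT

section letters

variable {X : Type}

/-- exponent sum modulo `2` -/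
noncomputable def exm (x : X) : FreeGroup X →* Multiplicative (ZMod 2) := by
  classical
  exact FreeGroup.lift fun y => if y = x then Multiplicative.ofAdd 1 else 1

theorem exm_self (x : X) : exm x (FreeGroup.of x) = Multiplicative.ofAdd 1 := by
  rw [exm, FreeGroup.lift_apply_of, if_pos rfl]

theorem exm_ne {x y : X} (h : y ≠ x) : exm x (FreeGroup.of y) = 1 := by
  rw [exm, FreeGroup.lift_apply_of, if_neg h]

theorem exm_inj : Function.Injective (exm : X → _) := by
  intro x y h
  by_contra hne
  have h1 := DFunLike.congr_fun h (FreeGroup.of x)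
  rw [exm_self, exm_ne hne] at h1
  exact absurd h1 (by decide)

theorem exm_fin (w : FreeGroup X) : {x | exm x w ≠ 1}.Finite := by
  induction w using FreeGroup.induction_on with
  | C1 => simp
  | of y =>
    refine (Set.finite_singleton y).subset ?_
    intro x hx
    by_contra hne
    exact hx (exm_ne fun h => hne (by rw [Set.mem_singleton_iff, h]))
  | inv_of y hy =>
    refine hy.subset ?_
    intro x hx h
    apply hx
    rw [map_inv, h, inv_one]
  | mul a b ha hb =>
    refine (ha.union hb).subset ?_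
    intro x hx
    by_contra hne
    rw [Set.mem_union, not_or] at hne
    have h1 : exm x a = 1 := not_not.1 hne.1
    have h2 : exm x b = 1 := not_not.1 hne.2
    exact hx (by rw [map_mul, h1, h2, one_mul])

/-- finitely many homomorphisms to `Z / 2` which agree on `z` and `z'`: finitely many letters -/
theorem fin_letters (z z' : FreeGroup X)
    (h : Finite {χ : FreeGroup X →* Multiplicative (ZMod 2) // χ z = χ z'}) : Finite X := by
  have h1 : {x | exm x z = exm x z'}.Finite := by
    rw [← Set.finite_coe_iff]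
    refine Finite.of_injective (β := {χ : FreeGroup X →* Multiplicative (ZMod 2) // χ z = χ z'})
      (fun x => ⟨exm x.1, x.2⟩) ?_
    intro x y hxy
    exact Subtype.ext (exm_inj (congrArg Subtype.val hxy))
  have h2 : (Set.univ : Set X).Finite := by
    refine ((h1.union (exm_fin z)).union (exm_fin z')).subset ?_
    intro x _
    by_cases e1 : exm x z = 1
    · by_cases e2 : exm x z' = 1
      · left
        left
        change exm x z = exm x z'
        rw [e1, e2]
      · right
        exact e2
    · left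
      right
      exact e1
  exact Set.finite_univ_iff.1 h2

end letters

section final

variable {G : Type} [Group G] {g : ℕ} {L : Type} [Group L]

theorem am_fin {A A' : Subgroup G} {z : G} (h : AmUP G A A' z) {X : Type} (e : FreeGroup X ≃* A)
    (hf : Finite (G →* Multiplicative (ZMod 2))) : Finite X := by
  refine fin_letters (e.symm ⟨z, h.mem⟩) 1 ?_
  have h1 : ∀ χ : {χ : FreeGroup X →* Multiplicative (ZMod 2) // χ (e.symm ⟨z, h.mem⟩) = χ 1},
      ∃ F : G →* Multiplicative (ZMod 2), ∀ a : A, F a = χ.1 (e.symm a) := by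
    rintro ⟨χ, hχ⟩
    obtain ⟨F, hF, _⟩ := h.ext _ (χ.comp e.symm.toMonoidHom) 1 (by
      change χ (e.symm ⟨z, h.mem⟩) = 1
      rw [hχ, map_one])
    exact ⟨F, hF⟩
  choose F hF using h1
  refine Finite.of_injective F ?_
  intro χ χ' hh
  apply Subtype.ext
  ext x
  have h2 := hF χ (e (FreeGroup.of x))
  have h3 := hF χ' (e (FreeGroup.of x))
  rw [MulEquiv.symm_apply_apply] at h2 h3
  rw [← h2, ← h3, hh]

theorem am_symm {A A' : Subgroup G} {z : G} (h : AmUP G A A' z) : AmUP G A' A z :=
  ⟨h.mem', h.mem, by rw [sup_comm]; exact h.gen, fun H _ f f' hff => by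
    obtain ⟨F, h1, h2⟩ := h.ext H f' f hff.symm
    exact ⟨F, h2, h1⟩⟩

theorem hn_fin {A : Subgroup G} {t z₀ z₁ : G} (h : HnUP G A t z₀ z₁) {X : Type}
    (e : FreeGroup X ≃* A) (hf : Finite (G →* Multiplicative (ZMod 2))) : Finite X := by
  refine fin_letters (e.symm ⟨z₀, h.mem0⟩) (e.symm ⟨z₁, h.mem1⟩) ?_
  have h1 : ∀ χ : {χ : FreeGroup X →* Multiplicative (ZMod 2) //
      χ (e.symm ⟨z₀, h.mem0⟩) = χ (e.symm ⟨z₁, h.mem1⟩)},
      ∃ F : G →* Multiplicative (ZMod 2), ∀ a : A, F a = χ.1 (e.symm a) := by
    rintro ⟨χ, hχ⟩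
    obtain ⟨F, hF, _⟩ := h.ext _ (χ.comp e.symm.toMonoidHom) 1 (by
      rw [one_mul, inv_one, mul_one]
      exact hχ)
    exact ⟨F, hF⟩
  choose F hF using h1
  refine Finite.of_injective F ?_
  intro χ χ' hh
  apply Subtype.ext
  ext x
  have h2 := hF χ (e (FreeGroup.of x))
  have h3 := hF χ' (e (FreeGroup.of x))
  rw [MulEquiv.symm_apply_apply] at h2 h3
  rw [← h2, ← h3, hh]

/-- **END for an amalgam of free subgroups along a cyclic subgroup** -/
theorem surf_of_am_free (hg : 1 ≤ g) (Φ : NatBij L (Su.SurfaceGroup g)) (π : L →* G)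
    (hπ : Function.Surjective π) (hk : SuPts.KerSL π) {A A' : Subgroup G} {z : G} (hz : LgOrd z)
    (h : AmUP G A A' z) (hA : IsFreeGroup A) (hA' : IsFreeGroup A') :
    Nonempty (G ≃* Su.SurfaceGroup g) := by
  have hf : Finite (G →* Multiplicative (ZMod 2)) := by
    have : Finite (Multiplicative (ZMod 2)) := inferInstanceAs (Finite (ZMod 2))
    exact SuPts.finite_homG hπ Φ _
  have e : FreeGroup (IsFreeGroup.Generators A) ≃* A := (IsFreeGroup.toFreeGroup A).symm
  have e' : FreeGroup (IsFreeGroup.Generators A') ≃* A' := (IsFreeGroup.toFreeGroup A').symm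
  have := am_fin h e hf
  have := am_fin (am_symm h) e' hf
  exact surf_of_am_rk hg Φ π hπ hk hz h e e'

/-- **END for an HNN extension of a free subgroup** -/
theorem surf_of_hn_free (hg : 1 ≤ g) (Φ : NatBij L (Su.SurfaceGroup g)) (π : L →* G)
    (hπ : Function.Surjective π) (hk : SuPts.KerSL π) {A : Subgroup G} {t z₀ z₁ : G}
    (hz : LgOrd z₀) (h : HnUP G A t z₀ z₁) (hA : IsFreeGroup A) :
    Nonempty (G ≃* Su.SurfaceGroup g) := by
  have hf : Finite (G →* Multiplicative (ZMod 2)) := by
    have : Finite (Multiplicative (ZMod 2)) := inferInstanceAs (Finite (ZMod 2))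
    exact SuPts.finite_homG hπ Φ _
  have e : FreeGroup (IsFreeGroup.Generators A) ≃* A := (IsFreeGroup.toFreeGroup A).symm
  have := hn_fin h e hf
  exact surf_of_hn_rk hg Φ π hπ hk hz h e

/-- **END for a group acting on a tree** with one orbit of edges, two orbits of vertices, cyclic
edge groups, free vertex groups -/
theorem surf_of_tree_am_free (hg : 1 ≤ g) (Φ : NatBij L (Su.SurfaceGroup g))
    (π : L →* G) (hπ : Function.Surjective π) (hk : SuPts.KerSL π)
    {V : Type} [MulAction G V] {X : SimpleGraph V}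
    (hT : TA G X) {u v : V} (huv : X.Adj u v) (hoe : OE G X u v)
    (hno : ∀ g : G, g • u ≠ v) (z : G) (hz : ES G u v = Subgroup.zpowers z) (hlg : LgOrd z)
    (hA : IsFreeGroup (MulAction.stabilizer G u)) (hA' : IsFreeGroup (MulAction.stabilizer G v)) :
    Nonempty (G ≃* Su.SurfaceGroup g) :=
  surf_of_am_free hg Φ π hπ hk hlg (amUP_of_tree hT huv hoe hno z hz) hA hA'

/-- **END for a group acting on a tree** with one orbit of edges, one orbit of vertices, cyclic
edge groups, free vertex groups -/
theorem surf_of_tree_hn_free (hg : 1 ≤ g) (Φ : NatBij L (Su.SurfaceGroup g))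
    (π : L →* G) (hπ : Function.Surjective π) (hk : SuPts.KerSL π)
    {V : Type} [MulAction G V] {X : SimpleGraph V} {v : V} {t : G} (h : HT G X v t) (z : G)
    (hz : ES G v (t • v) = Subgroup.zpowers z) (hlg : LgOrd z)
    (hA : IsFreeGroup (MulAction.stabilizer G v)) :
    Nonempty (G ≃* Su.SurfaceGroup g) := by
  refine surf_of_hn_free hg Φ π hπ hk ?_ (hnUP_of_tree h z hz) hA
  have h1 := hlg.conj t⁻¹
  rw [inv_inv] at h1
  exact h1

end final

end Pool.Agent.SuE
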