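import Pool.Agent.Lib.MP_305fdd_al.Su.E.Mod

/-!
# MP_305fdd_al, surface groups, END block: (T) for the vertex groups of an amalgam
-/

set_option autoImplicit false
set_option linter.unusedSectionVars false

namespace Pool.Agent.SuE

open Pool.Agent.SuD Pool.Agent.Lib.MP_305fdd_al Pool.Agent.MP_305fdd_al Pool.Agent.SurfCnt

theorem tprop_am_aux {X X' Y : Type} [Fintype Y] {g : ℕ} (hY : Fintype.card Y = 2 * g)
    (i : FreeGroup X →* FreeGroup Y) (i' : FreeGroup X' →* FreeGroup Y)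
    (hext : ∀ (H : Type) [Group H] (f : FreeGroup X →* H) (f' : FreeGroup X' →* H),
      ∃ F : FreeGroup Y →* H, F.comp i = f ∧ F.comp i' = f')
    (z : FreeGroup X) (z' : FreeGroup X') (r : FreeGroup Y)
    (hr : r = i z * (i' z')⁻¹ ∨ r = i' z' * (i z)⁻¹)
    {L : Type} [Group L] (Φ : NatBij L (SurfG g))
    (π : L →* PresentedGroup ({r} : Set (FreeGroup Y))) (hπ : Function.Surjective π)
    (hev : ∀ χ : FreeGroup Y → ZMod 2, (∀ g h, χ (g * h) = χ g + χ h) → χ r = 0)
    (hev' : ∀ χ : FreeGroup X' → ZMod 2, (∀ g h, χ (g * h) = χ g + χ h) → χ z' = 0)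
    (hord : ∀ N : ℕ, 0 < N → ∃ (Q : Type) (_ : Group Q) (_ : Finite Q)
      (θ : PresentedGroup ({r} : Set (FreeGroup Y)) →* Q),
        N ∣ orderOf (θ (PresentedGroup.mk _ (i z)))) :
    TProp (fun _ : Unit => z) := by
  classical
  intro M _ _ _ ρ κ h1 h2 _ _ g m
  obtain ⟨Q, _, _, θ, hθ⟩ := hord (orderOf (ρ z)) (orderOf_pos _)
  have := Fintype.ofFinite Q
  set κ₀ := κ () with hκ₀
  have h1' : ∀ m, κ₀ (ρ z m) = κ₀ m := h1 ()
  set θY : FreeGroup Y →* Q := θ.comp (PresentedGroup.mk {r}) with hθY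
  have hrel : θY (i z) = θY (i' z') := by
    have e1 : θY r = 1 := by
      have e2 : PresentedGroup.mk {r} r = 1 := PresentedGroup.one_of_mem (Set.mem_singleton r)
      rw [hθY, MonoidHom.comp_apply, e2, map_one]
    rcases hr with h | h
    · rw [h, map_mul, map_inv, mul_inv_eq_one] at e1
      exact e1
    · rw [h, map_mul, map_inv, mul_inv_eq_one] at e1
      exact e1.symm
  obtain ⟨u, hu1, hu2⟩ := exists_untwist (ρ z) (θY (i z)) hθ
  have hκu : ∀ q m, κ₀ (u q m) = κ₀ m := fun q m => kap_zpow κ₀ (ρ z) h1' (hu2 q) m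
  let f : FreeGroup X →* ((Q → M) ≃ₗ[ZMod 2] (Q → M)) := MoH.comp (ρ.prod (θY.comp i))
  let f' : FreeGroup X' →* ((Q → M) ≃ₗ[ZMod 2] (Q → M)) :=
    (MulAut.conj (UU u)).toMonoidHom.comp (MoH.comp ((1 : FreeGroup X' →* _).prod (θY.comp i')))
  obtain ⟨T, hT, hT'⟩ := hext _ f f'
  have hTi : ∀ a, T (i a) = Mo (ρ a) (θY (i a)) := fun a => DFunLike.congr_fun hT a
  have hTi' : ∀ a, T (i' a) = UU u * Mo 1 (θY (i' a)) * (UU u)⁻¹ :=
    fun a => DFunLike.congr_fun hT' a
  have hTz : T (i z) = T (i' z') := by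
    rw [hTi, hTi', ← hrel, UU_conj u (ρ z) _ hu1]
  have hTr : T r = 1 := by
    rcases hr with h | h
    · rw [h, map_mul, map_inv, hTz, mul_inv_cancel]
    · rw [h, map_mul, map_inv, hTz, mul_inv_cancel]
  have key := one_rel hY r Φ π hπ hev T hTr (κ₀.comp ep) (by
    intro al hal
    have a1 : κ₀ (ep (al (i z))) = 0 := by
      have b1 : (fun a => ep (al (i a))) ∈ Crs ρ M := by
        intro a b
        change ep (al (i (a * b))) = ep (al (i a)) + ρ a (ep (al (i b)))
        rw [map_mul, hal, map_add]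
        congr 1
        change ep (T (i a) (al (i b))) = _
        rw [hTi, ep_Mo]
      have b2 := h2 _ b1
      simpa using b2
    have a2 : κ₀ (ep (al (i' z'))) = 0 := by
      apply hev' fun a => κ₀ (ep (al (i' a)))
      intro a b
      rw [map_mul, hal, map_add, map_add]
      congr 1
      change κ₀ (ep (T (i' a) (al (i' b)))) = _
      rw [hTi']
      change κ₀ (ep (UU u (Mo 1 _ ((UU u)⁻¹ (al (i' b)))))) = _
      rw [kap_UU κ₀ u hκu, ep_Mo]
      exact kap_UU_inv κ₀ u hκu _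
    have a3 : ∀ a b : FreeGroup Y, T a = T b → al (a * b⁻¹) = al a - al b := by
      intro a b hab
      rw [hal, Crs.map_inv hal, smul_neg, smul_smul, hab, mul_inv_cancel, one_smul,
        sub_eq_add_neg]
    change κ₀ (ep (al r)) = 0
    rcases hr with h | h
    · rw [h, a3 _ _ hTz, map_sub, map_sub, a1, a2, sub_zero]
    · rw [h, a3 _ _ hTz.symm, map_sub, map_sub, a1, a2, sub_zero]) (i g) (Pi.single 1 m)
  change κ₀ (ep (T (i g) (Pi.single 1 m))) = κ₀ (ep (Pi.single 1 m)) at key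
  rw [hTi, ep_Mo, ep_single] at key
  exact key.symm

end Pool.Agent.SuE
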