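import Pool.Agent.Lib.MP_305fdd_al.Su.E.Mod

/-!
# MP_305fdd_al, surface groups, END block: (T) for the vertex group of an HNN extension
-/

set_option autoImplicit false
set_option linter.unusedSectionVars false

namespace Pool.Agent.SuE

open Pool.Agent.SuD Pool.Agent.Lib.MP_305fdd_al Pool.Agent.MP_305fdd_al Pool.Agent.SurfCnt

/-- the relator of the HNN extension `t (z false) t⁻¹ = z true` -/
def hnRel {X : Type} (z : Bool → FreeGroup X) : FreeGroup (Option X) :=
  FreeGroup.of none * FreeGroup.map some (z false) * (FreeGroup.of none)⁻¹ *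
    (FreeGroup.map some (z true))⁻¹

theorem hn_aux {X : Type} [Fintype X] {g : ℕ} (hY : Fintype.card (Option X) = 2 * g)
    (z : Bool → FreeGroup X) {L : Type} [Group L] (Φ : NatBij L (SurfG g))
    (π : L →* PresentedGroup ({hnRel z} : Set (FreeGroup (Option X))))
    (hπ : Function.Surjective π)
    (hev : ∀ χ : FreeGroup (Option X) → ZMod 2, (∀ g h, χ (g * h) = χ g + χ h) →
      χ (hnRel z) = 0)
    (hord : ∀ N : ℕ, 0 < N → ∃ (Q : Type) (_ : Group Q) (_ : Finite Q)
      (θ : PresentedGroup ({hnRel z} : Set (FreeGroup (Option X))) →* Q),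
        N ∣ orderOf (θ (PresentedGroup.mk _ (FreeGroup.map some (z false)))))
    {M : Type} [AddCommGroup M] [Module (ZMod 2) M] [Finite M]
    (ρ : FreeGroup X →* (M ≃ₗ[ZMod 2] M)) (κ : Bool → (M →ₗ[ZMod 2] ZMod 2))
    (h1 : ∀ i m, κ i (ρ (z i) m) = κ i m)
    (h2 : ∀ al ∈ Crs ρ M, ∑ i, κ i (al (z i)) = 0)
    (ϑ : M ≃ₗ[ZMod 2] M) (hϑ : ∀ m, κ true (ϑ m) = κ false m) (i j : Bool) (g : FreeGroup X)
    (m : M) : κ i m = κ j (ρ g m) := by
  classical
  obtain ⟨Q, _, _, θ, hθ⟩ := hord (orderOf (ρ (z false)) * orderOf (ρ (z true)))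
    (Nat.mul_pos (orderOf_pos _) (orderOf_pos _))
  have := Fintype.ofFinite Q
  set θY : FreeGroup (Option X) →* Q := θ.comp (PresentedGroup.mk {hnRel z}) with hθY
  set em : FreeGroup X →* FreeGroup (Option X) := FreeGroup.map some with hem
  set t : FreeGroup (Option X) := FreeGroup.of none with ht
  have hrel : θY t * θY (em (z false)) = θY (em (z true)) * θY t := by
    have e1 : θY (hnRel z) = 1 := by
      have e2 : PresentedGroup.mk {hnRel z} (hnRel z) = 1 :=
        PresentedGroup.one_of_mem (Set.mem_singleton _)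
      rw [hθY, MonoidHom.comp_apply, e2, map_one]
    rw [hnRel, map_mul, map_inv, mul_inv_eq_one, map_mul, map_mul, map_inv,
      mul_inv_eq_iff_eq_mul] at e1
    exact e1
  have hθ0 : orderOf (ρ (z false)) ∣ orderOf (θY (em (z false))) :=
    (Dvd.intro _ rfl).trans hθ
  have hθ1 : orderOf (ρ (z true)) ∣ orderOf (θY (em (z true))) := by
    have e1 : θY (em (z true)) = MulAut.conj (θY t) (θY (em (z false))) := by
      rw [MulAut.conj_apply, hrel, mul_inv_cancel_right]
    rw [e1, MulEquiv.orderOf_eq]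
    exact (Dvd.intro_left _ rfl).trans hθ
  obtain ⟨u0, hu0, hv0⟩ := exists_untwist (ρ (z false)) (θY (em (z false))) hθ0
  obtain ⟨u1, hu1, hv1⟩ := exists_untwist (ρ (z true)) (θY (em (z true))) hθ1
  have hκ0 : ∀ q m, κ false (u0 q m) = κ false m :=
    fun q m => kap_zpow _ (ρ (z false)) (h1 false) (hv0 q) m
  have hκ1 : ∀ q m, κ true (u1 q m) = κ true m :=
    fun q m => kap_zpow _ (ρ (z true)) (h1 true) (hv1 q) m
  let T : FreeGroup (Option X) →* ((Q → M) ≃ₗ[ZMod 2] (Q → M)) :=
    FreeGroup.lift fun x => match x with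
      | none => UU u1 * Mo ϑ (θY t) * (UU u0)⁻¹
      | some x => Mo (ρ (FreeGroup.of x)) (θY (em (FreeGroup.of x)))
  have hTi : ∀ a, T (em a) = Mo (ρ a) (θY (em a)) := by
    have e1 : T.comp em = MoH.comp (ρ.prod (θY.comp em)) := by
      apply FreeGroup.ext_hom
      intro x
      simp only [hem, MonoidHom.comp_apply, FreeGroup.map.of, T, FreeGroup.lift_apply_of]
      rfl
    exact fun a => DFunLike.congr_fun e1 a
  have hTt : T t = UU u1 * Mo ϑ (θY t) * (UU u0)⁻¹ := by
    simp only [T, ht, FreeGroup.lift_apply_of]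
  have hMo : Mo ϑ (θY t) * Mo 1 (θY (em (z false))) =
      Mo 1 (θY (em (z true))) * Mo ϑ (θY t) := by
    have e1 := map_mul (MoH (Q := Q) (M := M)) (ϑ, θY t) (1, θY (em (z false)))
    have e2 := map_mul (MoH (Q := Q) (M := M)) (1, θY (em (z true))) (ϑ, θY t)
    rw [Prod.mk_mul_mk, mul_one, hrel] at e1
    rw [Prod.mk_mul_mk, one_mul] at e2
    exact e1.symm.trans e2
  have hTz : T (t * em (z false) * t⁻¹) = T (em (z true)) := by
    rw [map_mul, map_mul, map_inv, mul_inv_eq_iff_eq_mul, hTt, hTi, hTi,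
      ← UU_conj u0 (ρ (z false)) _ hu0, ← UU_conj u1 (ρ (z true)) _ hu1]
    have e3 : UU u1 * Mo ϑ (θY t) * (UU u0)⁻¹ * (UU u0 * Mo 1 (θY (em (z false))) * (UU u0)⁻¹) =
        UU u1 * (Mo ϑ (θY t) * Mo 1 (θY (em (z false)))) * (UU u0)⁻¹ := by group
    have e4 : UU u1 * Mo 1 (θY (em (z true))) * (UU u1)⁻¹ *
        (UU u1 * Mo ϑ (θY t) * (UU u0)⁻¹) =
        UU u1 * (Mo 1 (θY (em (z true))) * Mo ϑ (θY t)) * (UU u0)⁻¹ := by group
    rw [e3, e4, hMo]
  have hr : hnRel z = t * em (z false) * t⁻¹ * (em (z true))⁻¹ := rfl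
  have hTr : T (hnRel z) = 1 := by
    rw [hr, map_mul T (t * em (z false) * t⁻¹), map_inv, hTz, mul_inv_cancel]
  have c1 : ∀ f : Q → M, κ true (ep (T (em (z true)) f)) = κ true (ep f) := by
    intro f
    rw [hTi, ep_Mo, h1]
  have c2 : ∀ f : Q → M, κ true (ep (T t f)) = κ false (ep f) := by
    intro f
    rw [hTt]
    change κ true (ep (UU u1 (Mo ϑ (θY t) ((UU u0)⁻¹ f)))) = _
    rw [kap_UU _ u1 hκ1, ep_Mo, hϑ, kap_UU_inv _ u0 hκ0]
  have key := one_rel hY (hnRel z) Φ π hπ hev T hTr ((κ true).comp ep) (by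
    intro al hal
    have a1 : κ false (ep (al (em (z false)))) + κ true (ep (al (em (z true)))) = 0 := by
      have b1 : (fun a => ep (al (em a))) ∈ Crs ρ M := by
        intro a b
        change ep (al (em (a * b))) = ep (al (em a)) + ρ a (ep (al (em b)))
        rw [map_mul, hal, map_add]
        congr 1
        change ep (T (em a) (al (em b))) = _
        rw [hTi, ep_Mo]
      have b2 := h2 _ b1
      rw [Fintype.sum_bool, add_comm] at b2
      exact b2
    have a3 : ∀ a b : FreeGroup (Option X), T a = T b → al (a * b⁻¹) = al a - al b := by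
      intro a b hab
      rw [hal, Crs.map_inv hal, smul_neg, smul_smul, hab, mul_inv_cancel, one_smul,
        sub_eq_add_neg]
    have a4 : al (t * em (z false) * t⁻¹) =
        al t + T t (al (em (z false))) - T (em (z true)) (al t) := by
      have b1 := Crs.map_mul hal (t * em (z false) * t⁻¹) t
      have b2 := Crs.map_mul hal t (em (z false))
      rw [inv_mul_cancel_right, b2, hTz] at b1
      change al t + T t (al (em (z false))) =
        al (t * em (z false) * t⁻¹) + T (em (z true)) (al t) at b1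
      rw [b1, add_sub_cancel_right]
    change κ true (ep (al (hnRel z))) = 0
    rw [hr, a3 _ _ hTz, a4, map_sub, map_sub, map_sub, map_sub, map_add, map_add, c1, c2,
      add_sub_cancel_left]
    have a5 := two_eq _ _ a1
    rw [a5, sub_self])
  have k1 : ∀ (a : FreeGroup X) (m : M), κ true (ρ a m) = κ true m := by
    intro a m
    have e1 := key (em a) (Pi.single 1 m)
    change κ true (ep (T (em a) (Pi.single 1 m))) = κ true (ep (Pi.single 1 m)) at e1
    rw [hTi, ep_Mo, ep_single] at e1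
    exact e1
  have k2 : ∀ m : M, κ false m = κ true m := by
    intro m
    have e1 := key t (Pi.single 1 m)
    change κ true (ep (T t (Pi.single 1 m))) = κ true (ep (Pi.single 1 m)) at e1
    rw [c2, ep_single] at e1
    exact e1
  have k3 : ∀ (i : Bool) (m : M), κ i m = κ true m := by
    intro i m
    cases i
    · exact k2 m
    · rfl
  rw [k3 i, k3 j, k1]

section stab

variable {X : Type} {M : Type} [AddCommGroup M] [Module (ZMod 2) M]

/-- add a trivial summand -/
def stabR (ρ : FreeGroup X →* (M ≃ₗ[ZMod 2] M)) :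
    FreeGroup X →* ((M × ZMod 2) ≃ₗ[ZMod 2] (M × ZMod 2)) where
  toFun a := (ρ a).prodCongr (LinearEquiv.refl _ _)
  map_one' := by
    apply LinearEquiv.ext
    rintro ⟨m, x⟩
    change (ρ 1 m, x) = (m, x)
    rw [map_one]
    rfl
  map_mul' a b := by
    apply LinearEquiv.ext
    rintro ⟨m, x⟩
    change (ρ (a * b) m, x) = (ρ a (ρ b m), x)
    rw [map_mul]
    rfl

theorem stabR_apply (ρ : FreeGroup X →* (M ≃ₗ[ZMod 2] M)) (a : FreeGroup X) (m : M × ZMod 2) :
    stabR ρ a m = (ρ a m.1, m.2) := rfl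

/-- add the identity of the trivial summand -/
def stabK (κ : M →ₗ[ZMod 2] ZMod 2) : (M × ZMod 2) →ₗ[ZMod 2] ZMod 2 :=
  κ.comp (LinearMap.fst _ _ _) + LinearMap.snd _ _ _

theorem stabK_apply (κ : M →ₗ[ZMod 2] ZMod 2) (m : M × ZMod 2) : stabK κ m = κ m.1 + m.2 := rfl

theorem stabK_range (κ : M →ₗ[ZMod 2] ZMod 2) : LinearMap.range (stabK κ) = ⊤ := by
  rw [LinearMap.range_eq_top]
  intro x
  exact ⟨(0, x), by rw [stabK_apply, map_zero, zero_add]⟩

end stab

/-- (T) for the vertex group of an HNN extension -/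
theorem tprop_hn {X : Type} [Fintype X] {g : ℕ} (hY : Fintype.card (Option X) = 2 * g)
    (z : Bool → FreeGroup X) {L : Type} [Group L] (Φ : NatBij L (SurfG g))
    (π : L →* PresentedGroup ({hnRel z} : Set (FreeGroup (Option X))))
    (hπ : Function.Surjective π)
    (hev : ∀ χ : FreeGroup (Option X) → ZMod 2, (∀ g h, χ (g * h) = χ g + χ h) →
      χ (hnRel z) = 0)
    (hevz : EvP z)
    (hord : ∀ N : ℕ, 0 < N → ∃ (Q : Type) (_ : Group Q) (_ : Finite Q)
      (θ : PresentedGroup ({hnRel z} : Set (FreeGroup (Option X))) →* Q),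
        N ∣ orderOf (θ (PresentedGroup.mk _ (FreeGroup.map some (z false))))) :
    TProp z := by
  intro M _ _ _ ρ κ h1 h2 i j g m
  obtain ⟨ϑ, hϑ⟩ := exists_aut (stabK (κ false)) (stabK (κ true)) (by
    rw [stabK_range, stabK_range])
  have key := hn_aux hY z Φ π hπ hev hord (stabR ρ) (fun i => stabK (κ i))
    (by
      intro i m
      rw [stabR_apply, stabK_apply, stabK_apply, h1])
    (by
      intro al hal
      have a1 : (fun a => (al a).1) ∈ Crs ρ M := by
        intro a b
        beta_reduce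
        rw [hal]
        rfl
      have a2 := h2 _ a1
      have a3 := hevz (fun a => (al a).2) (by
        intro a b
        rw [hal]
        rfl)
      beta_reduce at a2 a3 ⊢
      simp only [stabK_apply]
      rw [Finset.sum_add_distrib, a2, a3, add_zero]) ϑ hϑ i j g (m, 0)
  beta_reduce at key
  rw [stabR_apply, stabK_apply, stabK_apply, add_zero, add_zero] at key
  exact key

end Pool.Agent.SuE
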