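import Pool.Agent.Lib.MP_305fdd_al.Su.E.TP
import Pool.Agent.Lib.MP_305fdd_al.Su.Dual.ZC

/-!
# MP_305fdd_al, surface groups, END block: one relator groups

`one_rel` : let `G = ⟨Y | r⟩`, `|Y| = 2 g`, be a quotient of a group `L` which has the same finite
quotients as the surface group of genus `g`.  A functional on a finite `F_2 [G]`-module which
vanishes on `al r` for all crossed homomorphisms `al` of the free group is `G`-invariant.
-/

set_option autoImplicit false
set_option linter.unusedSectionVars false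

namespace Pool.Agent.SuE

open Pool.Agent.SuD Pool.Agent.Lib.MP_305fdd_al Pool.Agent.MP_305fdd_al Pool.Agent.SurfCnt

section one

variable {P : Type} [AddCommGroup P] [Module (ZMod 2) P]

instance finite_linEquiv [Finite P] : Finite (P ≃ₗ[ZMod 2] P) :=
  Finite.of_injective (fun e : P ≃ₗ[ZMod 2] P => (e : P → P)) DFunLike.coe_injective

variable {Y : Type} (T : FreeGroup Y →* (P ≃ₗ[ZMod 2] P))

/-- the crossed homomorphism with prescribed values at the generators -/
def crsOf (f : Y → P) : Crs T P :=
  (crsEquiv T P).symm ⟨FreeGroup.lift fun y => (⟨f y, T (FreeGroup.of y)⟩ :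
    AF (P ≃ₗ[ZMod 2] P) P), by
      apply FreeGroup.ext_hom
      intro y
      simp⟩

theorem crsOf_of (f : Y → P) (y : Y) : (crsOf T f).1 (FreeGroup.of y) = f y := by
  change AF.v (FreeGroup.lift (fun y => (⟨f y, T (FreeGroup.of y)⟩ :
    AF (P ≃ₗ[ZMod 2] P) P)) (FreeGroup.of y)) = f y
  rw [FreeGroup.lift_apply_of]

theorem le_card_Crs [Finite P] [Fintype Y] [Finite (Crs T P)] :
    Nat.card P ^ Fintype.card Y ≤ Nat.card (Crs T P) := by
  have h1 : Nat.card (Y → P) = Nat.card P ^ Fintype.card Y := by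
    rw [Nat.card_fun, Nat.card_eq_fintype_card (α := Y)]
  rw [← h1]
  apply Nat.card_le_card_of_injective (crsOf T)
  intro f f' h
  funext y
  rw [← crsOf_of T f y, h, crsOf_of]

/-- a crossed homomorphism of the free group is determined by the values at the generators -/
theorem finite_Crs [Finite P] [Fintype Y] : Finite (Crs T P) := by
  apply Finite.of_injective (fun c : Crs T P => fun y => c.1 (FreeGroup.of y))
  intro c d h
  have h1 : Crs.hom c = Crs.hom d := by
    apply FreeGroup.ext_hom
    intro y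
    apply AF.ext
    · exact congrFun h y
    · rfl
  apply Subtype.ext
  funext g
  exact congrArg AF.v (DFunLike.congr_fun h1 g)

/-- evaluation -/
def evr (r : FreeGroup Y) : Crs T P →+ P where
  toFun c := c.1 r
  map_zero' := rfl
  map_add' _ _ := rfl

end one

theorem desc_aux {Y H : Type} [Group H] {r : FreeGroup Y} (f : FreeGroup Y →* H)
    (hf : f r = 1) : ∀ s ∈ ({r} : Set (FreeGroup Y)),
      FreeGroup.lift (fun y => f (FreeGroup.of y)) s = 1 := by
  intro s hs
  rw [Set.mem_singleton_iff.1 hs]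
  have h1 : FreeGroup.lift (fun y => f (FreeGroup.of y)) = f := by
    apply FreeGroup.ext_hom
    intro y
    simp
  rw [h1, hf]

/-- the homomorphism from the one relator group -/
def desc {Y H : Type} [Group H] {r : FreeGroup Y} (f : FreeGroup Y →* H) (hf : f r = 1) :
    PresentedGroup ({r} : Set (FreeGroup Y)) →* H :=
  PresentedGroup.toGroup (desc_aux f hf)

theorem desc_mk {Y H : Type} [Group H] {r : FreeGroup Y} (f : FreeGroup Y →* H) (hf : f r = 1)
    (w : FreeGroup Y) : desc f hf (PresentedGroup.mk _ w) = f w := by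
  have h1 : (desc f hf).comp (PresentedGroup.mk {r}) = f := by
    apply FreeGroup.ext_hom
    intro y
    exact PresentedGroup.toGroup.of (desc_aux f hf)
  exact DFunLike.congr_fun h1 w

theorem one_rel {Y : Type} [Fintype Y] {g : ℕ} (hY : Fintype.card Y = 2 * g) (r : FreeGroup Y)
    {L : Type} [Group L] (Φ : NatBij L (SurfG g))
    (π : L →* PresentedGroup ({r} : Set (FreeGroup Y))) (hπ : Function.Surjective π)
    (hev : ∀ χ : FreeGroup Y → ZMod 2, (∀ g h, χ (g * h) = χ g + χ h) → χ r = 0)
    {P : Type} [AddCommGroup P] [Module (ZMod 2) P] [Finite P]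
    (T : FreeGroup Y →* (P ≃ₗ[ZMod 2] P)) (hT : T r = 1) (κ : P →ₗ[ZMod 2] ZMod 2)
    (hκ : ∀ al ∈ Crs T P, κ (al r) = 0) (w : FreeGroup Y) (m : P) : κ (T w m) = κ m := by
  have := finite_Crs T
  let θ : PresentedGroup ({r} : Set (FreeGroup Y)) →* (P ≃ₗ[ZMod 2] P) := desc T hT
  have hθ : ∀ w, θ (PresentedGroup.mk _ w) = T w := desc_mk T hT
  have hrange : (θ.comp π).range = T.range := by
    ext q
    constructor
    · rintro ⟨l, rfl⟩
      obtain ⟨w, hw⟩ := PresentedGroup.mk_surjective _ (π l)
      refine ⟨w, ?_⟩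
      rw [MonoidHom.comp_apply, ← hw, hθ]
    · rintro ⟨w, rfl⟩
      obtain ⟨l, hl⟩ := hπ (PresentedGroup.mk _ w)
      refine ⟨l, ?_⟩
      rw [MonoidHom.comp_apply, hl, hθ]
  have hC := card_Crs Φ (θ.comp π) P
  rw [hrange] at hC
  -- the image is contained in `IP`
  have hle : (evr T r).range ≤ IP P T.range := by
    rintro _ ⟨⟨al, hal⟩, rfl⟩
    by_contra hn
    have hn' : al r ∉ AddSubgroup.toZModSubmodule 2 (IP P T.range) := hn
    obtain ⟨l, hl1, hl2⟩ := Submodule.exists_le_ker_of_notMem hn'
    apply hl1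
    apply hev (fun g => l (al g))
    intro g h
    rw [hal, map_add]
    congr 1
    have h3 : al h - T g • al h ∈ AddSubgroup.toZModSubmodule 2 (IP P T.range) :=
      sub_mem_IP (H := T.range) ⟨g, rfl⟩ (al h)
    have h4 := hl2 h3
    rw [LinearMap.mem_ker, map_sub, sub_eq_zero] at h4
    exact h4.symm
  -- the kernel is embedded
  have hker : Nat.card (evr T r).ker ≤ Nat.card (Crs (θ.comp π) P) := by
    have hfin : Finite (Crs (θ.comp π) P) := by
      apply Nat.finite_of_card_ne_zero
      intro h0
      rw [h0, zero_mul] at hC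
      exact absurd hC.symm (pow_ne_zero _ Nat.card_pos.ne')
    have hfac : ∀ c : (evr T r).ker, ∃ d : Crs (θ.comp π) P, ∀ l w,
        π l = PresentedGroup.mk _ w → d.1 l = c.1.1 w := by
      rintro ⟨c, hc⟩
      have hcr : Crs.hom c r = 1 := by
        apply AF.ext
        · exact hc
        · exact hT
      let ψ : PresentedGroup ({r} : Set (FreeGroup Y)) →* AF (P ≃ₗ[ZMod 2] P) P :=
        desc (Crs.hom c) hcr
      have hψ : ∀ w, ψ (PresentedGroup.mk _ w) = Crs.hom c w := desc_mk _ hcr
      refine ⟨(crsEquiv (θ.comp π) P).symm ⟨ψ.comp π, ?_⟩, ?_⟩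
      · apply MonoidHom.ext
        intro l
        obtain ⟨w, hw⟩ := PresentedGroup.mk_surjective _ (π l)
        rw [MonoidHom.comp_apply, MonoidHom.comp_apply, MonoidHom.comp_apply, ← hw, hψ, hθ]
        rfl
      · intro l w hw
        change (ψ (π l)).v = c.1 w
        rw [hw, hψ]
        rfl
    choose d hd using hfac
    apply Nat.card_le_card_of_injective d
    intro c c' h
    apply Subtype.ext
    apply Subtype.ext
    funext w
    obtain ⟨l, hl⟩ := hπ (PresentedGroup.mk _ w)
    rw [← hd c l w hl, ← hd c' l w hl, h]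
  have hcard : Nat.card (IP P T.range) ≤ Nat.card (evr T r).range := by
    have h1 := card_hom_eq (evr T r)
    have h2 := le_card_Crs T
    rw [hY, ← hC, ← h1] at h2
    have h3 : 0 < Nat.card (Crs (θ.comp π) P) := by
      apply Nat.pos_of_ne_zero
      intro h0
      rw [h0, zero_mul] at hC
      exact absurd hC.symm (pow_ne_zero _ Nat.card_pos.ne')
    have h4 : Nat.card (Crs (θ.comp π) P) * Nat.card (IP P T.range) ≤
        Nat.card (Crs (θ.comp π) P) * Nat.card (evr T r).range :=
      h2.trans (Nat.mul_le_mul_right _ hker)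
    exact Nat.le_of_mul_le_mul_left h4 h3
  have heq : (evr T r).range = IP P T.range := AddSubgroup.eq_of_le_of_card_ge hle hcard
  have hm : m - T w • m ∈ (evr T r).range := by
    rw [heq]
    exact sub_mem_IP (H := T.range) ⟨w, rfl⟩ m
  obtain ⟨⟨al, hal⟩, hal2⟩ := hm
  have h5 := hκ al hal
  have h6 : al r = m - T w m := hal2
  rw [h6, map_sub, sub_eq_zero] at h5
  exact h5.symm

end Pool.Agent.SuE
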