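import Pool.Agent.Lib.MP_305fdd_al.Su.E.Twice
import Pool.Agent.Lib.MP_305fdd_al.Su.E.One

/-!
# MP_305fdd_al, surface groups, END block: words, automorphisms, evenness
-/

set_option autoImplicit false
set_option linter.unusedSectionVars false

namespace Pool.Agent.SuE

section words

variable {X Z : Type} [Fintype X] [Fintype Z] [DecidableEq X] [DecidableEq Z]

theorem occ_nil (x : X) : occ x ([] : List (X × Bool)) = 0 := by
  simp [occ]

theorem occ_append (x : X) (l l' : List (X × Bool)) : occ x (l ++ l') = occ x l + occ x l' := by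
  induction l with
  | nil => rw [List.nil_append, occ_nil, zero_add]
  | cons v l ih => rw [List.cons_append, occ_cons, occ_cons, ih, add_right_comm]

theorem occ_invRev (x : X) (l : List (X × Bool)) : occ x (FreeGroup.invRev l) = occ x l := by
  induction l with
  | nil => rfl
  | cons v l ih =>
    have h1 : FreeGroup.invRev (v :: l) = FreeGroup.invRev l ++ [(v.1, !v.2)] := by
      simp [FreeGroup.invRev]
    rw [h1, occ_append, ih, occ_cons, occ_cons, occ_nil, zero_add]

/-- rename the letters -/
def ren (f : X → Z) (l : List (X × Bool)) : List (Z × Bool) := l.map fun v => (f v.1, v.2)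

theorem mk_ren (f : X → Z) (l : List (X × Bool)) :
    FreeGroup.mk (ren f l) = FreeGroup.map f (FreeGroup.mk l) := by
  rw [FreeGroup.map.mk]
  rfl

theorem occ_ren (f : X → Z) (hf : Function.Injective f) (x : X) (l : List (X × Bool)) :
    occ (f x) (ren f l) = occ x l := by
  induction l with
  | nil => rw [ren, List.map_nil, occ_nil, occ_nil]
  | cons v l ih =>
    have h1 : ren f (v :: l) = (f v.1, v.2) :: ren f l := rfl
    rw [h1, occ_cons, occ_cons, ih]
    simp only [hf.eq_iff]

theorem occ_ren_ne (f : X → Z) (y : Z) (hy : ∀ x, f x ≠ y) (l : List (X × Bool)) :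
    occ y (ren f l) = 0 := by
  induction l with
  | nil => rw [ren, List.map_nil, occ_nil]
  | cons v l ih =>
    have h1 : ren f (v :: l) = (f v.1, v.2) :: ren f l := rfl
    rw [h1, occ_cons, ih, if_neg (hy v.1)]

end words

section auto

variable {X X' : Type}

/-- the automorphism of a free product of two free groups -/
def sumAut (s : FreeGroup X ≃* FreeGroup X) (s' : FreeGroup X' ≃* FreeGroup X') :
    FreeGroup (X ⊕ X') ≃* FreeGroup (X ⊕ X') :=
  MonoidHom.toMulEquiv
    (FreeGroup.lift (Sum.elim (fun x => FreeGroup.map Sum.inl (s (FreeGroup.of x)))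
      fun x => FreeGroup.map Sum.inr (s' (FreeGroup.of x))))
    (FreeGroup.lift (Sum.elim (fun x => FreeGroup.map Sum.inl (s.symm (FreeGroup.of x)))
      fun x => FreeGroup.map Sum.inr (s'.symm (FreeGroup.of x))))
    (by
      have h1 : (FreeGroup.lift (Sum.elim
          (fun x => FreeGroup.map Sum.inl (s.symm (FreeGroup.of x)))
          fun x => (FreeGroup.map Sum.inr (s'.symm (FreeGroup.of x)) :
            FreeGroup (X ⊕ X')))).comp (FreeGroup.map Sum.inl) =
          (FreeGroup.map Sum.inl).comp s.symm.toMonoidHom := by
        apply FreeGroup.ext_hom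
        intro x
        simp
      have h2 : (FreeGroup.lift (Sum.elim
          (fun x => FreeGroup.map Sum.inl (s.symm (FreeGroup.of x)))
          fun x => (FreeGroup.map Sum.inr (s'.symm (FreeGroup.of x)) :
            FreeGroup (X ⊕ X')))).comp (FreeGroup.map Sum.inr) =
          (FreeGroup.map Sum.inr).comp s'.symm.toMonoidHom := by
        apply FreeGroup.ext_hom
        intro x
        simp
      apply FreeGroup.ext_hom
      rintro (x | x)
      · have h3 := DFunLike.congr_fun h1 (s (FreeGroup.of x))
        simp only [MonoidHom.comp_apply, FreeGroup.lift_apply_of, Sum.elim_inl,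
          MonoidHom.id_apply] at h3 ⊢
        rw [h3]
        simp
      · have h3 := DFunLike.congr_fun h2 (s' (FreeGroup.of x))
        simp only [MonoidHom.comp_apply, FreeGroup.lift_apply_of, Sum.elim_inr,
          MonoidHom.id_apply] at h3 ⊢
        rw [h3]
        simp)
    (by
      have h1 : (FreeGroup.lift (Sum.elim
          (fun x => FreeGroup.map Sum.inl (s (FreeGroup.of x)))
          fun x => (FreeGroup.map Sum.inr (s' (FreeGroup.of x)) :
            FreeGroup (X ⊕ X')))).comp (FreeGroup.map Sum.inl) =
          (FreeGroup.map Sum.inl).comp s.toMonoidHom := by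
        apply FreeGroup.ext_hom
        intro x
        simp
      have h2 : (FreeGroup.lift (Sum.elim
          (fun x => FreeGroup.map Sum.inl (s (FreeGroup.of x)))
          fun x => (FreeGroup.map Sum.inr (s' (FreeGroup.of x)) :
            FreeGroup (X ⊕ X')))).comp (FreeGroup.map Sum.inr) =
          (FreeGroup.map Sum.inr).comp s'.toMonoidHom := by
        apply FreeGroup.ext_hom
        intro x
        simp
      apply FreeGroup.ext_hom
      rintro (x | x)
      · have h3 := DFunLike.congr_fun h1 (s.symm (FreeGroup.of x))
        simp only [MonoidHom.comp_apply, FreeGroup.lift_apply_of, Sum.elim_inl,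
          MonoidHom.id_apply] at h3 ⊢
        rw [h3]
        simp
      · have h3 := DFunLike.congr_fun h2 (s'.symm (FreeGroup.of x))
        simp only [MonoidHom.comp_apply, FreeGroup.lift_apply_of, Sum.elim_inr,
          MonoidHom.id_apply] at h3 ⊢
        rw [h3]
        simp)

theorem sumAut_inl (s : FreeGroup X ≃* FreeGroup X) (s' : FreeGroup X' ≃* FreeGroup X')
    (a : FreeGroup X) : sumAut s s' (FreeGroup.map Sum.inl a) = FreeGroup.map Sum.inl (s a) := by
  have h1 : (sumAut s s').toMonoidHom.comp (FreeGroup.map Sum.inl) =
      (FreeGroup.map Sum.inl).comp s.toMonoidHom := by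
    apply FreeGroup.ext_hom
    intro x
    simp [sumAut]
  exact DFunLike.congr_fun h1 a

theorem sumAut_inr (s : FreeGroup X ≃* FreeGroup X) (s' : FreeGroup X' ≃* FreeGroup X')
    (a : FreeGroup X') :
    sumAut s s' (FreeGroup.map Sum.inr a) = FreeGroup.map Sum.inr (s' a) := by
  have h1 : (sumAut s s').toMonoidHom.comp (FreeGroup.map Sum.inr) =
      (FreeGroup.map Sum.inr).comp s'.toMonoidHom := by
    apply FreeGroup.ext_hom
    intro x
    simp [sumAut]
  exact DFunLike.congr_fun h1 a

/-- the homomorphism `x ↦ s x`, `t ↦ t * d⁻¹` -/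
def optHom (s : FreeGroup X →* FreeGroup X) (d : FreeGroup X) :
    FreeGroup (Option X) →* FreeGroup (Option X) :=
  FreeGroup.lift fun x => match x with
    | none => FreeGroup.of none * FreeGroup.map some d⁻¹
    | some x => FreeGroup.map some (s (FreeGroup.of x))

theorem optHom_none (s : FreeGroup X →* FreeGroup X) (d : FreeGroup X) :
    optHom s d (FreeGroup.of none) = FreeGroup.of none * FreeGroup.map some d⁻¹ := by
  simp only [optHom, FreeGroup.lift_apply_of]

theorem optHom_map (s : FreeGroup X →* FreeGroup X) (d : FreeGroup X) (a : FreeGroup X) :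
    optHom s d (FreeGroup.map some a) = FreeGroup.map some (s a) := by
  have h1 : (optHom s d).comp (FreeGroup.map some) = (FreeGroup.map some).comp s := by
    apply FreeGroup.ext_hom
    intro x
    simp only [MonoidHom.comp_apply, FreeGroup.map.of, optHom, FreeGroup.lift_apply_of]
  exact DFunLike.congr_fun h1 a

/-- the automorphism `x ↦ s x`, `t ↦ t * d⁻¹` -/
def optAut (s : FreeGroup X ≃* FreeGroup X) (d : FreeGroup X) :
    FreeGroup (Option X) ≃* FreeGroup (Option X) :=
  MonoidHom.toMulEquiv (optHom s.toMonoidHom d) (optHom s.symm.toMonoidHom (s.symm d⁻¹))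
    (by
      apply FreeGroup.ext_hom
      rintro (_ | x)
      · rw [MonoidHom.comp_apply, optHom_none, map_mul, optHom_none, optHom_map,
          MonoidHom.id_apply, mul_assoc, ← map_mul]
        simp
      · have h1 : (FreeGroup.of (some x) : FreeGroup (Option X)) =
            FreeGroup.map some (FreeGroup.of x) := by simp
        rw [MonoidHom.comp_apply, h1, optHom_map, optHom_map]
        simp)
    (by
      apply FreeGroup.ext_hom
      rintro (_ | x)
      · rw [MonoidHom.comp_apply, optHom_none, map_mul, optHom_none, optHom_map,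
          MonoidHom.id_apply, mul_assoc, ← map_mul]
        simp
      · have h1 : (FreeGroup.of (some x) : FreeGroup (Option X)) =
            FreeGroup.map some (FreeGroup.of x) := by simp
        rw [MonoidHom.comp_apply, h1, optHom_map, optHom_map]
        simp)

theorem optAut_none (s : FreeGroup X ≃* FreeGroup X) (d : FreeGroup X) :
    optAut s d (FreeGroup.of none) = FreeGroup.of none * (FreeGroup.map some d)⁻¹ := by
  rw [← map_inv]
  exact optHom_none _ _

theorem optAut_map (s : FreeGroup X ≃* FreeGroup X) (d : FreeGroup X) (a : FreeGroup X) :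
    optAut s d (FreeGroup.map some a) = FreeGroup.map some (s a) :=
  optHom_map _ _ _

end auto

section even

variable {Y : Type} [Fintype Y]

/-- if the one relator group has as many homomorphisms to `Z / 2` as the free group then the relator
is trivial modulo `2` -/
theorem ev_of_card (r : FreeGroup Y)
    (h : Nat.card (PresentedGroup ({r} : Set (FreeGroup Y)) →* Multiplicative (ZMod 2)) =
      2 ^ Fintype.card Y) (χ : FreeGroup Y → ZMod 2) (hχ : ∀ g h, χ (g * h) = χ g + χ h) :
    χ r = 0 := by
  let f : FreeGroup Y →* Multiplicative (ZMod 2) := MonoidHom.mk'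
    (fun g => Multiplicative.ofAdd (χ g)) (by
      intro a b
      rw [hχ, ofAdd_add])
  let F : (PresentedGroup ({r} : Set (FreeGroup Y)) →* Multiplicative (ZMod 2)) →
      (FreeGroup Y →* Multiplicative (ZMod 2)) := fun ψ => ψ.comp (PresentedGroup.mk {r})
  have hF : Function.Injective F := by
    intro ψ ψ' h1
    apply MonoidHom.ext
    intro x
    obtain ⟨w, rfl⟩ := PresentedGroup.mk_surjective _ x
    exact DFunLike.congr_fun h1 w
  have hc : Nat.card (FreeGroup Y →* Multiplicative (ZMod 2)) = 2 ^ Fintype.card Y := by
    rw [← Nat.card_congr (FreeGroup.lift (α := Y) (β := Multiplicative (ZMod 2))), Nat.card_fun,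
      Nat.card_eq_fintype_card (α := Y)]
    congr 1
    rw [Nat.card_congr Multiplicative.toAdd, Nat.card_zmod]
  have hfin : Finite (FreeGroup Y →* Multiplicative (ZMod 2)) := by
    apply Nat.finite_of_card_ne_zero
    rw [hc]
    exact pow_ne_zero _ two_ne_zero
  have hb : Function.Bijective F :=
    hF.bijective_of_nat_card_le (by rw [hc, h])
  obtain ⟨ψ, hψ⟩ := hb.2 f
  have h2 : f r = 1 := by
    rw [← hψ]
    change ψ (PresentedGroup.mk {r} r) = 1
    rw [PresentedGroup.one_of_mem (Set.mem_singleton r), map_one]
  exact h2

end even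

end Pool.Agent.SuE
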