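import Pool.Agent.Lib.MP_305fdd_al.Su.E.Am
import Pool.Agent.Lib.MP_305fdd_al.Su.E.Hn
import Pool.Agent.Lib.MP_305fdd_al.Su.E.Wd
import Pool.Agent.Lib.MP_305fdd_al.Su.Q3

/-!
# MP_305fdd_al, surface groups, END block

Let `L` be a group with the same finite quotients as the closed surface group of genus `g`
(`Φ : NatBij L (SurfG g)`), let `π : L → G` be surjective, where `G` is

* `end_am` : an amalgam of two free groups along `z = z'`, the sum of the ranks is `2 g`, or
* `end_hn` : an HNN extension `t z t⁻¹ = z'` of a free group of rank `2 g - 1`,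

and let `G` have as many homomorphisms to `Z / 2`, `Z / 4`, `S_3` as the surface group; assume that
the order of `z` in finite quotients of `G` is divisible by every given number (for suitable
quotients).  Then `G` is the surface group of genus `g`.  Paper: MP_305fdd_surfend_h79.md.
-/

set_option autoImplicit false
set_option linter.unusedSectionVars false

namespace Pool.Agent.SuE

open Pool.Agent.SuD Pool.Agent.Lib.MP_305fdd_al Pool.Agent.MP_305fdd_al Pool.Agent.SurfCnt

/-- the relator of the amalgam `z = z'` -/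
def amRel {X X' : Type} (z : FreeGroup X) (z' : FreeGroup X') : FreeGroup (X ⊕ X') :=
  FreeGroup.map Sum.inl z * (FreeGroup.map Sum.inr z')⁻¹

/-- `z` has large order in finite quotients of the one relator group -/
def LargeOrd {Y : Type} (r z : FreeGroup Y) : Prop :=
  ∀ N : ℕ, 0 < N → ∃ (Q : Type) (_ : Group Q) (_ : Finite Q)
    (θ : PresentedGroup ({r} : Set (FreeGroup Y)) →* Q), N ∣ orderOf (θ (PresentedGroup.mk _ z))

theorem ne_one_of_largeOrd {Y : Type} {r z : FreeGroup Y} (h : LargeOrd r z) : z ≠ 1 := by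
  rintro rfl
  obtain ⟨Q, _, _, θ, hθ⟩ := h 2 two_pos
  rw [map_one, map_one, orderOf_one] at hθ
  norm_num at hθ

/-- transport of the recognition theorem -/
theorem surf_of_iso {G : Type} [Group G] {g : ℕ} {Y : Type} [Fintype Y] [DecidableEq Y]
    (W : List (Y × Bool)) (hW : ∀ y, occ y W = 2)
    (e : G ≃* PresentedGroup ({FreeGroup.mk W} : Set (FreeGroup Y)))
    (h4 : Nat.card (G →* Multiplicative (ZMod 4)) = 4 ^ (2 * g))
    (h3 : Nat.card (G →* Equiv.Perm (Fin 3)) =
      Nat.card (Su.SurfaceGroup g →* Equiv.Perm (Fin 3))) :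
    Nonempty (G ≃* Su.SurfaceGroup g) := by
  obtain ⟨e'⟩ := Su.surf_of_counts g W hW
    (by rw [← h4]; exact Nat.card_congr (MulEquiv.monoidHomCongrLeftEquiv e.symm))
    (by rw [← h3]; exact Nat.card_congr (MulEquiv.monoidHomCongrLeftEquiv e.symm))
  exact ⟨e.trans e'⟩

/-- **END, amalgam** -/
theorem end_am {X X' : Type} [Fintype X] [Fintype X'] {g : ℕ}
    (hX : Fintype.card X + Fintype.card X' = 2 * g) (z : FreeGroup X) (z' : FreeGroup X')
    {L : Type} [Group L] (Φ : NatBij L (SurfG g))
    (π : L →* PresentedGroup ({amRel z z'} : Set (FreeGroup (X ⊕ X'))))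
    (hπ : Function.Surjective π)
    (hord : LargeOrd (amRel z z') (FreeGroup.map Sum.inl z))
    (h2 : Nat.card (PresentedGroup ({amRel z z'} : Set (FreeGroup (X ⊕ X'))) →*
      Multiplicative (ZMod 2)) = 2 ^ (2 * g))
    (h4 : Nat.card (PresentedGroup ({amRel z z'} : Set (FreeGroup (X ⊕ X'))) →*
      Multiplicative (ZMod 4)) = 4 ^ (2 * g))
    (h3 : Nat.card (PresentedGroup ({amRel z z'} : Set (FreeGroup (X ⊕ X'))) →*
      Equiv.Perm (Fin 3)) = Nat.card (Su.SurfaceGroup g →* Equiv.Perm (Fin 3))) :
    Nonempty (PresentedGroup ({amRel z z'} : Set (FreeGroup (X ⊕ X'))) ≃*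
      Su.SurfaceGroup g) := by
  classical
  have hY : Fintype.card (X ⊕ X') = 2 * g := by rw [Fintype.card_sum, hX]
  have hev := ev_of_card (amRel z z') (by rw [h2, hY])
  have hz : ∀ χ : FreeGroup X → ZMod 2, (∀ g h, χ (g * h) = χ g + χ h) → χ z = 0 := by
    intro χ hχ
    let p : FreeGroup (X ⊕ X') →* FreeGroup X :=
      FreeGroup.lift (Sum.elim FreeGroup.of fun _ => 1)
    have e1 := hev (fun w => χ (p w)) (fun a b => by rw [map_mul, hχ])
    have e2 : p.comp (FreeGroup.map Sum.inl) = MonoidHom.id _ := by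
      apply FreeGroup.ext_hom
      intro x
      simp [p]
    have e3 : p.comp (FreeGroup.map Sum.inr) = 1 := by
      apply FreeGroup.ext_hom
      intro x
      simp [p]
    have e4 : p (amRel z z') = z := by
      rw [amRel, map_mul, map_inv]
      have e5 := DFunLike.congr_fun e2 z
      have e6 := DFunLike.congr_fun e3 z'
      simp only [MonoidHom.comp_apply, MonoidHom.id_apply, MonoidHom.one_apply] at e5 e6
      rw [e5, e6, inv_one, mul_one]
    simp only [e4] at e1
    exact e1
  have hz' : ∀ χ : FreeGroup X' → ZMod 2, (∀ g h, χ (g * h) = χ g + χ h) → χ z' = 0 := by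
    intro χ hχ
    let p : FreeGroup (X ⊕ X') →* FreeGroup X' :=
      FreeGroup.lift (Sum.elim (fun _ => 1) FreeGroup.of)
    have e1 := hev (fun w => χ (p w)) (fun a b => by rw [map_mul, hχ])
    have e2 : p.comp (FreeGroup.map Sum.inl) = 1 := by
      apply FreeGroup.ext_hom
      intro x
      simp [p]
    have e3 : p.comp (FreeGroup.map Sum.inr) = MonoidHom.id _ := by
      apply FreeGroup.ext_hom
      intro x
      simp [p]
    have e4 : p (amRel z z') = z'⁻¹ := by
      rw [amRel, map_mul, map_inv]
      have e5 := DFunLike.congr_fun e2 z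
      have e6 := DFunLike.congr_fun e3 z'
      simp only [MonoidHom.comp_apply, MonoidHom.id_apply, MonoidHom.one_apply] at e5 e6
      rw [e5, e6, one_mul]
    simp only [e4] at e1
    have e5 := hχ z' z'⁻¹
    have e6 := hχ 1 1
    rw [mul_one] at e6
    rw [mul_inv_cancel, left_eq_add.1 e6, e1, add_zero] at e5
    exact e5.symm
  have hmk : PresentedGroup.mk ({amRel z z'} : Set (FreeGroup (X ⊕ X')))
      (FreeGroup.map Sum.inl z) = PresentedGroup.mk _ (FreeGroup.map Sum.inr z') := by
    rw [← mul_inv_eq_one, ← map_inv, ← map_mul]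
    exact PresentedGroup.one_of_mem (Set.mem_singleton _)
  have hord' : LargeOrd (amRel z z') (FreeGroup.map Sum.inr z') := by
    intro N hN
    obtain ⟨Q, i1, i2, θ, hθ⟩ := hord N hN
    refine ⟨Q, i1, i2, θ, ?_⟩
    rw [← hmk]
    exact hθ
  have hext : ∀ (H : Type) [Group H] (f : FreeGroup X →* H) (f' : FreeGroup X' →* H),
      ∃ F : FreeGroup (X ⊕ X') →* H, F.comp (FreeGroup.map Sum.inl) = f ∧
        F.comp (FreeGroup.map Sum.inr) = f' := by
    intro H _ f f'
    refine ⟨FreeGroup.lift (Sum.elim (fun x => f (FreeGroup.of x)) fun x => f' (FreeGroup.of x)),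
      ?_, ?_⟩
    · apply FreeGroup.ext_hom
      intro x
      simp
    · apply FreeGroup.ext_hom
      intro x
      simp
  have hT : TProp (fun _ : Unit => z) := tprop_am_aux hY _ _ hext z z' (amRel z z') (Or.inl rfl)
    Φ π hπ hev hz' hord
  have hT' : TProp (fun _ : Unit => z') := tprop_am_aux hY _ _
    (fun H _ f f' => (hext H f' f).imp fun F hF => ⟨hF.2, hF.1⟩) z' z (amRel z z')
    (Or.inr rfl) Φ π hπ hev hz hord'
  have hE : EvP (fun _ : Unit => z) := by
    intro χ hχ
    simpa using hz χ hχ
  have hE' : EvP (fun _ : Unit => z') := by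
    intro χ hχ
    simpa using hz' χ hχ
  have hz1 : z ≠ 1 := by
    intro h
    exact ne_one_of_largeOrd hord (by rw [h, map_one])
  have hz1' : z' ≠ 1 := by
    intro h
    exact ne_one_of_largeOrd hord' (by rw [h, map_one])
  obtain ⟨σ, c, l, hl, ho⟩ := twice (fun _ : Unit => z) (fun _ => hz1) hT hE
  obtain ⟨σ', c', l', hl', ho'⟩ := twice (fun _ : Unit => z') (fun _ => hz1') hT' hE'
  have ho1 : ∀ x, occ x (l ()) = 2 := fun x => by simpa using ho x
  have ho1' : ∀ x, occ x (l' ()) = 2 := fun x => by simpa using ho' x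
  let e : FreeGroup (X ⊕ X') ≃* FreeGroup (X ⊕ X') :=
    sumAut (σ.trans (MulAut.conj (c ()))) (σ'.trans (MulAut.conj (c' ())))
  let W : List ((X ⊕ X') × Bool) := ren Sum.inl (l ()) ++ FreeGroup.invRev (ren Sum.inr (l' ()))
  have heW : e (amRel z z') = FreeGroup.mk W := by
    rw [amRel, map_mul, map_inv]
    simp only [e, W]
    rw [sumAut_inl, sumAut_inr, ← FreeGroup.mul_mk, ← FreeGroup.inv_mk, mk_ren, mk_ren, hl (),
      hl' ()]
    rfl
  obtain ⟨e'⟩ := Su.presented_congr e _ _ heW
  refine surf_of_iso W ?_ e' h4 h3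
  rintro (x | x)
  · rw [occ_append, occ_invRev, occ_ren _ Sum.inl_injective, occ_ren_ne Sum.inr _ (by simp),
      ho1]
  · rw [occ_append, occ_invRev, occ_ren _ Sum.inr_injective, occ_ren_ne Sum.inl _ (by simp),
      ho1']

/-- **END, HNN extension** -/
theorem end_hn {X : Type} [Fintype X] {g : ℕ} (hX : Fintype.card X + 1 = 2 * g)
    (z : Bool → FreeGroup X) {L : Type} [Group L] (Φ : NatBij L (SurfG g))
    (π : L →* PresentedGroup ({hnRel z} : Set (FreeGroup (Option X))))
    (hπ : Function.Surjective π)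
    (hord : LargeOrd (hnRel z) (FreeGroup.map some (z false)))
    (h2 : Nat.card (PresentedGroup ({hnRel z} : Set (FreeGroup (Option X))) →*
      Multiplicative (ZMod 2)) = 2 ^ (2 * g))
    (h4 : Nat.card (PresentedGroup ({hnRel z} : Set (FreeGroup (Option X))) →*
      Multiplicative (ZMod 4)) = 4 ^ (2 * g))
    (h3 : Nat.card (PresentedGroup ({hnRel z} : Set (FreeGroup (Option X))) →*
      Equiv.Perm (Fin 3)) = Nat.card (Su.SurfaceGroup g →* Equiv.Perm (Fin 3))) :
    Nonempty (PresentedGroup ({hnRel z} : Set (FreeGroup (Option X))) ≃*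
      Su.SurfaceGroup g) := by
  classical
  have hY : Fintype.card (Option X) = 2 * g := by rw [Fintype.card_option, hX]
  have hev := ev_of_card (hnRel z) (by rw [h2, hY])
  have hE : EvP z := by
    intro χ hχ
    let p : FreeGroup (Option X) →* FreeGroup X :=
      FreeGroup.lift fun x => x.elim 1 FreeGroup.of
    have e1 := hev (fun w => χ (p w)) (fun a b => by rw [map_mul, hχ])
    have e2 : p.comp (FreeGroup.map some) = MonoidHom.id _ := by
      apply FreeGroup.ext_hom
      intro x
      simp [p]
    have e3 : p (FreeGroup.of none) = 1 := by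
      simp [p]
    have e4 : p (hnRel z) = z false * (z true)⁻¹ := by
      have e5 := fun a => DFunLike.congr_fun e2 a
      simp only [MonoidHom.comp_apply, MonoidHom.id_apply] at e5
      rw [hnRel, map_mul, map_mul, map_mul, map_inv, map_inv, e3, e5, e5]
      group
    simp only [e4] at e1
    have e5 := hχ (z true) (z true)⁻¹
    have e6 := hχ 1 1
    rw [mul_one] at e6
    rw [mul_inv_cancel, left_eq_add.1 e6] at e5
    rw [hχ] at e1
    rw [Fintype.sum_bool]
    have e7 := two_eq _ _ e5.symm
    rw [← e7] at e1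
    rw [add_comm]
    exact e1
  have hT : TProp z := tprop_hn hY z Φ π hπ hev hE hord
  have hmk : PresentedGroup.mk ({hnRel z} : Set (FreeGroup (Option X)))
      (FreeGroup.map some (z true)) = MulAut.conj (PresentedGroup.mk _ (FreeGroup.of none))
        (PresentedGroup.mk _ (FreeGroup.map some (z false))) := by
    rw [MulAut.conj_apply, ← map_inv, ← map_mul, ← map_mul, eq_comm, ← mul_inv_eq_one,
      ← map_inv, ← map_mul]
    exact PresentedGroup.one_of_mem (Set.mem_singleton _)
  have hz1 : ∀ i, z i ≠ 1 := by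
    have h0 : z false ≠ 1 := by
      intro h
      exact ne_one_of_largeOrd hord (by rw [h, map_one])
    intro i
    cases i
    · exact h0
    · intro h
      obtain ⟨Q, _, _, θ, hθ⟩ := hord 2 two_pos
      rw [h, map_one, map_one, eq_comm, map_eq_one_iff _ (MulEquiv.injective _)] at hmk
      rw [hmk, map_one, orderOf_one] at hθ
      norm_num at hθ
  obtain ⟨σ, c, l, hl, ho⟩ := twice z hz1 hT hE
  let e : FreeGroup (Option X) ≃* FreeGroup (Option X) :=
    optAut (σ.trans (MulAut.conj (c true))) (c true * (c false)⁻¹)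
  let W : List (Option X × Bool) := (none, true) :: (ren some (l false) ++
    (none, false) :: FreeGroup.invRev (ren some (l true)))
  have heW : e (hnRel z) = FreeGroup.mk W := by
    have h5 : FreeGroup.mk W = FreeGroup.of none * FreeGroup.map some (FreeGroup.mk (l false)) *
        (FreeGroup.of none)⁻¹ * (FreeGroup.map some (FreeGroup.mk (l true)))⁻¹ := by
      simp only [W]
      rw [mk_cons, mk_append, mk_cons, gn_true, gn_false, ← FreeGroup.inv_mk, mk_ren, mk_ren]
      group
    have h6 : ∀ a, e (FreeGroup.map some a) = FreeGroup.map some (c true * σ a * (c true)⁻¹) := by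
      intro a
      simp only [e]
      rw [optAut_map]
      rfl
    have h7 : e (FreeGroup.of none) = FreeGroup.of none *
        (FreeGroup.map some (c true * (c false)⁻¹))⁻¹ := optAut_none _ _
    rw [h5, hnRel, map_mul, map_mul, map_mul, map_inv, map_inv, h6, h6, h7, hl, hl]
    simp only [map_mul, map_inv]
    group
  obtain ⟨e'⟩ := Su.presented_congr e _ _ heW
  refine surf_of_iso W ?_ e' h4 h3
  rintro (_ | x)
  · rw [occ_cons, occ_append, occ_cons, occ_invRev, occ_ren_ne some _ (by simp),
      occ_ren_ne some _ (by simp)]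
    simp
  · have h8 := ho x
    rw [Fintype.sum_bool] at h8
    rw [occ_cons, occ_append, occ_cons, occ_invRev, occ_ren _ (Option.some_injective _),
      occ_ren _ (Option.some_injective _), if_neg (by simp)]
    omega

end Pool.Agent.SuE
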