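import Mathlib.LinearAlgebra.Dual.Lemmas
import Mathlib.LinearAlgebra.FiniteDimensional.Lemmas

/-!
# MP_305fdd_al, surface groups, END block: linear algebra

* `exists_aut` : two linear maps with the same range differ by an automorphism of the source.
* `functional_of_vanish` : a functional vanishing on `⋂ ker` is a linear combination.
-/

set_option autoImplicit false

namespace Pool.Agent.SuE

variable {K M V : Type} [Field K] [AddCommGroup M] [Module K M] [AddCommGroup V] [Module K V]

/-- two linear maps with the same range differ by an automorphism of the source -/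
theorem exists_aut [FiniteDimensional K M] (f f' : M →ₗ[K] V)
    (h : LinearMap.range f = LinearMap.range f') :
    ∃ φ : M ≃ₗ[K] M, ∀ m, f' (φ m) = f m := by
  obtain ⟨C, hC⟩ := Submodule.exists_isCompl (LinearMap.ker f)
  obtain ⟨C', hC'⟩ := Submodule.exists_isCompl (LinearMap.ker f')
  let e1 : C ≃ₗ[K] LinearMap.range f := LinearMap.kerComplementEquivRange f hC.symm
  let e2 : C' ≃ₗ[K] LinearMap.range f' := LinearMap.kerComplementEquivRange f' hC'.symm
  let e3 : C ≃ₗ[K] C' := (e1.trans (LinearEquiv.ofEq _ _ h)).trans e2.symm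
  have hk : Module.finrank K (LinearMap.ker f) = Module.finrank K (LinearMap.ker f') := by
    have h1 := LinearMap.finrank_range_add_finrank_ker f
    have h2 := LinearMap.finrank_range_add_finrank_ker f'
    rw [h] at h1
    omega
  let e4 : LinearMap.ker f ≃ₗ[K] LinearMap.ker f' := LinearEquiv.ofFinrankEq _ _ hk
  let φ : M ≃ₗ[K] M := (Submodule.prodEquivOfIsCompl _ _ hC).symm.trans
    ((e4.prodCongr e3).trans (Submodule.prodEquivOfIsCompl _ _ hC'))
  refine ⟨φ, fun m => ?_⟩
  obtain ⟨⟨k, c⟩, rfl⟩ := (Submodule.prodEquivOfIsCompl _ _ hC).surjective m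
  have h1 : φ ((Submodule.prodEquivOfIsCompl _ _ hC) (k, c)) = (e4 k : M) + (e3 c : M) := by
    simp [φ]
  have h2 : (Submodule.prodEquivOfIsCompl _ _ hC) (k, c) = (k : M) + (c : M) := rfl
  have h3 : f' (e4 k : M) = 0 := (e4 k).2
  have h4 : f (k : M) = 0 := k.2
  have h5 : f' (e3 c : M) = f (c : M) := by
    have h6 : (e2 (e3 c) : V) = (e1 c : V) := by
      simp [e3]
    exact h6
  rw [h1, map_add, h3, h5, h2, map_add, h4]

/-- a functional vanishing on the intersection of the kernels is a linear combination -/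
theorem functional_of_vanish {ι : Type} [Fintype ι] (L : ι → M →ₗ[K] K) (l : M →ₗ[K] K)
    (h : ∀ m, (∀ i, L i m = 0) → l m = 0) : ∃ c : ι → K, ∀ m, l m = ∑ i, c i * L i m := by
  have h1 : ⨅ i, LinearMap.ker (L i) ≤ LinearMap.ker l := by
    intro m hm
    rw [LinearMap.mem_ker]
    apply h
    intro i
    exact (Submodule.mem_iInf _).1 hm i
  obtain ⟨c, hc⟩ := (Submodule.mem_span_range_iff_exists_fun K).1 (mem_span_of_iInf_ker_le_ker h1)
  refine ⟨c, fun m => ?_⟩
  rw [← hc]
  simp

end Pool.Agent.SuE
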