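import Pool.Agent.Lib.MP_305fdd_al.Su.E.Move
import Pool.Agent.Lib.MP_305fdd_al.Su.E.Lin
import Pool.Agent.Lib.MP_305fdd_al.Su.Dual.AF

/-!
# MP_305fdd_al, surface groups, END block: the Whitehead graph and its even subsets

`Pos` : the positions of the cyclic words, `y` the letter, `nx` the next position.  The edge `e` of
the Whitehead graph joins the letters `y e` and `vi (y (nx e))`.  `ZZ` : the even sets of edges.
-/

set_option autoImplicit false
set_option linter.unusedSectionVars false

namespace Pool.Agent.SuE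

open Pool.Agent.SuD

variable {X Pos : Type} [Fintype X] [DecidableEq X] [Fintype Pos] [DecidableEq Pos]
  (y : Pos → X × Bool) (nx : Equiv.Perm Pos)

/-- no Whitehead move makes the words shorter -/
def Red : Prop := ∀ (a : X × Bool) (p : X × Bool → Bool), p a = false → p (vi a) = false →
  (∀ e, NoE a p (y e) (y (nx e))) → ∀ e, ¬ Pt a p (y e) (y (nx e))

/-- restriction of a set of edges to the edges at the vertex `v`; these edges are in bijection with
the occurrences of `v` and of its inverse -/
def RR (v : X × Bool) : (Pos → ZMod 2) →ₗ[ZMod 2] (Pos → ZMod 2) where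
  toFun s e := if y e = v then s e else if y e = vi v then s (nx.symm e) else 0
  map_add' s t := by
    funext e
    simp only [Pi.add_apply]
    split_ifs <;> simp
  map_smul' c s := by
    funext e
    simp only [Pi.smul_apply, RingHom.id_apply]
    split_ifs <;> simp

theorem RR_apply (v : X × Bool) (s : Pos → ZMod 2) (e : Pos) :
    RR y nx v s e = if y e = v then s e else if y e = vi v then s (nx.symm e) else 0 := rfl

/-- the sum of the values -/
def sm : (Pos → ZMod 2) →ₗ[ZMod 2] ZMod 2 where
  toFun s := ∑ e, s e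
  map_add' s t := by simp [Finset.sum_add_distrib]
  map_smul' c s := by simp [Finset.mul_sum]

/-- the degree at `v` -/
def dd (v : X × Bool) : (Pos → ZMod 2) →ₗ[ZMod 2] ZMod 2 := sm.comp (RR y nx v)

theorem dd_apply (v : X × Bool) (s : Pos → ZMod 2) : dd y nx v s = ∑ e, RR y nx v s e := rfl

/-- the even sets of edges -/
def ZZ : Submodule (ZMod 2) (Pos → ZMod 2) := ⨅ v, LinearMap.ker (dd y nx v)

theorem mem_ZZ {s : Pos → ZMod 2} : s ∈ ZZ y nx ↔ ∀ v, dd y nx v s = 0 := by
  simp [ZZ, Submodule.mem_iInf]

/-- the even sets of occurrences of `x` -/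
def EE (x : X) : Submodule (ZMod 2) (Pos → ZMod 2) where
  carrier := {f | (∀ e, (y e).1 ≠ x → f e = 0) ∧ ∑ e, f e = 0}
  zero_mem' := by simp
  add_mem' := by
    rintro f f' ⟨h1, h2⟩ ⟨h3, h4⟩
    refine ⟨fun e he => ?_, ?_⟩
    · simp [h1 e he, h3 e he]
    · simp [Finset.sum_add_distrib, h2, h4]
  smul_mem' := by
    rintro c f ⟨h1, h2⟩
    refine ⟨fun e he => ?_, ?_⟩
    · simp [h1 e he]
    · simp only [Pi.smul_apply, smul_eq_mul, ← Finset.mul_sum, h2, mul_zero]

variable {y nx}

theorem RR_supp (v : X × Bool) (s : Pos → ZMod 2) (e : Pos) (h : (y e).1 ≠ v.1) :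
    RR y nx v s e = 0 := by
  have h1 : y e ≠ v := fun h' => h (by rw [h'])
  have h2 : y e ≠ vi v := fun h' => h (by rw [h']; rfl)
  rw [RR_apply, if_neg h1, if_neg h2]

theorem RR_single (v : X × Bool) (h : Pos → ZMod 2) (e : Pos) :
    ∑ e', h e' * RR y nx v (Pi.single e 1) e' =
      (if y e = v then h e else 0) + (if y (nx e) = vi v then h (nx e) else 0) := by
  have h1 : ∀ e', h e' * RR y nx v (Pi.single e 1) e' =
      (if e' = e then (if y e = v then h e else 0) else 0) +
        (if e' = nx e then (if y (nx e) = vi v then h (nx e) else 0) else 0) := by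
    intro e'
    rw [RR_apply]
    have e3 : (nx.symm e' = e) ↔ e' = nx e := by
      rw [Equiv.symm_apply_eq]
    by_cases h1 : y e' = v
    · rw [if_pos h1]
      by_cases h2 : e' = e
      · subst h2
        by_cases h3 : e' = nx e'
        · rw [← h3]
          simp [h1, (vi_ne v).symm]
        · simp [h1, h3]
      · by_cases h3 : e' = nx e
        · subst h3
          have h4 : ¬ (v = vi v) := fun h => vi_ne v h.symm
          simp [h1, h2, h4]
        · simp [h2, h3]
    · rw [if_neg h1]
      by_cases h4 : y e' = vi v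
      · rw [if_pos h4]
        by_cases h3 : e' = nx e
        · subst h3
          by_cases h2 : nx e = e
          · have h5 : y e ≠ v := by
              rw [h2] at h1
              exact h1
            simp [h4, h5]
          · simp [h4, h2]
        · have h5 : ¬ (nx.symm e' = e) := fun h => h3 (e3.1 h)
          by_cases h2 : e' = e
          · subst h2
            simp [h1, h3, Pi.single_apply, h5]
          · simp [h2, h3, Pi.single_apply, h5]
      · rw [if_neg h4, mul_zero]
        by_cases h2 : e' = e
        · subst h2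
          by_cases h3 : e' = nx e'
          · rw [← h3]
            simp [h1, h4]
          · simp [h1, h3]
        · by_cases h3 : e' = nx e
          · subst h3
            simp [h4, h2]
          · simp [h2, h3]
  rw [Finset.sum_congr rfl fun e' _ => h1 e', Finset.sum_add_distrib, Finset.sum_ite_eq',
    Finset.sum_ite_eq', if_pos (Finset.mem_univ _), if_pos (Finset.mem_univ _)]

theorem dd_single (v : X × Bool) (e : Pos) : dd y nx v (Pi.single e 1) =
    (if y e = v then 1 else 0) + (if y (nx e) = vi v then 1 else 0) := by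
  rw [dd_apply]
  have h := RR_single (y := y) (nx := nx) v (fun _ => 1) e
  simpa using h

theorem sum_dd_single (c : X × Bool → ZMod 2) (e : Pos) :
    ∑ v, c v * dd y nx v (Pi.single e 1) = c (y e) + c (vi (y (nx e))) := by
  have h1 : ∀ v, c v * dd y nx v (Pi.single e 1) =
      (if v = y e then c v else 0) + (if v = vi (y (nx e)) then c v else 0) := by
    intro v
    rw [dd_single, mul_add]
    have e1 : (y e = v) ↔ v = y e := eq_comm
    have e2 : (y (nx e) = vi v) ↔ v = vi (y (nx e)) := by
      constructor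
      · intro h
        rw [h, vi_vi]
      · intro h
        rw [h, vi_vi]
    simp only [e1, e2, mul_ite, mul_one, mul_zero]
  rw [Finset.sum_congr rfl fun v _ => h1 v, Finset.sum_add_distrib, Finset.sum_ite_eq',
    Finset.sum_ite_eq', if_pos (Finset.mem_univ _), if_pos (Finset.mem_univ _)]

theorem two_eq (u w : ZMod 2) (h : u + w = 0) : u = w := by
  revert u w
  decide

theorem const_of_eq (hR : Red y nx) (v : X × Bool) (h : Pos → ZMod 2) (c : X × Bool → ZMod 2)
    (hc : c v = 0)
    (hE : ∀ e, (if y e = v then h e else 0) + (if y (nx e) = vi v then h (nx e) else 0) =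
      c (y e) + c (vi (y (nx e)))) (e : Pos) (he : (y e).1 = v.1) : h e = c (vi v) := by
  have iff1 : ∀ w : X × Bool, (vi w = v) ↔ w = vi v := by
    intro w
    constructor
    · rintro rfl
      rw [vi_vi]
    · rintro rfl
      rw [vi_vi]
  set p : X × Bool → Bool := fun w => decide (w ≠ v ∧ c w ≠ c (vi v)) with hp
  have hpt : ∀ w, p w = true ↔ (w ≠ v ∧ c w ≠ c (vi v)) := by
    intro w
    simp [hp]
  have hpf : ∀ w, p w = false ↔ (w = v ∨ c w = c (vi v)) := by
    intro w
    rw [← Bool.not_eq_true, hpt]
    tauto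
  have hz : ∀ w, zz v p w = false → w ≠ v ∧ c w = c (vi v) := by
    intro w hw
    unfold zz at hw
    rw [Bool.or_eq_false_iff] at hw
    have h1 : w ≠ v := by
      intro h
      simp [h] at hw
    rcases (hpf w).1 hw.1 with h2 | h2
    · exact absurd h2 h1
    · exact ⟨h1, h2⟩
  have key : ∀ e, y e ≠ v → vi (y (nx e)) ≠ v → c (y e) = c (vi (y (nx e))) := by
    intro e h1 h2
    have h3 := hE e
    rw [if_neg h1, if_neg (fun h => h2 ((iff1 _).2 h)), add_zero] at h3
    exact two_eq _ _ h3.symm
  have hPt := hR v p ((hpf v).2 (Or.inl rfl)) ((hpf _).2 (Or.inr rfl)) (by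
    intro e
    constructor
    · rintro ⟨h1, h2⟩
      obtain ⟨h3, h4⟩ := (hpt _).1 h1
      obtain ⟨h5, h6⟩ := hz _ h2
      exact h4 ((key e h3 h5).trans h6)
    · rintro ⟨h1, h2⟩
      obtain ⟨h3, h4⟩ := (hpt _).1 h1
      obtain ⟨h5, h6⟩ := hz _ h2
      exact h4 ((key e h5 h3).symm.trans h6))
  rcases fst_eq_iff.1 he with h1 | h1
  · -- the edge leaves through `v`
    have h2 := hPt e
    unfold Pt at h2
    push Not at h2
    obtain ⟨h3, -⟩ := h2
    obtain ⟨h4, h5⟩ := h3 h1
    have h6 := hE e
    rw [if_pos h1, if_neg h5, add_zero, h1, hc, zero_add] at h6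
    rw [h6]
    have h7 : p (vi (y (nx e))) = false := by simpa using h4
    rcases (hpf _).1 h7 with h8 | h8
    · exact absurd ((iff1 _).1 h8) h5
    · exact h8
  · obtain ⟨e, rfl⟩ := nx.surjective e
    have h2 := hPt e
    unfold Pt at h2
    push Not at h2
    obtain ⟨h3, h4⟩ := h2
    have h5 : y e ≠ v := fun h => (h3 h).2 h1
    have h6 := h4 ((iff1 _).2 h1)
    have h7 : p (y e) = false := by simpa using h6
    have h8 := hE e
    rw [if_neg h5, if_pos h1, zero_add, h1, vi_vi, hc, add_zero] at h8
    rw [h8]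
    rcases (hpf _).1 h7 with h9 | h9
    · exact absurd h9 h5
    · exact h9

theorem map_RR_le (v : X × Bool) : (ZZ y nx).map (RR y nx v) ≤ EE y v.1 := by
  rintro _ ⟨s, hs, rfl⟩
  exact ⟨fun e he => RR_supp v s e he, (mem_ZZ y nx).1 hs v⟩

theorem map_RR (hR : Red y nx) (v : X × Bool) : (ZZ y nx).map (RR y nx v) = EE y v.1 := by
  apply le_antisymm (map_RR_le v)
  intro f hf
  by_contra hn
  obtain ⟨l, hl1, hl2⟩ := Submodule.exists_le_ker_of_notMem hn
  obtain ⟨c, hc⟩ := functional_of_vanish (fun v => dd y nx v) (l.comp (RR y nx v)) (by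
    intro s hs
    exact hl2 ⟨s, (mem_ZZ y nx).2 hs, rfl⟩)
  set h : Pos → ZMod 2 := fun e => l (Pi.single e 1) with hh
  have hl : ∀ f, l f = ∑ e, h e * f e := by
    intro f
    conv_lhs => rw [show f = ∑ e, f e • (Pi.single e (1 : ZMod 2) : Pos → ZMod 2) by
      funext e
      simp [Finset.sum_apply, Pi.single_apply]]
    rw [map_sum]
    apply Finset.sum_congr rfl
    intro e _
    rw [map_smul, smul_eq_mul, mul_comm]
  have hE : ∀ e, (if y e = v then h e else 0) + (if y (nx e) = vi v then h (nx e) else 0) =
      c (y e) + c (vi (y (nx e))) := by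
    intro e
    rw [← RR_single, ← sum_dd_single, ← hc, LinearMap.comp_apply, hl]
  have hcst : ∀ e, (y e).1 = v.1 → h e = c v + c (vi v) := by
    intro e he
    have h1 := const_of_eq hR v (fun e => h e + c v) (fun w => c w + (if w = v then c v else 0))
      (by
        simp only [if_true]
        revert c
        intro c _ _
        generalize c v = u
        revert u
        decide) (by
        intro e
        have h2 := hE e
        have e1 : (vi (y (nx e)) = v) ↔ y (nx e) = vi v := by
          constructor
          · rintro rfl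
            rw [vi_vi]
          · intro h
            rw [h, vi_vi]
        have h3 : (if y e = v then h e + c v else 0) =
          (if y e = v then h e else 0) + (if y e = v then c v else 0) := by
          split_ifs <;> simp
        have h4 : (if y (nx e) = vi v then h (nx e) + c v else 0) =
          (if y (nx e) = vi v then h (nx e) else 0) + (if y (nx e) = vi v then c v else 0) := by
          split_ifs <;> simp
        simp only [e1]
        rw [h3, h4]
        linear_combination h2) e he
    have h5 : ¬ (vi v = v) := vi_ne v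
    rw [if_neg h5, add_zero] at h1
    rw [← h1]
    generalize h e = u
    generalize c v = w
    revert u w
    decide
  apply hl1
  rw [hl]
  have h6 : ∀ e, h e * f e = (c v + c (vi v)) * f e := by
    intro e
    by_cases he : (y e).1 = v.1
    · rw [hcst e he]
    · rw [hf.1 e he, mul_zero, mul_zero]
  rw [Finset.sum_congr rfl fun e _ => h6 e, ← Finset.mul_sum, hf.2, mul_zero]

section rho

variable (hR : Red y nx)

include hR in
theorem exists_phi (x : X) : ∃ φ : ZZ y nx ≃ₗ[ZMod 2] ZZ y nx,
    ∀ s, RR y nx (x, false) (φ s) = RR y nx (x, true) s := by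
  have h := exists_aut ((RR y nx (x, true)).comp (ZZ y nx).subtype)
    ((RR y nx (x, false)).comp (ZZ y nx).subtype) (by
      rw [LinearMap.range_comp, LinearMap.range_comp, Submodule.range_subtype, map_RR hR,
        map_RR hR])
  exact h

/-- the automorphism belonging to the letter `x` -/
noncomputable def phi (x : X) : ZZ y nx ≃ₗ[ZMod 2] ZZ y nx := (exists_phi hR x).choose

theorem phi_spec (x : X) (s : ZZ y nx) :
    RR y nx (x, false) (phi hR x s) = RR y nx (x, true) s := (exists_phi hR x).choose_spec s

/-- the representation -/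
noncomputable def rho : FreeGroup X →* (ZZ y nx ≃ₗ[ZMod 2] ZZ y nx) := FreeGroup.lift (phi hR)

theorem rho_of (x : X) : rho hR (FreeGroup.of x) = phi hR x := by
  simp [rho]

theorem vi_false (x : X) : vi (x, false) = (x, true) := rfl

theorem vi_true (x : X) : vi (x, true) = (x, false) := rfl

theorem gn_false (x : X) : gn (x, false) = (FreeGroup.of x)⁻¹ := by
  rw [← gn_true, ← gn_vi]
  rfl

theorem rho_coord (e : Pos) (s : ZZ y nx) :
    (rho hR (gn (y e)) s : Pos → ZMod 2) (nx.symm e) = (s : Pos → ZMod 2) e := by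
  rcases hy : y e with ⟨x, b⟩
  cases b
  · rw [gn_false, map_inv, rho_of]
    obtain ⟨t, rfl⟩ := (phi hR x).surjective s
    have h1 : (phi hR x)⁻¹ (phi hR x t) = t := (phi hR x).symm_apply_apply t
    rw [h1]
    have h2 := congrFun (phi_spec hR x t) e
    rw [RR_apply, RR_apply, if_pos hy, if_neg (by rw [hy]; simp), vi_true, if_pos hy] at h2
    exact h2.symm
  · rw [gn_true, rho_of]
    have h2 := congrFun (phi_spec hR x s) e
    rw [RR_apply, RR_apply, if_neg (by rw [hy]; simp), if_pos hy, vi_false, if_pos hy] at h2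
    exact h2

theorem al_coord {al : FreeGroup X → ZZ y nx} (hal : al ∈ Crs (rho hR) (ZZ y nx)) (e : Pos) :
    (al (gn (y e)) : Pos → ZMod 2) (nx.symm e) =
      RR y nx ((y e).1, false) (al (FreeGroup.of (y e).1)) e := by
  rcases hy : y e with ⟨x, b⟩
  cases b
  · rw [RR_apply, if_pos hy, gn_false, Crs.map_inv hal]
    have h1 := rho_coord hR e (al (FreeGroup.of x))
    rw [hy, gn_false, map_inv] at h1
    rw [← h1]
    change -((((rho hR (FreeGroup.of x))⁻¹ (al (FreeGroup.of x)) : ZZ y nx)) :
      Pos → ZMod 2) (nx.symm e) = _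
    generalize ((((rho hR (FreeGroup.of x))⁻¹ (al (FreeGroup.of x)) : ZZ y nx)) :
      Pos → ZMod 2) (nx.symm e) = u
    revert u
    decide
  · rw [RR_apply, if_neg (by rw [hy]; simp), vi_false, if_pos hy, gn_true]

theorem sum_al {al : FreeGroup X → ZZ y nx} (hal : al ∈ Crs (rho hR) (ZZ y nx)) :
    ∑ e, (al (gn (y e)) : Pos → ZMod 2) (nx.symm e) = 0 := by
  have h1 : ∀ e, (al (gn (y e)) : Pos → ZMod 2) (nx.symm e) =
      ∑ x, RR y nx (x, false) (al (FreeGroup.of x)) e := by
    intro e
    rw [al_coord hR hal, Finset.sum_eq_single (y e).1]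
    · intro x _ hx
      exact RR_supp _ _ _ hx.symm
    · intro h
      exact absurd (Finset.mem_univ _) h
  rw [Finset.sum_congr rfl fun e _ => h1 e, Finset.sum_comm]
  apply Finset.sum_eq_zero
  intro x _
  exact (mem_ZZ y nx).1 (al (FreeGroup.of x)).2 (x, false)

theorem coord_word (q : ℕ → Pos) (hq : ∀ k, nx (q k) = q (k + 1)) (W : ℕ → FreeGroup X)
    (h0 : W 0 = 1) (n : ℕ) (hs : ∀ k < n, W (k + 1) = W k * gn (y (q k))) :
    ∀ k ≤ n, ∀ s : ZZ y nx, (rho hR (W k) s : Pos → ZMod 2) (nx.symm (q 0)) =
      (s : Pos → ZMod 2) (nx.symm (q k)) := by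
  intro k
  induction k with
  | zero =>
    intro _ s
    rw [h0, map_one]
    rfl
  | succ k ih =>
    intro hk s
    rw [hs k (by omega), map_mul]
    have h1 := ih (by omega) (rho hR (gn (y (q k))) s)
    rw [rho_coord] at h1
    rw [← hq k, Equiv.symm_apply_apply]
    exact h1

theorem al_word {al : FreeGroup X → ZZ y nx} (hal : al ∈ Crs (rho hR) (ZZ y nx)) (q : ℕ → Pos)
    (hq : ∀ k, nx (q k) = q (k + 1)) (W : ℕ → FreeGroup X)
    (h0 : W 0 = 1) (n : ℕ) (hs : ∀ k < n, W (k + 1) = W k * gn (y (q k))) :
    ∀ k ≤ n, (al (W k) : Pos → ZMod 2) (nx.symm (q 0)) =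
      ∑ j ∈ Finset.range k, (al (gn (y (q j))) : Pos → ZMod 2) (nx.symm (q j)) := by
  intro k
  induction k with
  | zero =>
    intro _
    rw [h0, Crs.map_one hal]
    simp
  | succ k ih =>
    intro hk
    rw [hs k (by omega), hal, Finset.sum_range_succ, ← ih (by omega)]
    have h1 := coord_word hR q hq W h0 n hs k (by omega) (al (gn (y (q k))))
    rw [← h1]
    rfl

end rho

/-- if all even sets of edges are constant then every letter occurs at most twice -/
theorem occ_le_two (hR : Red y nx) (hc : ∀ s ∈ ZZ y nx, ∀ e e', s e = s e') (x : X) :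
    (Finset.univ.filter fun e => (y e).1 = x).card ≤ 2 := by
  by_contra hn
  obtain ⟨e1, h1, e2, h2, e3, h3, n12, n13, n23⟩ := Finset.two_lt_card.1 (not_le.1 hn)
  simp only [Finset.mem_filter, Finset.mem_univ, true_and] at h1 h2 h3
  have hf : (Pi.single e1 1 + Pi.single e2 1 : Pos → ZMod 2) ∈ EE y x := by
    constructor
    · intro e he
      have a1 : e ≠ e1 := fun h => he (by rw [h, h1])
      have a2 : e ≠ e2 := fun h => he (by rw [h, h2])
      simp [a1, a2]
    · simp only [Pi.add_apply, Finset.sum_add_distrib, Finset.sum_pi_single', Finset.mem_univ,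
        if_true]
      rfl
  have hm := map_RR hR (x, true)
  simp only at hm
  rw [← hm] at hf
  obtain ⟨s, hs, hsf⟩ := hf
  have key : ∀ e, (y e).1 = x → RR y nx (x, true) s e = s e := by
    intro e he
    rw [RR_apply]
    have he' : (y e).1 = ((x, true) : X × Bool).1 := he
    rcases fst_eq_iff.1 he' with h | h
    · rw [if_pos h]
    · rw [if_neg (by rw [h]; exact vi_ne _), if_pos h]
      exact hc s hs _ _
  have k1 := key e1 h1
  have k3 := key e3 h3
  rw [hsf] at k1 k3
  rw [hc s hs e1 e3, ← k3] at k1
  simp [n12, n13.symm, n23.symm] at k1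

end Pool.Agent.SuE
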