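import Pool.Agent.Lib.MP_305fdd_al.Su.E.One

/-!
# MP_305fdd_al, surface groups, END block: the modules `Q → M`

`Mo φ q` : the monomial operators; `UU u` : the diagonal operators; `exists_untwist`.
-/

set_option autoImplicit false
set_option linter.unusedSectionVars false

namespace Pool.Agent.SuE

open Pool.Agent.SuD

variable {Q M : Type} [Group Q] [AddCommGroup M] [Module (ZMod 2) M]

/-- `(Mo φ q₀ f) q = φ (f (q₀⁻¹ q))` -/
def Mo (φ : M ≃ₗ[ZMod 2] M) (q₀ : Q) : (Q → M) ≃ₗ[ZMod 2] (Q → M) where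
  toFun f q := φ (f (q₀⁻¹ * q))
  invFun f q := φ.symm (f (q₀ * q))
  map_add' f f' := by
    funext q
    simp
  map_smul' c f := by
    funext q
    simp
  left_inv f := by
    funext q
    simp
  right_inv f := by
    funext q
    simp

theorem Mo_apply (φ : M ≃ₗ[ZMod 2] M) (q₀ : Q) (f : Q → M) (q : Q) :
    Mo φ q₀ f q = φ (f (q₀⁻¹ * q)) := rfl

/-- as a homomorphism -/
def MoH : (M ≃ₗ[ZMod 2] M) × Q →* ((Q → M) ≃ₗ[ZMod 2] (Q → M)) where
  toFun p := Mo p.1 p.2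
  map_one' := by
    apply LinearEquiv.ext
    intro f
    funext q
    change f (1⁻¹ * q) = f q
    rw [inv_one, one_mul]
  map_mul' p p' := by
    apply LinearEquiv.ext
    intro f
    funext q
    change p.1 (p'.1 (f ((p.2 * p'.2)⁻¹ * q))) = p.1 (p'.1 (f (p'.2⁻¹ * (p.2⁻¹ * q))))
    rw [mul_inv_rev, mul_assoc]

theorem MoH_apply (p : (M ≃ₗ[ZMod 2] M) × Q) : MoH p = Mo p.1 p.2 := rfl

/-- `(UU u f) q = u q (f q)` -/
def UU (u : Q → (M ≃ₗ[ZMod 2] M)) : (Q → M) ≃ₗ[ZMod 2] (Q → M) := LinearEquiv.piCongrRight u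

theorem UU_apply (u : Q → (M ≃ₗ[ZMod 2] M)) (f : Q → M) (q : Q) : UU u f q = u q (f q) := rfl

theorem UU_Mo (u : Q → (M ≃ₗ[ZMod 2] M)) (R : M ≃ₗ[ZMod 2] M) (s : Q)
    (h : ∀ q, u (s * q) = R * u q) : UU u * Mo 1 s = Mo R s * UU u := by
  apply LinearEquiv.ext
  intro f
  funext q
  change u q (f (s⁻¹ * q)) = R (u (s⁻¹ * q) (f (s⁻¹ * q)))
  have h1 := h (s⁻¹ * q)
  rw [mul_inv_cancel_left] at h1
  rw [h1]
  rfl

theorem UU_conj (u : Q → (M ≃ₗ[ZMod 2] M)) (R : M ≃ₗ[ZMod 2] M) (s : Q)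
    (h : ∀ q, u (s * q) = R * u q) : UU u * Mo 1 s * (UU u)⁻¹ = Mo R s := by
  rw [UU_Mo u R s h, mul_inv_cancel_right]

/-- untwisting -/
theorem exists_untwist {G : Type} [Group G] (R : G) (s : Q) (h : orderOf R ∣ orderOf s) :
    ∃ u : Q → G, (∀ q, u (s * q) = R * u q) ∧ ∀ q, u q ∈ Subgroup.zpowers R := by
  classical
  let c : Q → Q := fun q => (Quotient.mk (QuotientGroup.rightRel (Subgroup.zpowers s)) q).out
  have hc1 : ∀ q, ∃ k : ℤ, s ^ k * c q = q := by
    intro q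
    have h1 : (QuotientGroup.rightRel (Subgroup.zpowers s)) (c q) q := Quotient.exact
      (Quotient.out_eq _)
    rw [QuotientGroup.rightRel_apply] at h1
    obtain ⟨k, hk⟩ := Subgroup.mem_zpowers_iff.1 h1
    exact ⟨k, by rw [hk, inv_mul_cancel_right]⟩
  have hc2 : ∀ q, c (s * q) = c q := by
    intro q
    have h1 : Quotient.mk (QuotientGroup.rightRel (Subgroup.zpowers s)) (s * q) =
        Quotient.mk (QuotientGroup.rightRel (Subgroup.zpowers s)) q := by
      apply Quotient.sound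
      change (QuotientGroup.rightRel (Subgroup.zpowers s)) (s * q) q
      rw [QuotientGroup.rightRel_apply]
      have h2 : q * (s * q)⁻¹ = s⁻¹ := by group
      rw [h2]
      exact Subgroup.inv_mem _ (Subgroup.mem_zpowers s)
    change (Quotient.mk _ _).out = (Quotient.mk _ _).out
    rw [h1]
  choose k hk using hc1
  refine ⟨fun q => R ^ k q, fun q => ?_, fun q => ⟨k q, rfl⟩⟩
  have h1 : s ^ k (s * q) = s ^ (k q + 1) := by
    have h2 := hk (s * q)
    have h3 := hk q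
    rw [hc2] at h2
    have h4 : s ^ k (s * q) * c q = s ^ (k q + 1) * c q := by
      rw [h2, add_comm, zpow_add, zpow_one, mul_assoc, h3]
    exact mul_right_cancel h4
  rw [zpow_eq_zpow_iff_modEq] at h1
  have h5 : k (s * q) ≡ k q + 1 [ZMOD (orderOf R : ℕ)] :=
    h1.of_dvd (Int.natCast_dvd_natCast.2 h)
  have h6 : R ^ k (s * q) = R ^ (k q + 1) := zpow_eq_zpow_iff_modEq.2 h5
  change R ^ k (s * q) = R * R ^ k q
  rw [h6, add_comm, zpow_add, zpow_one]

section aug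

variable [Fintype Q]

/-- the augmentation -/
def ep : (Q → M) →ₗ[ZMod 2] M where
  toFun f := ∑ q, f q
  map_add' f f' := by simp [Finset.sum_add_distrib]
  map_smul' c f := by simp [Finset.smul_sum]

theorem ep_apply (f : Q → M) : ep f = ∑ q, f q := rfl

theorem ep_Mo (φ : M ≃ₗ[ZMod 2] M) (q₀ : Q) (f : Q → M) : ep (Mo φ q₀ f) = φ (ep f) := by
  rw [ep_apply, ep_apply, map_sum]
  exact Equiv.sum_comp (Equiv.mulLeft q₀⁻¹) fun q => φ (f q)

theorem ep_single [DecidableEq Q] (m : M) : ep (Pi.single (1 : Q) m) = m := by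
  rw [ep_apply]
  simp

theorem kap_UU (κ : M →ₗ[ZMod 2] ZMod 2) (u : Q → (M ≃ₗ[ZMod 2] M)) (h : ∀ q m, κ (u q m) = κ m)
    (f : Q → M) : κ (ep (UU u f)) = κ (ep f) := by
  rw [ep_apply, ep_apply, map_sum, map_sum]
  apply Finset.sum_congr rfl
  intro q _
  rw [UU_apply, h]

theorem kap_UU_inv (κ : M →ₗ[ZMod 2] ZMod 2) (u : Q → (M ≃ₗ[ZMod 2] M))
    (h : ∀ q m, κ (u q m) = κ m) (f : Q → M) : κ (ep ((UU u)⁻¹ f)) = κ (ep f) := by
  have h1 := kap_UU κ u h ((UU u)⁻¹ f)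
  rw [← h1]
  congr 2
  exact (UU u).apply_symm_apply f

/-- a functional fixed by `R` is fixed by the powers of `R` -/
theorem kap_zpow (κ : M →ₗ[ZMod 2] ZMod 2) (R : M ≃ₗ[ZMod 2] M) (h : ∀ m, κ (R m) = κ m)
    {R' : M ≃ₗ[ZMod 2] M} (hR : R' ∈ Subgroup.zpowers R) (m : M) : κ (R' m) = κ m := by
  let S : Subgroup (M ≃ₗ[ZMod 2] M) :=
    { carrier := {R' | ∀ m, κ (R' m) = κ m}
      mul_mem' := by
        intro a b ha hb m
        exact (ha (b m)).trans (hb m)
      one_mem' := fun m => rfl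
      inv_mem' := by
        intro a ha m
        have h1 := ha (a⁻¹ m)
        rw [← h1]
        congr 1
        exact a.apply_symm_apply m }
  have h1 : Subgroup.zpowers R ≤ S := Subgroup.zpowers_le_of_mem h
  exact h1 hR m

end aug

end Pool.Agent.SuE
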