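import Mathlib.GroupTheory.FreeGroup.Reduce
import Mathlib.Tactic.Linarith
import Mathlib.Tactic.Group

/-!
# MP_305fdd_al, surface groups, END block: Whitehead moves

Paper: /team-store/MP_305fdd_surfend_h79.md, section 3.  Letters are pairs `(x, true)` (`x`) and
`(x, false)` (`x⁻¹`).  For a letter `a` and a set `p` of letters (`a, a⁻¹ ∉ p`) the Whitehead
automorphism multiplies by `a`; the rewritten cyclic word is `nw`.
-/

set_option autoImplicit false
set_option linter.unusedSectionVars false

namespace Pool.Agent.SuE

variable {X : Type}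

/-- the inverse letter -/
def vi (v : X × Bool) : X × Bool := (v.1, !v.2)

@[simp] theorem vi_vi (v : X × Bool) : vi (vi v) = v := by
  simp [vi]

@[simp] theorem vi_fst (v : X × Bool) : (vi v).1 = v.1 := rfl

theorem vi_ne (v : X × Bool) : vi v ≠ v := by
  intro h
  have := congrArg Prod.snd h
  simp [vi] at this

theorem fst_eq_iff {v a : X × Bool} : v.1 = a.1 ↔ v = a ∨ v = vi a := by
  rcases v with ⟨x, b⟩
  rcases a with ⟨y, c⟩
  cases b <;> cases c <;> simp [vi]

/-- the group element of a letter -/
def gn (v : X × Bool) : FreeGroup X := FreeGroup.mk [v]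

theorem gn_true (x : X) : gn (x, true) = FreeGroup.of x := rfl

theorem gn_vi (v : X × Bool) : gn (vi v) = (gn v)⁻¹ := by
  rw [gn, gn, FreeGroup.inv_mk]
  rfl

theorem mk_cons (v : X × Bool) (l : List (X × Bool)) :
    FreeGroup.mk (v :: l) = gn v * FreeGroup.mk l := by
  rw [gn, FreeGroup.mul_mk]
  rfl

theorem mk_append (l l' : List (X × Bool)) :
    FreeGroup.mk (l ++ l') = FreeGroup.mk l * FreeGroup.mk l' := by
  rw [FreeGroup.mul_mk]

/-- the consecutive pairs of letters of `l`, followed by `c` -/
def tp (c : X × Bool) : List (X × Bool) → List ((X × Bool) × (X × Bool))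
  | [] => []
  | v :: l => (v, l.headD c) :: tp c l

/-- the cyclically consecutive pairs of letters -/
def cy : List (X × Bool) → List ((X × Bool) × (X × Bool))
  | [] => []
  | v :: l => tp v (v :: l)

variable [DecidableEq X] (a : X × Bool) (p : X × Bool → Bool)

/-- membership in `p ∪ {a}` -/
def zz (v : X × Bool) : Bool := p v || decide (v = a)

/-- `a` if the letter is in `p ∪ {a}` -/
def ee (v : X × Bool) : FreeGroup X := if zz a p v then gn a else 1

/-- the letter if it is not `a` or `a⁻¹` -/
def ht (v : X × Bool) : FreeGroup X := if v.1 = a.1 then 1 else gn v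

/-- the homomorphism -/
def tau0 : FreeGroup X →* FreeGroup X := FreeGroup.lift fun x =>
  if x = a.1 then FreeGroup.of x else
    (ee a p (x, false))⁻¹ * FreeGroup.of x * ee a p (x, true)

/-- its inverse -/
def tau1 : FreeGroup X →* FreeGroup X := FreeGroup.lift fun x =>
  if x = a.1 then FreeGroup.of x else
    ee a p (x, false) * FreeGroup.of x * (ee a p (x, true))⁻¹

theorem gn_fst (a : X × Bool) : gn a = FreeGroup.of a.1 ∨ gn a = (FreeGroup.of a.1)⁻¹ := by
  rcases a with ⟨x, b⟩
  cases b
  · right
    rw [← gn_true, ← gn_vi]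
    rfl
  · left
    rfl

theorem tau0_a : tau0 a p (gn a) = gn a := by
  rcases gn_fst a with h | h <;> rw [h] <;> simp [tau0]

theorem tau1_a : tau1 a p (gn a) = gn a := by
  rcases gn_fst a with h | h <;> rw [h] <;> simp [tau1]

theorem tau0_ee (v : X × Bool) : tau0 a p (ee a p v) = ee a p v := by
  unfold ee
  split_ifs
  · exact tau0_a a p
  · exact map_one _

theorem tau1_ee (v : X × Bool) : tau1 a p (ee a p v) = ee a p v := by
  unfold ee
  split_ifs
  · exact tau1_a a p
  · exact map_one _

/-- the Whitehead automorphism -/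
def tau : FreeGroup X ≃* FreeGroup X :=
  MonoidHom.toMulEquiv (tau0 a p) (tau1 a p)
    (by
      apply FreeGroup.ext_hom
      intro x
      rw [MonoidHom.comp_apply, MonoidHom.id_apply]
      by_cases h : x = a.1
      · simp [tau0, tau1, h]
      · have h1 : tau0 a p (FreeGroup.of x) = (ee a p (x, false))⁻¹ * FreeGroup.of x *
            ee a p (x, true) := by simp [tau0, h]
        have h2 : tau1 a p (FreeGroup.of x) = ee a p (x, false) * FreeGroup.of x *
            (ee a p (x, true))⁻¹ := by simp [tau1, h]
        rw [h1, map_mul, map_mul, map_inv, tau1_ee, tau1_ee, h2]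
        group)
    (by
      apply FreeGroup.ext_hom
      intro x
      rw [MonoidHom.comp_apply, MonoidHom.id_apply]
      by_cases h : x = a.1
      · simp [tau0, tau1, h]
      · have h1 : tau0 a p (FreeGroup.of x) = (ee a p (x, false))⁻¹ * FreeGroup.of x *
            ee a p (x, true) := by simp [tau0, h]
        have h2 : tau1 a p (FreeGroup.of x) = ee a p (x, false) * FreeGroup.of x *
            (ee a p (x, true))⁻¹ := by simp [tau1, h]
        rw [h2, map_mul, map_mul, map_inv, tau0_ee, tau0_ee, h1]
        group)

theorem tau_apply (g : FreeGroup X) : tau a p g = tau0 a p g := rfl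

variable {a p}

theorem zz_vi (ha' : p (vi a) = false) : zz a p (vi a) = false := by
  simp [zz, ha', vi_ne]

theorem zz_a : zz a p a = true := by
  simp [zz]

theorem tau_gn (ha' : p (vi a) = false) (v : X × Bool) :
    tau a p (gn v) = (ee a p (vi v))⁻¹ * ht a v * ee a p v := by
  rw [tau_apply]
  by_cases h : v.1 = a.1
  · rcases fst_eq_iff.1 h with rfl | rfl
    · rw [tau0_a]
      simp [ee, ht, zz_vi ha', zz_a]
    · rw [gn_vi, map_inv, tau0_a]
      simp [ee, ht, zz_vi ha', zz_a]
  · rcases v with ⟨x, b⟩
    simp only at h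
    have h1 : tau0 a p (FreeGroup.of x) = (ee a p (x, false))⁻¹ * FreeGroup.of x *
        ee a p (x, true) := by simp [tau0, h]
    cases b
    · have h2 : gn (x, false) = (FreeGroup.of x)⁻¹ := by
        rw [← gn_true, ← gn_vi]
        rfl
      rw [h2, map_inv, h1]
      simp only [ht, h, if_false, vi, Bool.not_false, h2, mul_inv_rev, inv_inv, mul_assoc]
    · rw [gn_true, h1]
      simp only [ht, h, if_false, vi, Bool.not_true, gn_true]

variable (a p)

/-- the part of the new word which belongs to the pair `(v, v')` -/
def seg (v v' : X × Bool) : List (X × Bool) :=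
  (if v.1 = a.1 then [] else [v]) ++
    (if zz a p v = true ∧ zz a p (vi v') = false then [a] else
      if zz a p v = false ∧ zz a p (vi v') = true then [vi a] else [])

/-- the new word -/
def nw (c : X × Bool) : List (X × Bool) → List (X × Bool)
  | [] => []
  | v :: l => seg a p v (l.headD c) ++ nw c l

variable {a p}

theorem mk_seg (v v' : X × Bool) :
    FreeGroup.mk (seg a p v v') = ht a v * ee a p v * (ee a p (vi v'))⁻¹ := by
  unfold seg
  rw [mk_append, mul_assoc]
  congr 1
  · unfold ht
    split_ifs
    · rfl
    · rfl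
  · unfold ee
    cases h1 : zz a p v <;> cases h2 : zz a p (vi v')
    · simp [FreeGroup.one_eq_mk]
    · simp only [if_true, if_false, Bool.false_eq_true, false_and, true_and, and_self,
        one_mul]
      exact gn_vi a
    · simp [gn]
    · simp [FreeGroup.one_eq_mk]

theorem mk_nw (ha' : p (vi a) = false) (c : X × Bool) : ∀ l : List (X × Bool),
    FreeGroup.mk (nw a p c l) =
      ee a p (vi (l.headD c)) * tau a p (FreeGroup.mk l) * (ee a p (vi c))⁻¹
  | [] => by
    simp only [nw, List.headD_nil, ← FreeGroup.one_eq_mk, map_one, mul_one, mul_inv_cancel]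
  | v :: l => by
    rw [nw, mk_append, mk_seg, mk_nw ha' c l, mk_cons, map_mul, tau_gn ha', List.headD_cons]
    group

/-- the pairs which make the word shorter -/
def Pt (a : X × Bool) (p : X × Bool → Bool) (v v' : X × Bool) : Prop :=
  (v = a ∧ (p (vi v') = true ∨ v' = vi a)) ∨ (vi v' = a ∧ p v = true)

instance (v v' : X × Bool) : Decidable (Pt a p v v') := by unfold Pt; infer_instance

/-- no edge between `p` and the complement of `p ∪ {a}` -/
def NoE (a : X × Bool) (p : X × Bool → Bool) (v v' : X × Bool) : Prop :=
  ¬ (p v = true ∧ zz a p (vi v') = false) ∧ ¬ (p (vi v') = true ∧ zz a p v = false)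

theorem len_seg (ha : p a = false) (ha' : p (vi a) = false) (v v' : X × Bool)
    (hn : NoE a p v v') :
    (seg a p v v').length + (if v = vi a then 1 else 0) + (if Pt a p v v' then 1 else 0) ≤
      1 + (if v' = vi a then 1 else 0) := by
  obtain ⟨n1, n2⟩ := hn
  have e1 : (vi v' = a) ↔ v' = vi a := by
    constructor
    · rintro rfl
      simp
    · rintro rfl
      simp
  by_cases h : v.1 = a.1
  · rcases fst_eq_iff.1 h with rfl | rfl
    · have h1 : zz v p v = true := zz_a
      by_cases h2 : v' = vi v
      · subst h2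
        simp [seg, Pt, h1, vi_ne, ha, (vi_ne v).symm]
      · have h3 : ¬ (vi v' = v) := fun h => h2 (e1.1 h)
        cases h4 : p (vi v')
        · simp [seg, Pt, h1, zz, h4, h3, h2, ha, (vi_ne v).symm]
        · simp [seg, Pt, h1, zz, h4, h3, h2, ha, (vi_ne v).symm]
    · have h1 : zz a p (vi a) = false := zz_vi ha'
      by_cases h2 : v' = vi a
      · subst h2
        simp [seg, Pt, h1, vi_ne, ha', ha, zz]
      · have h3 : ¬ (vi v' = a) := fun h => h2 (e1.1 h)
        have h4 : p (vi v') = false := by
          by_contra h5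
          exact n2 ⟨by simpa using h5, h1⟩
        simp [seg, Pt, zz, h4, h3, h2, ha', vi_ne]
  · have hv : v ≠ a := fun h' => h (by rw [h'])
    have hv' : v ≠ vi a := fun h' => h (by rw [h']; rfl)
    by_cases h2 : v' = vi a
    · subst h2
      cases h5 : p v
      · simp [seg, Pt, zz, h, h5, hv, hv', ha]
      · simp [seg, Pt, zz, h, h5, hv, hv', ha]
    · have h3 : ¬ (vi v' = a) := fun h => h2 (e1.1 h)
      cases h5 : p v
      · have h4 : p (vi v') = false := by
          by_contra h6
          exact n2 ⟨by simpa using h6, by simp [zz, h5, hv]⟩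
        simp [seg, Pt, zz, h, h5, hv, hv', h4, h3, h2]
      · have h4 : zz a p (vi v') = true := by
          by_contra h6
          exact n1 ⟨h5, by simpa using h6⟩
        have h6 : zz a p v = true := by simp [zz, h5]
        simp [seg, Pt, h, hv, hv', h3, h2, h4, h6]

theorem len_nw (ha : p a = false) (ha' : p (vi a) = false) (c : X × Bool) :
    ∀ l : List (X × Bool), (∀ q ∈ tp c l, NoE a p q.1 q.2) →
      (nw a p c l).length + (if l.headD c = vi a then 1 else 0) +
        (tp c l).countP (fun q => Pt a p q.1 q.2) ≤ l.length + (if c = vi a then 1 else 0)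
  | [], _ => by simp [nw, tp]
  | v :: l, hn => by
    have h1 := len_seg ha ha' v (l.headD c) (hn (v, l.headD c) (by simp [tp]))
    have h2 := len_nw ha ha' c l (fun q hq => hn q (by simp [tp, hq]))
    have h3 : (if (v :: l).headD c = vi a then 1 else 0) = (if v = vi a then 1 else 0) := rfl
    rw [h3]
    simp only [nw, tp, List.length_append, List.countP_cons, List.length_cons,
      decide_eq_true_eq] at h1 h2 ⊢
    omega

variable (a p) in
/-- the new cyclic word -/
def nc : List (X × Bool) → List (X × Bool)
  | [] => []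
  | v :: l => nw a p v (v :: l)

theorem mk_nc (ha' : p (vi a) = false) (l : List (X × Bool)) :
    ∃ c : FreeGroup X, FreeGroup.mk (nc a p l) = c * tau a p (FreeGroup.mk l) * c⁻¹ := by
  cases l with
  | nil => exact ⟨1, by simp [nc, ← FreeGroup.one_eq_mk]⟩
  | cons v l => exact ⟨_, mk_nw ha' v (v :: l)⟩

theorem len_nc (ha : p a = false) (ha' : p (vi a) = false) (l : List (X × Bool))
    (hn : ∀ q ∈ cy l, NoE a p q.1 q.2) :
    (nc a p l).length + (cy l).countP (fun q => Pt a p q.1 q.2) ≤ l.length := by
  cases l with
  | nil => simp [nc, cy]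
  | cons v l =>
    have h := len_nw ha ha' v (v :: l) hn
    rw [List.headD_cons] at h
    change (nw a p v (v :: l)).length + (tp v (v :: l)).countP (fun q => Pt a p q.1 q.2) ≤
      (v :: l).length
    omega

end Pool.Agent.SuE
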