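import Pool.Agent.Lib.MP_305fdd_al.Su.E.OrdC
import Pool.Agent.Lib.MP_305fdd_al.Su.E.Fin
import Pool.Agent.Lib.MP_305fdd_al.Fr.N.C.p_cne

/-!
# MP_305fdd_al, surface groups, END block: (ORD)

* `large_ord` : an element of infinite order of `SL (2, O)`, `O` a finitely generated domain of
  characteristic two, has an order divisible by a given `N` modulo a suitable ideal of finite index;
* `largeOrd_of_rep` : (ORD) from a representation over a field.
-/

set_option autoImplicit false
set_option linter.unusedSectionVars false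

namespace Pool.Agent.SuE

open Matrix

theorem large_ord {O : Type} [CommRing O] [IsDomain O] [Algebra (ZMod 2) O]
    [Algebra.FiniteType (ZMod 2) O] (z : SpecialLinearGroup (Fin 2) O)
    (hz : ∀ n, 0 < n → z ^ n ≠ 1) (N : ℕ) (hN : 0 < N) :
    ∃ (R : Type) (_ : CommRing R) (_ : Finite R) (φ : O →+* R),
      N ∣ orderOf (SpecialLinearGroup.map φ z) := by
  have hO : CharP O 2 := charP_of_injective_algebraMap (algebraMap (ZMod 2) O).injective 2
  have : IsNoetherianRing O := Algebra.FiniteType.isNoetherianRing (ZMod 2) O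
  obtain ⟨a, n, hn, rfl⟩ := Nat.exists_eq_two_pow_mul_odd hN.ne'
  obtain ⟨m₁, hm₁⟩ := Ideal.exists_maximal O
  have hf₁ : Finite (O ⧸ m₁) := by
    let _ : Field (O ⧸ m₁) := Ideal.Quotient.field m₁
    have _ : Module.Finite (ZMod 2) (O ⧸ m₁) :=
      finite_of_finite_type_of_isJacobsonRing (ZMod 2) (O ⧸ m₁)
    exact Module.finite_of_finite (ZMod 2)
  obtain ⟨j, hj⟩ := two_part hO m₁ hm₁.ne_top z hz a
  obtain ⟨m₂, hm₂, hf₂, h2⟩ := odd_part z (transcendental_tr z hz) n hn
  have hfj : Finite (O ⧸ m₁ ^ j) := Ideal.finite_quotient_pow (IsNoetherian.noetherian m₁) j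
  let φ : O →+* (O ⧸ m₁ ^ j) × (O ⧸ m₂) :=
    (Ideal.Quotient.mk (m₁ ^ j)).prod (Ideal.Quotient.mk m₂)
  refine ⟨(O ⧸ m₁ ^ j) × (O ⧸ m₂), inferInstance, inferInstance, φ, ?_⟩
  have e1 : SpecialLinearGroup.map (RingHom.fst (O ⧸ m₁ ^ j) (O ⧸ m₂))
      (SpecialLinearGroup.map φ z) = SpecialLinearGroup.map (Ideal.Quotient.mk (m₁ ^ j)) z := by
    apply Subtype.ext
    ext i l
    rfl
  have e2 : SpecialLinearGroup.map (RingHom.snd (O ⧸ m₁ ^ j) (O ⧸ m₂))
      (SpecialLinearGroup.map φ z) = SpecialLinearGroup.map (Ideal.Quotient.mk m₂) z := by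
    apply Subtype.ext
    ext i l
    rfl
  rw [← e1] at hj
  rw [← e2] at h2
  exact Nat.Coprime.mul_dvd_of_dvd_of_dvd (hn.coprime_two_left.pow_left a)
    (hj.trans (orderOf_map_dvd _ _)) (h2.trans (orderOf_map_dvd _ _))

section rep

open FrN

variable {G F : Type} [Group G] [Field F] [Algebra (ZMod 2) F] (ρ : G →* SpecialLinearGroup (Fin 2) F)

/-- the representation over the ring generated by the entries -/
def toOO : G →* SpecialLinearGroup (Fin 2) (OO 2 ρ) :=
  MonoidHom.mk' (fun g => ⟨Matrix.of fun i j => ⟨(ρ g).1 i j, mem_OO ρ g i j⟩, by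
    apply Subtype.ext
    have h := (ρ g).2
    rw [Matrix.det_fin_two] at h ⊢
    simpa using h⟩) (by
    intro g h
    apply Subtype.ext
    ext i j
    have h1 : (ρ (g * h)).1 i j = ((ρ g).1 * (ρ h).1) i j := by
      rw [map_mul]
      rfl
    rw [Matrix.mul_apply, Fin.sum_univ_two] at h1
    change (ρ (g * h)).1 i j = _
    rw [h1]
    change _ = (((Matrix.of fun i j => (⟨(ρ g).1 i j, mem_OO ρ g i j⟩ : OO 2 ρ)) *
      (Matrix.of fun i j => (⟨(ρ h).1 i j, mem_OO ρ h i j⟩ : OO 2 ρ))) i j : F)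
    rw [Matrix.mul_apply, Fin.sum_univ_two]
    rfl)

theorem map_toOO (g : G) :
    SpecialLinearGroup.map (OO 2 ρ).val.toRingHom (toOO ρ g) = ρ g := by
  apply Subtype.ext
  ext i j
  rfl

/-- an element whose image under a representation of a finitely generated group has infinite order
has large order in finite quotients -/
theorem large_ord_rep (hG : Group.FG G) (g : G) (hz : ∀ n, 0 < n → ρ g ^ n ≠ 1) (N : ℕ)
    (hN : 0 < N) : ∃ (Q : Type) (_ : Group Q) (_ : Finite Q) (θ : G →* Q), N ∣ orderOf (θ g) := by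
  have hft : Algebra.FiniteType (ZMod 2) (OO 2 ρ) :=
    (Subalgebra.fg_iff_finiteType _).1 (FrNC.OO_fg ρ hG)
  obtain ⟨R, _, _, φ, h⟩ := large_ord (toOO ρ g) (by
    intro n hn h1
    apply hz n hn
    rw [← map_toOO, ← map_pow, h1, map_one]) N hN
  have : Finite (SpecialLinearGroup (Fin 2) R) :=
    Finite.of_injective (fun w : SpecialLinearGroup (Fin 2) R => w.1) Subtype.val_injective
  exact ⟨SpecialLinearGroup (Fin 2) R, inferInstance, inferInstance,
    (SpecialLinearGroup.map φ).comp (toOO ρ), h⟩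

end rep

/-- (ORD) from a representation -/
theorem largeOrd_of_rep {Y F : Type} [Finite Y] [Field F] [Algebra (ZMod 2) F]
    (r z : FreeGroup Y)
    (ρ : PresentedGroup ({r} : Set (FreeGroup Y)) →* SpecialLinearGroup (Fin 2) F)
    (hz : ∀ n, 0 < n → ρ (PresentedGroup.mk _ z) ^ n ≠ 1) : LargeOrd r z := by
  intro N hN
  have hG : Group.FG (PresentedGroup ({r} : Set (FreeGroup Y))) :=
    Group.fg_of_surjective (PresentedGroup.mk_surjective _)
  exact large_ord_rep ρ hG _ hz N hN

end Pool.Agent.SuE
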