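import Mathlib.RingTheory.Jacobson.Ring
import Mathlib.RingTheory.Filtration
import Mathlib.LinearAlgebra.Matrix.SpecialLinearGroup
import Mathlib.LinearAlgebra.Matrix.CharP
import Mathlib.Algebra.CharP.Lemmas
import Mathlib.Data.ZMod.Basic
import Mathlib.GroupTheory.OrderOfElement
import Mathlib.RingTheory.Localization.Integral
import Mathlib.RingTheory.TensorProduct.Finite
import Mathlib.RingTheory.Finiteness.Basic
import Mathlib.RingTheory.Ideal.Quotient.Index

/-!
# MP_305fdd_al, surface groups, END block: orders in finite quotients, the part of order `2 ^ a`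
-/

set_option autoImplicit false
set_option linter.unusedSectionVars false

namespace Pool.Agent.SuE

open Matrix

section two

variable {O : Type} [CommRing O]

theorem nat_aux (d o a k : ℕ) (h1 : d ∣ o * 2 ^ k) (h2 : ¬ 2 ^ a ∣ d) : d ∣ o * 2 ^ a := by
  have hd : d ≠ 0 := by
    rintro rfl
    exact h2 (dvd_zero _)
  obtain ⟨s, t, ht, rfl⟩ := Nat.exists_eq_two_pow_mul_odd hd
  have h3 : s < a := by
    by_contra h
    exact h2 ((pow_dvd_pow 2 (not_lt.1 h)).trans (dvd_mul_right _ _))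
  have h4 : t ∣ o := by
    have h5 : t ∣ o * 2 ^ k := (dvd_mul_left _ _).trans h1
    exact (Nat.Coprime.dvd_of_dvd_mul_right (ht.coprime_two_right.pow_right k) h5)
  rw [mul_comm o]
  exact mul_dvd_mul (pow_dvd_pow 2 h3.le) h4

/-- entries in the powers of an ideal -/
theorem pow_entries (I : Ideal O) (X : Matrix (Fin 2) (Fin 2) O) (hX : ∀ i j, X i j ∈ I) (n : ℕ) :
    ∀ i j, (X ^ n) i j ∈ I ^ n := by
  induction n with
  | zero => simp
  | succ n ih =>
    intro i j
    rw [pow_succ I, pow_succ X, Matrix.mul_apply]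
    exact Ideal.sum_mem _ fun l _ => Ideal.mul_mem_mul (ih i l) (hX l j)

/-- congruence to `1` -/
theorem map_eq_one_iff' (I : Ideal O) (z : SpecialLinearGroup (Fin 2) O) :
    SpecialLinearGroup.map (Ideal.Quotient.mk I) z = 1 ↔ ∀ i j, (z.1 - 1) i j ∈ I := by
  constructor
  · intro h i j
    rw [← Ideal.Quotient.eq_zero_iff_mem]
    have h1 := congrArg (fun w : SpecialLinearGroup (Fin 2) (O ⧸ I) => w.1 i j) h
    simp only [SpecialLinearGroup.map_apply_coe, RingHom.mapMatrix_apply, Matrix.map_apply,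
      SpecialLinearGroup.coe_one] at h1
    rw [Matrix.sub_apply, map_sub, h1]
    fin_cases i <;> fin_cases j <;> simp
  · intro h
    apply Subtype.ext
    ext i j
    have h1 := (Ideal.Quotient.eq_zero_iff_mem).2 (h i j)
    rw [Matrix.sub_apply, map_sub, sub_eq_zero] at h1
    simp only [SpecialLinearGroup.map_apply_coe, RingHom.mapMatrix_apply, Matrix.map_apply,
      SpecialLinearGroup.coe_one]
    rw [h1]
    fin_cases i <;> fin_cases j <;> simp

theorem pow_two_pow_sub (hO : CharP O 2) (w : Matrix (Fin 2) (Fin 2) O) (k : ℕ) :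
    w ^ 2 ^ k - 1 = (w - 1) ^ 2 ^ k := by
  have : CharP (Matrix (Fin 2) (Fin 2) O) 2 := Matrix.charP 2
  have : Fact (Nat.Prime 2) := ⟨Nat.prime_two⟩
  rw [sub_pow_char_pow_of_commute (p := 2) k (Commute.one_right w), one_pow]

theorem mk_pow_eq_one (hO : CharP O 2) (I : Ideal O) (z : SpecialLinearGroup (Fin 2) O) (o k : ℕ)
    (h : SpecialLinearGroup.map (Ideal.Quotient.mk I) (z ^ o) = 1) (j : ℕ) (hj : j ≤ 2 ^ k) :
    SpecialLinearGroup.map (Ideal.Quotient.mk (I ^ j)) (z ^ (o * 2 ^ k)) = 1 := by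
  rw [map_eq_one_iff'] at h ⊢
  intro i l
  have h1 := pow_two_pow_sub hO (z ^ o).1 k
  have h2 : (z ^ (o * 2 ^ k)).1 = (z ^ o).1 ^ 2 ^ k := by
    rw [pow_mul, SpecialLinearGroup.coe_pow]
  rw [h2, h1]
  exact Ideal.pow_le_pow_right hj (pow_entries I _ h (2 ^ k) i l)

/-- the part of order a power of two -/
theorem two_part [IsDomain O] [IsNoetherianRing O] (hO : CharP O 2) (I : Ideal O) (hI : I ≠ ⊤)
    [Finite (O ⧸ I)] (z : SpecialLinearGroup (Fin 2) O) (hz : ∀ n, 0 < n → z ^ n ≠ 1) (a : ℕ) :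
    ∃ j : ℕ, 2 ^ a ∣ orderOf (SpecialLinearGroup.map (Ideal.Quotient.mk (I ^ j)) z) := by
  by_contra hn
  push Not at hn
  have : Finite (SpecialLinearGroup (Fin 2) (O ⧸ I)) :=
    Finite.of_injective (fun w : SpecialLinearGroup (Fin 2) (O ⧸ I) => w.1) Subtype.val_injective
  set o := orderOf (SpecialLinearGroup.map (Ideal.Quotient.mk I) z) with ho
  have ho1 : SpecialLinearGroup.map (Ideal.Quotient.mk I) (z ^ o) = 1 := by
    rw [map_pow, ho, pow_orderOf_eq_one]
  have hopos : 0 < o := orderOf_pos _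
  have key : ∀ j, SpecialLinearGroup.map (Ideal.Quotient.mk (I ^ j)) (z ^ (o * 2 ^ a)) = 1 := by
    intro j
    have h1 := mk_pow_eq_one hO I z o j ho1 j (Nat.lt_two_pow_self).le
    rw [map_pow] at h1 ⊢
    have h2 := orderOf_dvd_of_pow_eq_one h1
    exact orderOf_dvd_iff_pow_eq_one.1 (nat_aux _ _ a _ h2 (hn j))
  apply hz (o * 2 ^ a) (Nat.mul_pos hopos (pow_pos two_pos a))
  have h3 := Ideal.iInf_pow_eq_bot_of_isDomain I hI
  have h4 : ∀ i j, ((z ^ (o * 2 ^ a)).1 - 1) i j = 0 := by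
    intro i j
    have h5 : ((z ^ (o * 2 ^ a)).1 - 1) i j ∈ (⨅ n : ℕ, I ^ n : Ideal O) := by
      rw [Ideal.mem_iInf]
      intro n
      exact (map_eq_one_iff' _ _).1 (key n) i j
    rw [h3] at h5
    exact h5
  apply Subtype.ext
  ext i j
  have h6 := h4 i j
  rw [Matrix.sub_apply, sub_eq_zero] at h6
  rw [h6]
  rfl

end two

end Pool.Agent.SuE
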