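import Pool.Agent.Lib.MP_305fdd_al.Su.E.OrdA
import Mathlib.RingTheory.Algebraic.Integral
import Mathlib.RingTheory.IntegralClosure.IntegrallyClosed
import Mathlib.RingTheory.TensorProduct.Basic
import Mathlib.RingTheory.FiniteStability

/-!
# MP_305fdd_al, surface groups, END block: primes which become units in an algebra of finite type
-/

set_option autoImplicit false
set_option linter.unusedSectionVars false

namespace Pool.Agent.SuE

open TensorProduct

/-- Only finitely many primes of `A` become units in a domain of finite type over `A`. -/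
theorem exists_bad {A O : Type} [CommRing A] [IsDomain A] [IsIntegrallyClosed A] [CommRing O]
    [IsDomain O] [Algebra A O] [Algebra.FiniteType A O]
    (hinj : Function.Injective (algebraMap A O)) :
    ∃ a : A, a ≠ 0 ∧ ∀ p : A, Prime p → IsUnit (algebraMap A O p) → p ∣ a := by
  classical
  let K := FractionRing A
  let S := K ⊗[A] O
  -- `S` is non-trivial
  have hnt : Nontrivial S := by
    have hinj' : Function.Injective (algebraMap A (FractionRing O)) := by
      rw [IsScalarTower.algebraMap_eq A O (FractionRing O)]
      exact (IsFractionRing.injective O (FractionRing O)).comp hinj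
    let f : K →ₐ[A] FractionRing O :=
      { IsFractionRing.lift (K := K) hinj' with
        commutes' := fun x => IsFractionRing.lift_algebraMap hinj' x }
    let h : S →ₐ[A] FractionRing O :=
      Algebra.TensorProduct.productMap f (IsScalarTower.toAlgHom A O (FractionRing O))
    exact h.toRingHom.domain_nontrivial
  obtain ⟨m, hm⟩ := Ideal.exists_maximal S
  let E := S ⧸ m
  let _ : Field E := Ideal.Quotient.field m
  have h0 : Algebra.FiniteType K S := inferInstance
  have h00 : Algebra.FiniteType K E :=
    Algebra.FiniteType.of_surjective (Ideal.Quotient.mkₐ K m) (Ideal.Quotient.mkₐ_surjective K m)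
  have hfin : Module.Finite K E := finite_of_finite_type_of_isJacobsonRing K E
  let ψ : O →ₐ[A] E := (Ideal.Quotient.mkₐ A m).comp Algebra.TensorProduct.includeRight
  have halg : ∀ e : E, ∃ y ≠ (0 : A), IsIntegral A (y • e) := by
    intro e
    have h1 : IsAlgebraic K e := (Algebra.IsIntegral.isIntegral e).isAlgebraic
    exact ((IsFractionRing.isAlgebraic_iff A K E).2 h1).exists_integral_multiple
  choose c hc0 hc using fun y : O => halg (ψ y)
  obtain ⟨s, hs⟩ := (Algebra.FiniteType.out : (⊤ : Subalgebra A O).FG)
  let a : A := ∏ y ∈ s, c y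
  have key : ∀ u : O, ∃ n : ℕ, IsIntegral A (a ^ n • ψ u) := by
    intro u
    have hu : u ∈ Algebra.adjoin A (s : Set O) := by rw [hs]; trivial
    induction hu using Algebra.adjoin_induction with
    | mem y hy =>
      refine ⟨1, ?_⟩
      have h1 : a = (∏ x ∈ s.erase y, c x) * c y := (Finset.prod_erase_mul _ _ hy).symm
      rw [pow_one, h1, mul_smul]
      exact (hc y).smul _
    | algebraMap r =>
      refine ⟨0, ?_⟩
      rw [pow_zero, one_smul, ψ.commutes]
      exact isIntegral_algebraMap
    | add x y _ _ hx hy =>
      obtain ⟨n, hn⟩ := hx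
      obtain ⟨n', hn'⟩ := hy
      refine ⟨n + n', ?_⟩
      rw [map_add, smul_add]
      apply IsIntegral.add
      · rw [add_comm, pow_add, mul_smul]
        exact hn.smul _
      · rw [pow_add, mul_smul]
        exact hn'.smul _
    | mul x y _ _ hx hy =>
      obtain ⟨n, hn⟩ := hx
      obtain ⟨n', hn'⟩ := hy
      refine ⟨n + n', ?_⟩
      have h1 : a ^ (n + n') • ψ (x * y) = (a ^ n • ψ x) * (a ^ n' • ψ y) := by
        rw [map_mul, pow_add, smul_mul_smul_comm]
      rw [h1]
      exact hn.mul hn'
  refine ⟨a, Finset.prod_ne_zero_iff.2 fun y _ => hc0 y, ?_⟩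
  intro p hp hu
  obtain ⟨u, hu⟩ := hu.exists_right_inv
  obtain ⟨n, hn⟩ := key u
  have hpK : algebraMap A K p ≠ 0 := by
    intro h
    exact hp.ne_zero ((IsFractionRing.injective A K) (by rw [h, map_zero]))
  have h1 : a ^ n • ψ u = algebraMap K E (algebraMap A K (a ^ n) * (algebraMap A K p)⁻¹) := by
    have h2 : ψ u * algebraMap A E p = 1 := by
      rw [← ψ.commutes, ← map_mul, mul_comm, hu, map_one]
    have h3 : ψ u = (algebraMap A E p)⁻¹ := eq_inv_of_mul_eq_one_left h2
    rw [Algebra.smul_def, h3, map_mul, map_inv₀, ← IsScalarTower.algebraMap_apply,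
      ← IsScalarTower.algebraMap_apply]
  rw [h1] at hn
  have h4 : IsIntegral A (algebraMap A K (a ^ n) * (algebraMap A K p)⁻¹) :=
    (isIntegral_algebraMap_iff (algebraMap K E).injective).1 hn
  obtain ⟨b, hb⟩ := IsIntegrallyClosed.isIntegral_iff.1 h4
  have h5 : algebraMap A K (a ^ n) = algebraMap A K (b * p) := by
    rw [map_mul, hb, inv_mul_cancel_right₀ hpK]
  have h6 : a ^ n = b * p := IsFractionRing.injective A K h5
  exact hp.dvd_of_dvd_pow (by rw [h6]; exact dvd_mul_left _ _)

end Pool.Agent.SuE
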