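import Pool.Agent.Lib.MP_305fdd_al.Su.E.OrdB
import Mathlib.FieldTheory.IsAlgClosed.AlgebraicClosure
import Mathlib.RingTheory.Polynomial.Cyclotomic.Roots
import Mathlib.FieldTheory.Minpoly.Field
import Mathlib.Algebra.Polynomial.Roots
import Mathlib.Tactic.LinearCombination

/-!
# MP_305fdd_al, surface groups, END block: orders in finite quotients, the odd part
-/

set_option autoImplicit false
set_option linter.unusedSectionVars false

namespace Pool.Agent.SuE

open Matrix Polynomial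

/-- `z ^ k = P (t) z + Q (t)` -/
noncomputable def PQ : ℕ → (ZMod 2)[X] × (ZMod 2)[X]
  | 0 => (0, 1)
  | k + 1 => (X * (PQ k).1 + (PQ k).2, (PQ k).1)

section formula

variable {R : Type} [CommRing R] [Algebra (ZMod 2) R]

theorem two_eq_zero' : (2 : R) = 0 := by
  have h : algebraMap (ZMod 2) R 2 = 0 := by
    rw [show (2 : ZMod 2) = 0 from rfl, map_zero]
  rw [map_ofNat] at h
  exact h

/-- the trace -/
def tr' (z : SpecialLinearGroup (Fin 2) R) : R := z.1 0 0 + z.1 1 1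

theorem sq_eq (z : SpecialLinearGroup (Fin 2) R) : z.1 * z.1 = tr' z • z.1 + 1 := by
  have hd : z.1 0 0 * z.1 1 1 - z.1 0 1 * z.1 1 0 = 1 := by
    rw [← Matrix.det_fin_two]
    exact z.2
  have h2 : (2 : R) = 0 := two_eq_zero'
  ext i j
  rw [Matrix.mul_apply, Fin.sum_univ_two, Matrix.add_apply, Matrix.smul_apply, smul_eq_mul]
  unfold tr'
  fin_cases i <;> fin_cases j
  · simp only [Fin.zero_eta, Fin.isValue, Matrix.one_apply_eq]
    linear_combination (-1 : R) * hd - h2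
  · simp
    ring
  · simp
    ring
  · simp only [Fin.mk_one, Fin.isValue, Matrix.one_apply_eq]
    linear_combination (-1 : R) * hd - h2

theorem pow_formula (z : SpecialLinearGroup (Fin 2) R) (k : ℕ) :
    (z ^ k).1 = aeval (tr' z) (PQ k).1 • z.1 + aeval (tr' z) (PQ k).2 • 1 := by
  induction k with
  | zero => simp [PQ]
  | succ k ih =>
    have h1 : (z ^ (k + 1)).1 = (z ^ k).1 * z.1 := by
      rw [pow_succ]
      rfl
    rw [h1, ih, add_mul, smul_mul_assoc, smul_mul_assoc, one_mul, sq_eq]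
    simp only [PQ, map_add, map_mul, aeval_X]
    module

end formula

section compare

variable {E E' : Type} [Field E] [Algebra (ZMod 2) E] [Field E'] [Algebra (ZMod 2) E']

theorem pow_eq_one_iff' (z : SpecialLinearGroup (Fin 2) E) (ht : tr' z ≠ 0) (k : ℕ)
    (h : z ^ k = 1) : aeval (tr' z) (PQ k).1 = 0 ∧ aeval (tr' z) (PQ k).2 = 1 := by
  have h1 := pow_formula z k
  rw [h] at h1
  have e00 := congrFun (congrFun h1 0) 0
  have e01 := congrFun (congrFun h1 0) 1
  have e10 := congrFun (congrFun h1 1) 0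
  have e11 := congrFun (congrFun h1 1) 1
  simp only [SpecialLinearGroup.coe_one, Matrix.add_apply, Matrix.smul_apply, smul_eq_mul,
    Matrix.one_apply_eq, mul_one] at e00 e11
  have h2 : aeval (tr' z) (PQ k).1 = 0 := by
    by_contra hP
    apply ht
    have h3 : aeval (tr' z) (PQ k).1 * (z.1 0 0 - z.1 1 1) = 0 := by
      linear_combination e11 - e00
    rcases mul_eq_zero.1 h3 with h4 | h4
    · exact absurd h4 hP
    · have h5 : (2 : E) = 0 := two_eq_zero'
      unfold tr'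
      linear_combination h4 + z.1 1 1 * h5
  refine ⟨h2, ?_⟩
  rw [h2, zero_mul, zero_add] at e00
  exact e00.symm

theorem pow_eq_one_trans (z : SpecialLinearGroup (Fin 2) E) (z' : SpecialLinearGroup (Fin 2) E')
    (ht : tr' z ≠ 0) (Φ : (ZMod 2)[X]) (hΦ : ∀ P : (ZMod 2)[X], aeval (tr' z) P = 0 → Φ ∣ P)
    (hΦ' : aeval (tr' z') Φ = 0) (k : ℕ) (h : z ^ k = 1) : z' ^ k = 1 := by
  obtain ⟨h1, h2⟩ := pow_eq_one_iff' z ht k h
  have h3 : aeval (tr' z') (PQ k).1 = 0 := by
    obtain ⟨Q, hQ⟩ := hΦ _ h1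
    rw [hQ, map_mul, hΦ', zero_mul]
  have h4 : aeval (tr' z') (PQ k).2 = 1 := by
    obtain ⟨Q, hQ⟩ := hΦ ((PQ k).2 - 1) (by rw [map_sub, h2, map_one, sub_self])
    have h5 : aeval (tr' z') ((PQ k).2 - 1) = 0 := by rw [hQ, map_mul, hΦ', zero_mul]
    rw [map_sub, map_one, sub_eq_zero] at h5
    exact h5
  have h5 := pow_formula z' k
  rw [h3, h4, zero_smul, zero_add, one_smul] at h5
  exact Subtype.ext h5

/-- the diagonal matrix -/
def dg (ζ : E) (h : ζ ≠ 0) : SpecialLinearGroup (Fin 2) E :=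
  ⟨!![ζ, 0; 0, ζ⁻¹], by rw [Matrix.det_fin_two_of, mul_inv_cancel₀ h]; ring⟩

theorem tr_dg (ζ : E) (h : ζ ≠ 0) : tr' (dg ζ h) = ζ + ζ⁻¹ := by
  simp [tr', dg]

theorem dg_pow (ζ : E) (h : ζ ≠ 0) (k : ℕ) : (dg ζ h ^ k).1 = !![ζ ^ k, 0; 0, (ζ⁻¹) ^ k] := by
  induction k with
  | zero =>
    ext i j
    fin_cases i <;> fin_cases j <;> simp
  | succ k ih =>
    have h1 : (dg ζ h ^ (k + 1)).1 = (dg ζ h ^ k).1 * (dg ζ h).1 := by
      rw [pow_succ]
      rfl
    rw [h1, ih]
    ext i j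
    fin_cases i <;> fin_cases j <;> simp [dg, Matrix.mul_apply, Fin.sum_univ_two, pow_succ]

theorem dg_pow_eq_one (ζ : E) (h : ζ ≠ 0) (k : ℕ) : dg ζ h ^ k = 1 ↔ ζ ^ k = 1 := by
  constructor
  · intro h1
    have h2 := dg_pow ζ h k
    rw [h1] at h2
    have h3 := congrFun (congrFun h2 0) 0
    simpa using h3.symm
  · intro h1
    apply Subtype.ext
    rw [dg_pow, h1, inv_pow, h1]
    ext i j
    fin_cases i <;> fin_cases j <;> simp

end compare

section omega

/-- the algebraic closure of the field with two elements -/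
abbrev Om2 : Type := AlgebraicClosure (ZMod 2)

theorem exists_zeta (n : ℕ) (hn : Odd n) : ∃ ζ : Om2, IsPrimitiveRoot ζ n := by
  have h0 : NeZero (n : Om2) := by
    refine ⟨fun h => ?_⟩
    have hc : CharP Om2 2 := inferInstance
    rw [CharP.cast_eq_zero_iff Om2 2] at h
    exact (Nat.not_even_iff_odd.2 hn) (even_iff_two_dvd.2 h)
  have hpos : 0 < n := hn.pos
  obtain ⟨ζ, hζ⟩ := IsAlgClosed.exists_root (cyclotomic n Om2)
    (by
      rw [degree_cyclotomic]
      exact_mod_cast (Nat.totient_pos.2 hpos).ne')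
  exact ⟨ζ, isRoot_cyclotomic_iff.1 hζ⟩

/-- a root of unity of order `n * 3 ^ (i + 1)` -/
noncomputable def ze (n : ℕ) (hn : Odd n) (i : ℕ) : Om2 :=
  (exists_zeta (n * 3 ^ (i + 1)) (hn.mul (Odd.pow (by decide)))).choose

theorem ze_spec (n : ℕ) (hn : Odd n) (i : ℕ) : IsPrimitiveRoot (ze n hn i) (n * 3 ^ (i + 1)) :=
  (exists_zeta (n * 3 ^ (i + 1)) (hn.mul (Odd.pow (by decide)))).choose_spec

theorem ze_ne (n : ℕ) (hn : Odd n) (i : ℕ) : ze n hn i ≠ 0 := by
  have h := (ze_spec n hn i)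
  exact h.ne_zero (Nat.mul_pos hn.pos (pow_pos (by norm_num) _)).ne'

theorem dg_ze (n : ℕ) (hn : Odd n) (i k : ℕ) :
    dg (ze n hn i) (ze_ne n hn i) ^ k = 1 ↔ n * 3 ^ (i + 1) ∣ k := by
  rw [dg_pow_eq_one, (ze_spec n hn i).pow_eq_one_iff_dvd]

theorem tr_ze_ne (n : ℕ) (hn : Odd n) (i : ℕ) : tr' (dg (ze n hn i) (ze_ne n hn i)) ≠ 0 := by
  rw [tr_dg]
  intro h
  have h0 := ze_ne n hn i
  have h1 : ze n hn i ^ 2 = 1 := by
    have h2 : (2 : Om2) = 0 := two_eq_zero'
    have h3 : ze n hn i * (ze n hn i + (ze n hn i)⁻¹) = 0 := by rw [h, mul_zero]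
    rw [mul_add, mul_inv_cancel₀ h0] at h3
    linear_combination h3 - h2
  rw [(ze_spec n hn i).pow_eq_one_iff_dvd] at h1
  have h2 := Nat.le_of_dvd two_pos h1
  have h3 : 3 ≤ 3 ^ (i + 1) := by
    calc 3 = 3 ^ 1 := by norm_num
      _ ≤ 3 ^ (i + 1) := Nat.pow_le_pow_right (by norm_num) (by omega)
  have h4 := Nat.mul_le_mul hn.pos h3
  omega

theorem tr_ze_inj (n : ℕ) (hn : Odd n) :
    Function.Injective fun i => tr' (dg (ze n hn i) (ze_ne n hn i)) := by
  have key : ∀ i j, tr' (dg (ze n hn i) (ze_ne n hn i)) = tr' (dg (ze n hn j) (ze_ne n hn j)) →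
      n * 3 ^ (j + 1) ∣ n * 3 ^ (i + 1) := by
    intro i j h
    rw [← dg_ze n hn]
    apply pow_eq_one_trans (dg (ze n hn i) (ze_ne n hn i)) _ (tr_ze_ne n hn i)
      (minpoly (ZMod 2) (tr' (dg (ze n hn i) (ze_ne n hn i))))
    · intro P hP
      exact minpoly.dvd _ _ hP
    · rw [← h]
      exact minpoly.aeval _ _
    · rw [dg_ze n hn]
  intro i j h
  have h1 := Nat.dvd_antisymm (key i j h) (key j i h.symm)
  have h2 := Nat.eq_of_mul_eq_mul_left hn.pos h1
  have h3 := Nat.pow_right_injective (by norm_num : 2 ≤ 3) h2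
  omega

end omega

/-- the odd part -/
theorem odd_part {O : Type} [CommRing O] [IsDomain O] [Algebra (ZMod 2) O]
    [Algebra.FiniteType (ZMod 2) O] (z : SpecialLinearGroup (Fin 2) O)
    (hT : Transcendental (ZMod 2) (tr' z)) (n : ℕ) (hn : Odd n) :
    ∃ m : Ideal O, m.IsMaximal ∧ Finite (O ⧸ m) ∧
      n ∣ orderOf (SpecialLinearGroup.map (Ideal.Quotient.mk m) z) := by
  classical
  let _ : Algebra (ZMod 2)[X] O := (aeval (tr' z) : (ZMod 2)[X] →ₐ[ZMod 2] O).toRingHom.toAlgebra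
  have halg : ∀ P : (ZMod 2)[X], algebraMap (ZMod 2)[X] O P = aeval (tr' z) P := fun P => rfl
  have _ : IsScalarTower (ZMod 2) (ZMod 2)[X] O := IsScalarTower.of_algebraMap_eq fun x => by
    rw [halg]
    exact (AlgHom.commutes _ _).symm
  have _ : Algebra.FiniteType (ZMod 2)[X] O :=
    Algebra.FiniteType.of_restrictScalars_finiteType (ZMod 2) (ZMod 2)[X] O
  have hinj : Function.Injective (algebraMap (ZMod 2)[X] O) :=
    transcendental_iff_injective.1 hT
  obtain ⟨a, ha0, ha⟩ := exists_bad hinj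
  obtain ⟨i, hi⟩ : ∃ i, aeval (tr' (dg (ze n hn i) (ze_ne n hn i))) a ≠ 0 := by
    by_contra h
    push Not at h
    have h1 : (a.map (algebraMap (ZMod 2) Om2)) ≠ 0 :=
      (Polynomial.map_ne_zero_iff (algebraMap (ZMod 2) Om2).injective).2 ha0
    have h2 : Set.range (fun i => tr' (dg (ze n hn i) (ze_ne n hn i))) ⊆
        ((a.map (algebraMap (ZMod 2) Om2)).roots.toFinset : Set Om2) := by
      rintro _ ⟨i, rfl⟩
      rw [Finset.mem_coe, Multiset.mem_toFinset, mem_roots h1, IsRoot.def, eval_map,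
        ← aeval_def]
      exact h i
    exact (Set.infinite_range_of_injective (tr_ze_inj n hn))
      ((Finset.finite_toSet _).subset h2)
  set τ := tr' (dg (ze n hn i) (ze_ne n hn i)) with hτ
  have hint : IsIntegral (ZMod 2) τ := Algebra.IsIntegral.isIntegral τ
  have hnu : ¬ IsUnit (aeval (tr' z) (minpoly (ZMod 2) τ)) := by
    intro hu
    obtain ⟨Q, hQ⟩ := ha _ (minpoly.irreducible hint).prime hu
    apply hi
    rw [hQ, map_mul, minpoly.aeval, zero_mul]
  obtain ⟨m, hm, hmem⟩ := exists_max_ideal_of_mem_nonunits hnu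
  let _ : Field (O ⧸ m) := Ideal.Quotient.field m
  have _ : Module.Finite (ZMod 2) (O ⧸ m) :=
    finite_of_finite_type_of_isJacobsonRing (ZMod 2) (O ⧸ m)
  refine ⟨m, hm, Module.finite_of_finite (ZMod 2), ?_⟩
  have htr : tr' (SpecialLinearGroup.map (Ideal.Quotient.mk m) z) =
      Ideal.Quotient.mkₐ (ZMod 2) m (tr' z) := by
    simp [tr']
  have hroot : aeval (tr' (SpecialLinearGroup.map (Ideal.Quotient.mk m) z))
      (minpoly (ZMod 2) τ) = 0 := by
    rw [htr, aeval_algHom_apply]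
    exact Ideal.Quotient.eq_zero_iff_mem.2 hmem
  have hmp : minpoly (ZMod 2) (tr' (SpecialLinearGroup.map (Ideal.Quotient.mk m) z)) =
      minpoly (ZMod 2) τ :=
    (minpoly.eq_of_irreducible_of_monic (minpoly.irreducible hint) hroot
      (minpoly.monic hint)).symm
  have hne : tr' (SpecialLinearGroup.map (Ideal.Quotient.mk m) z) ≠ 0 := by
    intro h
    rw [h, minpoly.zero] at hmp
    have h1 : aeval τ (X : (ZMod 2)[X]) = 0 := by
      rw [hmp]
      exact minpoly.aeval _ _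
    rw [aeval_X] at h1
    exact tr_ze_ne n hn i h1
  have hdvd : n * 3 ^ (i + 1) ∣
      orderOf (SpecialLinearGroup.map (Ideal.Quotient.mk m) z) := by
    rw [← dg_ze n hn]
    apply pow_eq_one_trans _ _ hne (minpoly (ZMod 2) τ) ?_ (minpoly.aeval _ _) _
      (pow_orderOf_eq_one _)
    intro P hP
    rw [← hmp]
    exact minpoly.dvd _ _ hP
  exact (dvd_mul_right _ _).trans hdvd

/-- the trace of an element of infinite order is transcendental -/
theorem transcendental_tr {O : Type} [CommRing O] [IsDomain O] [Algebra (ZMod 2) O]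
    (z : SpecialLinearGroup (Fin 2) O) (hz : ∀ n, 0 < n → z ^ n ≠ 1) :
    Transcendental (ZMod 2) (tr' z) := by
  intro hT
  have h1 : Module.Finite (ZMod 2) (Algebra.adjoin (ZMod 2) {tr' z}) := by
    have h2 := hT.isIntegral.fg_adjoin_singleton
    exact Module.Finite.iff_fg.2 h2
  have h2 : Finite (Algebra.adjoin (ZMod 2) {tr' z}) := Module.finite_of_finite (ZMod 2)
  have hmem : ∀ P : (ZMod 2)[X], aeval (tr' z) P ∈ Algebra.adjoin (ZMod 2) {tr' z} := by
    intro P
    exact Polynomial.aeval_mem_adjoin_singleton _ _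
  let f : ℕ → Algebra.adjoin (ZMod 2) {tr' z} × Algebra.adjoin (ZMod 2) {tr' z} := fun k =>
    (⟨_, hmem (PQ k).1⟩, ⟨_, hmem (PQ k).2⟩)
  obtain ⟨i, j, hij, h⟩ := Finite.exists_ne_map_eq_of_infinite f
  have h3 : z ^ i = z ^ j := by
    apply Subtype.ext
    rw [pow_formula, pow_formula]
    have e1 : aeval (tr' z) (PQ i).1 = aeval (tr' z) (PQ j).1 :=
      congrArg (fun p => (p.1 : O)) h
    have e2 : aeval (tr' z) (PQ i).2 = aeval (tr' z) (PQ j).2 :=
      congrArg (fun p => (p.2 : O)) h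
    rw [e1, e2]
  rcases lt_or_gt_of_ne hij with hlt | hlt
  · apply hz (j - i) (by omega)
    have h4 : z ^ i * z ^ (j - i) = z ^ i * 1 := by
      rw [← pow_add, mul_one, h3]
      congr 1
      omega
    exact mul_left_cancel h4
  · apply hz (i - j) (by omega)
    have h4 : z ^ j * z ^ (i - j) = z ^ j * 1 := by
      rw [← pow_add, mul_one, ← h3]
      congr 1
      omega
    exact mul_left_cancel h4

end Pool.Agent.SuE
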