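import Pool.Agent.Lib.MP_305fdd_al.Su.E.TP

/-!
# MP_305fdd_al, surface groups, END block: the positions of the letters in a family of cyclic words
-/

set_option autoImplicit false
set_option linter.unusedSectionVars false

namespace Pool.Agent.SuE

open Pool.Agent.SuD

section lists

variable {X : Type}

theorem mem_tp (c : X × Bool) (q : (X × Bool) × (X × Bool)) : ∀ l : List (X × Bool),
    q ∈ tp c l ↔ ∃ k, ∃ h : k < l.length, q = (l[k], (l ++ [c])[k + 1]'(by simp; omega))
  | [] => by simp [tp]
  | v :: l => by
    rw [tp, List.mem_cons, mem_tp c q l]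
    constructor
    · rintro (rfl | ⟨k, h, rfl⟩)
      · refine ⟨0, by simp, ?_⟩
        cases l <;> simp
      · exact ⟨k + 1, by simpa using h, by simp⟩
    · rintro ⟨k, h, rfl⟩
      cases k with
      | zero =>
        left
        cases l <;> simp
      | succ k =>
        right
        exact ⟨k, by simpa using h, by simp⟩

theorem rot_val (n : ℕ) (i : Fin n) : (finRotate n i).val = (i.val + 1) % n := by
  cases n with
  | zero => exact i.elim0
  | succ n =>
    rw [coe_finRotate]
    split_ifs with h
    · subst h
      simp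
    · have h1 : i.val < n := by
        have := i.2
        have h2 : i.val ≠ n := fun h' => h (Fin.ext h')
        omega
      rw [Nat.mod_eq_of_lt (by omega)]

theorem mem_cy (l : List (X × Bool)) (q : (X × Bool) × (X × Bool)) :
    q ∈ cy l ↔ ∃ k : Fin l.length, q = (l[k.1], l[(finRotate _ k).1]) := by
  cases l with
  | nil =>
    constructor
    · intro h
      simp [cy] at h
    · rintro ⟨k, -⟩
      exact k.elim0
  | cons v l =>
    have key : ∀ k (h : k < (v :: l).length), ((v :: l) ++ [v])[k + 1]'(by simp at h ⊢; omega) =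
        (v :: l)[(finRotate _ (⟨k, h⟩ : Fin (v :: l).length)).1] := by
      intro k h
      by_cases h1 : k + 1 < (v :: l).length
      · have h2 : (finRotate _ (⟨k, h⟩ : Fin (v :: l).length)).1 = k + 1 := by
          rw [rot_val, Nat.mod_eq_of_lt h1]
        simp only [h2]
        rw [List.getElem_append_left h1]
      · have h3 : k + 1 = (v :: l).length := by omega
        have h2 : (finRotate _ (⟨k, h⟩ : Fin (v :: l).length)).1 = 0 := by
          rw [rot_val]
          simp only [h3, Nat.mod_self]
        simp only [h2]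
        rw [List.getElem_append_right (by omega)]
        simp [h3]
    rw [cy, mem_tp]
    constructor
    · rintro ⟨k, h, rfl⟩
      exact ⟨⟨k, h⟩, by rw [key k h]⟩
    · rintro ⟨⟨k, h⟩, rfl⟩
      exact ⟨k, h, by rw [key k h]⟩

end lists

variable {X ι : Type} [Fintype X] [DecidableEq X] [Fintype ι] [DecidableEq ι]
  (L : ι → List (X × Bool))

/-- the positions -/
abbrev Ps : Type := Σ i, Fin (L i).length

/-- the letter -/
def yy (e : Ps L) : X × Bool := (L e.1)[e.2.1]

/-- the next position -/
def nn : Equiv.Perm (Ps L) := Equiv.sigmaCongrRight fun _ => finRotate _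

variable {L}

theorem red_of_min (hmin : ∀ (a : X × Bool) (p : X × Bool → Bool), p a = false → p (vi a) = false →
    ∑ i, (L i).length ≤ ∑ i, (nc a p (L i)).length) : Red (yy L) (nn L) := by
  intro a p ha ha' hn e hPt
  have h1 : ∀ i, (nc a p (L i)).length + (cy (L i)).countP (fun q => Pt a p q.1 q.2) ≤
      (L i).length := by
    intro i
    apply len_nc ha ha'
    intro q hq
    obtain ⟨k, rfl⟩ := (mem_cy _ _).1 hq
    exact hn ⟨i, k⟩
  have h2 := Finset.sum_le_sum fun i (_ : i ∈ Finset.univ) => h1 i
  rw [Finset.sum_add_distrib] at h2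
  have h3 := hmin a p ha ha'
  have h4 : ∑ i, (cy (L i)).countP (fun q => Pt a p q.1 q.2) = 0 := by omega
  have h5 := (Finset.sum_eq_zero_iff.1 h4) e.1 (Finset.mem_univ _)
  rw [List.countP_eq_zero] at h5
  apply h5 ((L e.1)[e.2.1], (L e.1)[(finRotate _ e.2).1])
  · exact (mem_cy _ _).2 ⟨e.2, rfl⟩
  · exact decide_eq_true hPt

end Pool.Agent.SuE
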