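import Pool.Agent.Lib.MP_305fdd_al.Su.E.UseL
import Pool.Agent.Lib.MP_305fdd_al.Su.Q2

/-!
# MP_305fdd_al, surface groups, END block: the ranks

`rank_one_rel` : a one relator group with as many homomorphisms to `Z / 2` and with at most as many
homomorphisms to every finite group as the surface group of genus `g ≥ 1` has `2 g` generators.
`surf_of_am_rk`, `surf_of_hn_rk` : END without the hypothesis on the ranks.
-/

set_option autoImplicit false
set_option linter.unusedSectionVars false

namespace Pool.Agent.SuE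

open Pool.Agent.Lib.MP_305fdd_al Pool.Agent.SuUp Pool.Agent.FrT Pool.Agent.SuT

open scoped commutatorElement

section count

variable {Y : Type}

/-- exponent sum of the letter `y` -/
noncomputable def exps (y : Y) : FreeGroup Y →* Multiplicative ℤ := by
  classical
  exact FreeGroup.lift fun x => if x = y then Multiplicative.ofAdd 1 else 1

theorem exps_self (y : Y) : exps y (FreeGroup.of y) = Multiplicative.ofAdd 1 := by
  rw [exps, FreeGroup.lift_apply_of, if_pos rfl]

theorem exps_ne {y x : Y} (h : x ≠ y) : exps y (FreeGroup.of x) = 1 := by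
  rw [exps, FreeGroup.lift_apply_of, if_neg h]

theorem eq_mul_zpow {Q : Type} [Group Q] (θ θ' : FreeGroup Y →* Q) (y : Y) (c : Q)
    (hc : ∀ x, c * x = x * c) (h1 : θ' (FreeGroup.of y) = θ (FreeGroup.of y) * c)
    (h2 : ∀ x, x ≠ y → θ' (FreeGroup.of x) = θ (FreeGroup.of x)) (w : FreeGroup Y) :
    θ' w = θ w * c ^ (Multiplicative.toAdd (exps y w)) := by
  let ψ : FreeGroup Y →* Q := MonoidHom.mk' (fun w => θ w * c ^ (Multiplicative.toAdd (exps y w)))
    (by
      intro a b
      rw [map_mul, map_mul, toAdd_mul, zpow_add]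
      have h3 : Commute (c ^ (Multiplicative.toAdd (exps y a))) (θ b) :=
        Commute.zpow_left (hc _) _
      rw [mul_assoc, mul_assoc, ← mul_assoc (θ b), ← h3.eq]
      simp only [mul_assoc])
  have h3 : θ' = ψ := by
    apply FreeGroup.ext_hom
    intro x
    change _ = θ (FreeGroup.of x) * c ^ (Multiplicative.toAdd (exps y (FreeGroup.of x)))
    by_cases h : x = y
    · subst h
      rw [h1, exps_self]
      simp
    · rw [h2 x h, exps_ne h]
      simp
  exact DFunLike.congr_fun h3 w

theorem zpow_odd {Q : Type} [Group Q] (d : Q) (hd : d ^ 2 = 1) (k : ℤ) (hk : Odd k) :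
    d ^ k = d := by
  obtain ⟨m, rfl⟩ := hk
  rw [zpow_add, zpow_mul, zpow_ofNat, hd, one_zpow, zpow_one, one_mul]

/-- groups of class two with exponent two center and quotient -/
structure Cls (Q : Type) [Group Q] : Prop where
  cen : ∀ c : Q, (∀ x, c * x = x * c) → c ^ 2 = 1
  sq : ∀ q x : Q, q ^ 2 * x = x * q ^ 2
  com : ∀ a b x : Q, (a * b * a⁻¹ * b⁻¹) * x = x * (a * b * a⁻¹ * b⁻¹)

theorem inj_step {Q : Type} [Group Q] (hQ : Cls Q) (θ θ' : FreeGroup Y →* Q) (y : Y)
    (r : FreeGroup Y) (hr : Odd (Multiplicative.toAdd (exps y r)))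
    (h2 : ∀ x, x ≠ y → θ' (FreeGroup.of x) = θ (FreeGroup.of x)) (h : θ r = θ' r) :
    θ' (FreeGroup.of y) = θ (FreeGroup.of y) := by
  set c := (θ (FreeGroup.of y))⁻¹ * θ' (FreeGroup.of y) with hc
  have hc1 : θ' (FreeGroup.of y) = θ (FreeGroup.of y) * c := by rw [hc, mul_inv_cancel_left]
  let q : Q →* Q ⧸ Subgroup.center Q := QuotientGroup.mk' _
  have hq : ∀ u : Q, q u = 1 ↔ ∀ x, u * x = x * u := by
    intro u
    rw [QuotientGroup.mk'_apply, QuotientGroup.eq_one_iff, Subgroup.mem_center_iff]
    exact forall_congr' fun x => eq_comm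
  have hcen : ∀ x, c * x = x * c := by
    rw [← hq]
    have e1 := eq_mul_zpow (q.comp θ) (q.comp θ') y (q c) (by
      intro x
      obtain ⟨x, rfl⟩ := QuotientGroup.mk'_surjective _ x
      have e2 : q (c * x * c⁻¹ * x⁻¹) = 1 := (hq _).2 (hQ.com c x)
      rw [map_mul, map_mul, map_mul, map_inv, map_inv, mul_inv_eq_one, mul_inv_eq_iff_eq_mul]
        at e2
      exact e2) (by
      change q (θ' _) = q (θ _) * q c
      rw [hc1, map_mul]) (by
      intro x hx
      change q (θ' _) = q (θ _)
      rw [h2 x hx]) r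
    change q (θ' r) = q (θ r) * _ at e1
    rw [h, zpow_odd _ (by rw [← map_pow]; exact (hq _).2 (hQ.sq c)) _ hr, left_eq_mul] at e1
    exact e1
  have e1 := eq_mul_zpow θ θ' y c hcen hc1 h2 r
  rw [h, zpow_odd _ (hQ.cen c hcen) _ hr, left_eq_mul] at e1
  rw [hc1, e1, mul_one]

/-- the number of homomorphisms when an exponent sum is odd -/
theorem card_odd_rel [Fintype Y] {Q : Type} [Group Q] [Finite Q] (hQ : Cls Q) (y : Y)
    (r : FreeGroup Y) (hr : Odd (Multiplicative.toAdd (exps y r))) :
    Nat.card (PresentedGroup ({r} : Set (FreeGroup Y)) →* Q) * Nat.card Q =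
      Nat.card Q ^ Fintype.card Y := by
  classical
  rw [Nat.card_congr (Su.homPres r Q)]
  let T : (Y → Q) → (Y → Q) := fun f => Function.update f y (FreeGroup.lift f r)
  have hT : Function.Injective T := by
    intro f f' h
    have e1 : ∀ x, x ≠ y → f' x = f x := by
      intro x hx
      have e2 := congrFun h x
      simp only [T, Function.update_of_ne hx] at e2
      exact e2.symm
    have e2 : FreeGroup.lift f r = FreeGroup.lift f' r := by
      have e3 := congrFun h y
      simp only [T, Function.update_self] at e3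
      exact e3
    have e3 := inj_step hQ (FreeGroup.lift f) (FreeGroup.lift f') y r hr (by
      intro x hx
      simp only [FreeGroup.lift_apply_of]
      exact e1 x hx) e2
    simp only [FreeGroup.lift_apply_of] at e3
    funext x
    by_cases hx : x = y
    · subst hx
      exact e3.symm
    · exact (e1 x hx).symm
  have hT' : Function.Bijective T := Finite.injective_iff_bijective.1 hT
  let E : {f : Y → Q // FreeGroup.lift f r = 1} ≃ {f : Y → Q // f y = 1} :=
    Equiv.subtypeEquiv (Equiv.ofBijective T hT') (by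
      intro f
      change _ ↔ T f y = 1
      simp only [T, Function.update_self])
  rw [Nat.card_congr E]
  let E' : (Y → Q) ≃ {f : Y → Q // f y = 1} × Q :=
    { toFun := fun f => (⟨Function.update f y 1, by simp⟩, f y)
      invFun := fun p => Function.update p.1.1 y p.2
      left_inv := by
        intro f
        simp
      right_inv := by
        rintro ⟨⟨f, hf⟩, c⟩
        simp only [Prod.mk.injEq, Subtype.mk.injEq, Function.update_self, and_true,
          Function.update_idem]
        rw [← hf, Function.update_eq_self] }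
  rw [← Nat.card_prod, ← Nat.card_congr E', Nat.card_fun, Nat.card_eq_fintype_card (α := Y)]

theorem lift_comm [Fintype Y] {Q : Type} [CommGroup Q] (f : Y → Q) (w : FreeGroup Y) :
    FreeGroup.lift f w = ∏ y, f y ^ (Multiplicative.toAdd (exps y w)) := by
  classical
  let ψ : FreeGroup Y →* Q := MonoidHom.mk'
    (fun w => ∏ y, f y ^ (Multiplicative.toAdd (exps y w))) (by
      intro a b
      rw [← Finset.prod_mul_distrib]
      refine Finset.prod_congr rfl fun y _ => ?_
      rw [map_mul, toAdd_mul, zpow_add])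
  have h3 : FreeGroup.lift f = ψ := by
    apply FreeGroup.ext_hom
    intro x
    change _ = ∏ y, f y ^ (Multiplicative.toAdd (exps y (FreeGroup.of x)))
    rw [FreeGroup.lift_apply_of, Finset.prod_eq_single x]
    · rw [exps_self]
      simp
    · intro y _ hy
      rw [exps_ne hy.symm]
      simp
    · intro h
      exact absurd (Finset.mem_univ _) h
  exact DFunLike.congr_fun h3 w

/-- the number of homomorphisms to `Z / 2` when all exponent sums are even -/
theorem card_even_rel [Fintype Y] (r : FreeGroup Y)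
    (hr : ∀ y, Even (Multiplicative.toAdd (exps y r))) :
    Nat.card (PresentedGroup ({r} : Set (FreeGroup Y)) →* Multiplicative (ZMod 2)) =
      2 ^ Fintype.card Y := by
  rw [Nat.card_congr (Su.homPres r (Multiplicative (ZMod 2)))]
  have h2 : ∀ u : Multiplicative (ZMod 2), u ^ 2 = 1 := by decide
  have h1 : ∀ f : Y → Multiplicative (ZMod 2), FreeGroup.lift f r = 1 := by
    intro f
    rw [lift_comm]
    refine Finset.prod_eq_one fun y _ => ?_
    obtain ⟨m, hm⟩ := hr y
    rw [hm, ← two_mul, zpow_mul, zpow_ofNat, h2, one_zpow]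
  rw [Nat.card_congr (Equiv.subtypeUnivEquiv h1), Nat.card_fun,
    Nat.card_eq_fintype_card (α := Y)]
  congr 1
  exact Nat.card_zmod 2

theorem cls_two : Cls (Multiplicative (ZMod 2)) :=
  ⟨fun c _ => by revert c; decide, by decide, by decide⟩

theorem cls_dih : Cls (DihedralGroup 4) :=
  ⟨by decide, by decide, by decide⟩

end count

theorem card_dih : Nat.card (DihedralGroup 4) = 8 := DihedralGroup.nat_card

/-- the surface group has fewer homomorphisms to the group of order `8` -/
theorem card_surf_dih {g : ℕ} (hg : 1 ≤ g) :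
    Nat.card (Su.SurfaceGroup g →* DihedralGroup 4) < 8 ^ (2 * g) := by
  obtain ⟨k, rfl⟩ := Nat.exists_eq_add_of_le' hg
  rw [Nat.card_congr (Su.homEquiv (k + 1) (DihedralGroup 4))]
  have h1 : Nat.card (Fin (k + 1) → DihedralGroup 4 × DihedralGroup 4) = 8 ^ (2 * (k + 1)) := by
    rw [Nat.card_fun, Nat.card_prod, card_dih, Nat.card_eq_fintype_card, Fintype.card_fin,
      pow_mul]
    norm_num
  rw [← h1]
  have h5 : ({t : Fin (k + 1) → DihedralGroup 4 × DihedralGroup 4 |
    (List.ofFn fun i => ⁅(t i).1, (t i).2⁆).prod = 1} ⊂ Set.univ) → _ :=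
    fun h => Set.ncard_lt_ncard h (Set.toFinite Set.univ)
  rw [Set.ncard_univ] at h5
  refine h5 ?_
  rw [Set.ssubset_univ_iff, Set.ne_univ_iff_exists_notMem]
  refine ⟨fun i => if i = 0 then (DihedralGroup.r 1, DihedralGroup.sr 0) else (1, 1), ?_⟩
  intro h
  have h2 : (List.ofFn fun i : Fin (k + 1) =>
      ⁅((fun i : Fin (k + 1) => if i = 0 then ((DihedralGroup.r 1, DihedralGroup.sr 0) :
        DihedralGroup 4 × DihedralGroup 4) else (1, 1)) i).1,
        ((fun i : Fin (k + 1) => if i = 0 then ((DihedralGroup.r 1, DihedralGroup.sr 0) :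
        DihedralGroup 4 × DihedralGroup 4) else (1, 1)) i).2⁆).prod = 1 := h
  rw [List.ofFn_succ, List.prod_cons] at h2
  have h3 : (List.ofFn fun i : Fin k =>
      ⁅((fun i : Fin (k + 1) => if i = 0 then ((DihedralGroup.r 1, DihedralGroup.sr 0) :
        DihedralGroup 4 × DihedralGroup 4) else (1, 1)) i.succ).1,
        ((fun i : Fin (k + 1) => if i = 0 then ((DihedralGroup.r 1, DihedralGroup.sr 0) :
        DihedralGroup 4 × DihedralGroup 4) else (1, 1)) i.succ).2⁆).prod = 1 := by
    have h4 : (fun i : Fin k =>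
      ⁅((fun i : Fin (k + 1) => if i = 0 then ((DihedralGroup.r 1, DihedralGroup.sr 0) :
        DihedralGroup 4 × DihedralGroup 4) else (1, 1)) i.succ).1,
        ((fun i : Fin (k + 1) => if i = 0 then ((DihedralGroup.r 1, DihedralGroup.sr 0) :
        DihedralGroup 4 × DihedralGroup 4) else (1, 1)) i.succ).2⁆) = fun _ => 1 := by
      funext i
      simp only [if_neg (Fin.succ_ne_zero i)]
      exact commutatorElement_self _
    rw [h4, List.ofFn_const, List.prod_replicate, one_pow]
  rw [h3, mul_one] at h2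
  simp only [if_pos rfl] at h2
  exact absurd h2 (by decide)

/-- **the number of generators** -/
theorem rank_one_rel {Y : Type} [Fintype Y] {g : ℕ} (hg : 1 ≤ g) (r : FreeGroup Y)
    (h2 : Nat.card (PresentedGroup ({r} : Set (FreeGroup Y)) →* Multiplicative (ZMod 2)) =
      2 ^ (2 * g))
    (hle : Nat.card (PresentedGroup ({r} : Set (FreeGroup Y)) →* DihedralGroup 4) ≤
      Nat.card (Su.SurfaceGroup g →* DihedralGroup 4)) : Fintype.card Y = 2 * g := by
  by_cases hr : ∀ y, Even (Multiplicative.toAdd (exps y r))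
  · rw [card_even_rel r hr] at h2
    exact Nat.pow_right_injective le_rfl h2
  · push Not at hr
    obtain ⟨y, hy⟩ := hr
    rw [Int.not_even_iff_odd] at hy
    exfalso
    have e1 := card_odd_rel cls_two y r hy
    have e2 := card_odd_rel cls_dih y r hy
    have e3 : Nat.card (Multiplicative (ZMod 2)) = 2 := Nat.card_zmod 2
    rw [h2, e3, ← pow_succ] at e1
    have e4 : 2 * g + 1 = Fintype.card Y := Nat.pow_right_injective le_rfl e1
    rw [card_dih, ← e4, pow_succ] at e2
    have e5 := Nat.eq_of_mul_eq_mul_right (by norm_num) e2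
    have e6 := card_surf_dih hg
    omega

section final

variable {G : Type} [Group G] {g : ℕ} {L : Type} [Group L]

/-- **END for an amalgam of free subgroups**, without the hypothesis on the ranks -/
theorem surf_of_am_rk (hg : 1 ≤ g) (Φ : NatBij L (Su.SurfaceGroup g)) (π : L →* G)
    (hπ : Function.Surjective π) (hk : SuPts.KerSL π) {A A' : Subgroup G} {z : G} (hz : LgOrd z)
    (h : AmUP G A A' z) {X X' : Type} [Finite X] [Finite X'] (e : FreeGroup X ≃* A)
    (e' : FreeGroup X' ≃* A') :
    Nonempty (G ≃* Su.SurfaceGroup g) := by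
  have : Fintype X := Fintype.ofFinite X
  have : Fintype X' := Fintype.ofFinite X'
  obtain ⟨E, hE⟩ := am_presented h e e'
  have hG : Group.FG G := Group.fg_of_surjective (f := E.symm.toMonoidHom.comp
    (PresentedGroup.mk _)) (E.symm.surjective.comp (PresentedGroup.mk_surjective _))
  have hcard : ∀ (Q : Type) [Group Q], Nat.card (PresentedGroup
      ({amRel (e.symm ⟨z, h.mem⟩) (e'.symm ⟨z, h.mem'⟩)} : Set (FreeGroup (X ⊕ X'))) →* Q) =
        Nat.card (G →* Q) := fun Q _ => Nat.card_congr (MulEquiv.monoidHomCongrLeftEquiv E.symm)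
  have hX := rank_one_rel hg _ (by rw [hcard]; exact SuPts.card_cyc hπ hk Φ 2 two_pos)
    (by rw [hcard]; exact SuPts.card_le hπ Φ _)
  rw [Fintype.card_sum] at hX
  exact surf_of_am_lg hX Φ π hπ hk hz h e e'

/-- **END for an HNN extension of a free subgroup**, without the hypothesis on the rank -/
theorem surf_of_hn_rk (hg : 1 ≤ g) (Φ : NatBij L (Su.SurfaceGroup g)) (π : L →* G)
    (hπ : Function.Surjective π) (hk : SuPts.KerSL π) {A : Subgroup G} {t z₀ z₁ : G}
    (hz : LgOrd z₀) (h : HnUP G A t z₀ z₁) {X : Type} [Finite X] (e : FreeGroup X ≃* A) :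
    Nonempty (G ≃* Su.SurfaceGroup g) := by
  have : Fintype X := Fintype.ofFinite X
  obtain ⟨E, hE⟩ := hn_presented h e
  have hG : Group.FG G := Group.fg_of_surjective (f := E.symm.toMonoidHom.comp
    (PresentedGroup.mk _)) (E.symm.surjective.comp (PresentedGroup.mk_surjective _))
  have hcard : ∀ (Q : Type) [Group Q], Nat.card (PresentedGroup
      ({hnRel (fun b => if b then e.symm ⟨z₁, h.mem1⟩ else e.symm ⟨z₀, h.mem0⟩)} :
        Set (FreeGroup (Option X))) →* Q) =
        Nat.card (G →* Q) := fun Q _ => Nat.card_congr (MulEquiv.monoidHomCongrLeftEquiv E.symm)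
  have hX := rank_one_rel hg _ (by rw [hcard]; exact SuPts.card_cyc hπ hk Φ 2 two_pos)
    (by rw [hcard]; exact SuPts.card_le hπ Φ _)
  rw [Fintype.card_option] at hX
  exact surf_of_hn_lg hX Φ π hπ hk hz h e

/-- **END for a group acting on a tree** with one orbit of edges, two orbits of vertices, cyclic
edge groups, finitely generated free vertex groups -/
theorem surf_of_tree_am_rk (hg : 1 ≤ g) (Φ : NatBij L (Su.SurfaceGroup g))
    (π : L →* G) (hπ : Function.Surjective π) (hk : SuPts.KerSL π)
    {V : Type} [MulAction G V] {X : SimpleGraph V}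
    (hT : TA G X) {u v : V} (huv : X.Adj u v) (hoe : OE G X u v)
    (hno : ∀ g : G, g • u ≠ v) (z : G) (hz : ES G u v = Subgroup.zpowers z) (hlg : LgOrd z)
    {Y Y' : Type} [Finite Y] [Finite Y']
    (e : FreeGroup Y ≃* MulAction.stabilizer G u) (e' : FreeGroup Y' ≃* MulAction.stabilizer G v) :
    Nonempty (G ≃* Su.SurfaceGroup g) :=
  surf_of_am_rk hg Φ π hπ hk hlg (amUP_of_tree hT huv hoe hno z hz) e e'

/-- **END for a group acting on a tree** with one orbit of edges, one orbit of vertices, cyclic
edge groups, finitely generated free vertex groups -/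
theorem surf_of_tree_hn_rk (hg : 1 ≤ g) (Φ : NatBij L (Su.SurfaceGroup g))
    (π : L →* G) (hπ : Function.Surjective π) (hk : SuPts.KerSL π)
    {V : Type} [MulAction G V] {X : SimpleGraph V} {v : V} {t : G} (h : HT G X v t) (z : G)
    (hz : ES G v (t • v) = Subgroup.zpowers z) (hlg : LgOrd z)
    {Y : Type} [Finite Y] (e : FreeGroup Y ≃* MulAction.stabilizer G v) :
    Nonempty (G ≃* Su.SurfaceGroup g) := by
  refine surf_of_hn_rk hg Φ π hπ hk ?_ (hnUP_of_tree h z hz) e
  have h1 := hlg.conj t⁻¹
  rw [inv_inv] at h1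
  exact h1

end final

end Pool.Agent.SuE
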