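import Pool.Agent.Lib.MP_305fdd_al.Su.E.Graph
import Mathlib.Logic.Equiv.Fin.Rotate
import Mathlib.Algebra.BigOperators.Fin

/-!
# MP_305fdd_al, surface groups, END block: the property (T)

`TProp z` for a family `z` of elements of a free group, see /team-store/MP_305fdd_surfend_h79.md.
`twice` : it implies that there is a basis in which every letter occurs exactly twice in the
reduced cyclic words of the `z i`.
-/

set_option autoImplicit false
set_option linter.unusedSectionVars false

namespace Pool.Agent.SuE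

open Pool.Agent.SuD

/-- the property (T) -/
def TProp {X ι : Type} [Fintype ι] (z : ι → FreeGroup X) : Prop :=
  ∀ (M : Type) [AddCommGroup M] [Module (ZMod 2) M] [Finite M]
    (ρ : FreeGroup X →* (M ≃ₗ[ZMod 2] M)) (κ : ι → (M →ₗ[ZMod 2] ZMod 2)),
    (∀ i m, κ i (ρ (z i) m) = κ i m) →
    (∀ al ∈ Crs ρ M, ∑ i, κ i (al (z i)) = 0) →
    ∀ i j g m, κ i m = κ j (ρ g m)

/-- the product of the `z i` is trivial modulo `2` -/
def EvP {X ι : Type} [Fintype ι] (z : ι → FreeGroup X) : Prop :=
  ∀ χ : FreeGroup X → ZMod 2, (∀ g h, χ (g * h) = χ g + χ h) → ∑ i, χ (z i) = 0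

section inv

variable {X ι : Type} [Fintype ι] {z w : ι → FreeGroup X} (σ : FreeGroup X ≃* FreeGroup X)
  (c : ι → FreeGroup X)

theorem EvP.conj (hz : EvP z) (hw : ∀ i, w i = c i * σ (z i) * (c i)⁻¹) : EvP w := by
  intro χ hχ
  have h1 : χ 1 = 0 := by
    have := hχ 1 1
    rw [mul_one] at this
    exact left_eq_add.1 this
  have h2 : ∀ g, χ g + χ g⁻¹ = 0 := by
    intro g
    rw [← hχ, mul_inv_cancel, h1]
  have h3 := hz (fun g => χ (σ g)) (fun g h => by rw [map_mul, hχ])
  rw [← h3]
  apply Finset.sum_congr rfl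
  intro i _
  rw [hw, hχ, hχ]
  linear_combination h2 (c i)

theorem TProp.conj (hz : TProp z) (hw : ∀ i, w i = c i * σ (z i) * (c i)⁻¹) : TProp w := by
  intro M _ _ _ ρ' κ' h1 h2
  have hmul : ∀ (g h : FreeGroup X) (m : M), ρ' (g * h) m = ρ' g (ρ' h m) := by
    intro g h m
    rw [map_mul]
    rfl
  have hone : ∀ m : M, ρ' 1 m = m := by
    intro m
    rw [map_one]
    rfl
  have h3 := hz M (ρ'.comp σ.toMonoidHom) (fun i => (κ' i).comp (ρ' (c i)).toLinearMap)
    (by
      intro i m
      change κ' i (ρ' (c i) (ρ' (σ (z i)) m)) = κ' i (ρ' (c i) m)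
      rw [← h1 i (ρ' (c i) m), hw, ← hmul, ← hmul]
      congr 3
      group)
    (by
      intro al hal
      have hal' : (fun g => al (σ.symm g)) ∈ Crs ρ' M := by
        intro g h
        have h4 := hal (σ.symm g) (σ.symm h)
        rw [← map_mul] at h4
        simp only at h4 ⊢
        rw [h4]
        congr 1
        change ρ' (σ (σ.symm g)) (al (σ.symm h)) = ρ' g (al (σ.symm h))
        rw [MulEquiv.apply_symm_apply]
      have h5 := h2 _ hal'
      rw [← h5]
      apply Finset.sum_congr rfl
      intro i _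
      have h6 : κ' i (al (σ.symm (w i))) = κ' i (al (σ.symm (c i))) +
          κ' i (ρ' (c i) (al (z i))) - κ' i (al (σ.symm (c i))) := by
        have e1 : (fun g => al (σ.symm g)) (w i) = (fun g => al (σ.symm g)) (c i) +
            ρ' (c i) (al (z i)) - ρ' (w i) ((fun g => al (σ.symm g)) (c i)) := by
          have e2 : w i * c i = c i * σ (z i) := by
            rw [hw]
            group
          have e3 := Crs.map_mul hal' (w i) (c i)
          have e4 := Crs.map_mul hal' (c i) (σ (z i))
          rw [e2, e4] at e3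
          simp only [MulEquiv.symm_apply_apply] at e3 ⊢
          change al (σ.symm (c i)) + ρ' (c i) (al (z i)) =
            al (σ.symm (w i)) + ρ' (w i) (al (σ.symm (c i))) at e3
          rw [e3, add_sub_cancel_right]
        simp only at e1
        rw [e1, map_sub, map_add, h1]
      rw [h6, add_sub_cancel_left]
      rfl)
  intro i j g m
  have h7 := h3 i j (σ.symm ((c j)⁻¹ * g * c i)) (ρ' (c i)⁻¹ m)
  change κ' i (ρ' (c i) (ρ' (c i)⁻¹ m)) =
    κ' j (ρ' (c j) (ρ' (σ (σ.symm ((c j)⁻¹ * g * c i))) (ρ' (c i)⁻¹ m))) at h7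
  rw [MulEquiv.apply_symm_apply, ← hmul, ← hmul, ← hmul, mul_inv_cancel, hone] at h7
  rw [h7]
  congr 3
  group

end inv

end Pool.Agent.SuE
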