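import Pool.Agent.Lib.MP_305fdd_al.Su.E.Use
import Pool.Agent.Lib.MP_305fdd_al.Su.Tr.Set

/-!
# MP_305fdd_al, surface groups, END block: actions on trees

`amUP_of_tree`, `hnUP_of_tree` : a group which acts on a tree without inversions with one orbit of
edges and cyclic edge groups is an honest amalgam or an honest HNN extension (in the sense of
`AmUP`, `HnUP`).
-/

set_option autoImplicit false
set_option linter.unusedSectionVars false

namespace Pool.Agent.SuE

open Pool.Agent.SuUp Pool.Agent.FrT Pool.Agent.SuT Monoid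

variable {G : Type} [Group G] {V : Type} [MulAction G V] {X : SimpleGraph V}

theorem amUP_of_tree (hT : TA G X) {u v : V} (huv : X.Adj u v) (hoe : OE G X u v)
    (hno : ∀ g : G, g • u ≠ v) (z : G) (hz : ES G u v = Subgroup.zpowers z) :
    AmUP G (MulAction.stabilizer G u) (MulAction.stabilizer G v) z := by
  let S : Fin 2 → Subgroup G := fun i => if i = 0 then MulAction.stabilizer G u else
    MulAction.stabilizer G v
  have hC : ∀ i, SC G u v ≤ S i := by
    intro i
    fin_cases i
    · exact inf_le_left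
    · exact inf_le_right
  have hbij := amalg hT.act hT.tree (fun g => hT.noinv g _ _ huv) huv
    (fun g h => hno g (hoe.rch.1 h)) S (hoe.sst hT.act u).symm (hoe.sst hT.act v).symm hC
  set φ : ∀ i, SC G u v →* S i := fun i => Subgroup.inclusion (hC i) with hφ
  set nat : PushoutI φ →* G := PushoutI.lift (φ := φ)
      (fun i => (S i).subtype) (SC G u v).subtype (fun i => by ext x; rfl) with hnat
  have hnat_of : ∀ i (a : S i), nat (PushoutI.of i a) = a := by
    intro i a
    rw [hnat, PushoutI.lift_of]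
    rfl
  have hbij' : Function.Bijective nat := hbij
  let Φ : PushoutI φ ≃* G := MulEquiv.ofBijective nat hbij'
  have hΦ : ∀ i (a : S i), Φ.symm (a : G) = PushoutI.of i a := by
    intro i a
    rw [MulEquiv.symm_apply_eq]
    exact (hnat_of i a).symm
  have hzz : z ∈ ES G u v := by
    rw [hz]
    exact Subgroup.mem_zpowers z
  refine ⟨hzz.1, hzz.2, ?_, ?_⟩
  · rw [eq_top_iff]
    intro g _
    obtain ⟨w, rfl⟩ := hbij'.2 g
    induction w using PushoutI.induction_on with
    | of i a =>
      rw [hnat_of]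
      fin_cases i
      · exact Subgroup.mem_sup_left a.2
      · exact Subgroup.mem_sup_right a.2
    | base c =>
      have h0 := PushoutI.of_apply_eq_base φ 0 c
      rw [← h0, hnat_of]
      exact Subgroup.mem_sup_left (φ 0 c).2
    | mul x y hx hy =>
      rw [map_mul]
      exact Subgroup.mul_mem _ (hx trivial) (hy trivial)
  · intro H _ f f' hff
    let fi : ∀ i, S i →* H := fun i =>
      match i with
      | 0 => f
      | 1 => f'
    let base : SC G u v →* H := (fi 0).comp (φ 0)
    have hcomp : ∀ i, (fi i).comp (φ i) = base := by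
      intro i
      fin_cases i
      · rfl
      · ext c : 1
        obtain ⟨c, hc⟩ := c
        have hc' : c ∈ Subgroup.zpowers z := by rw [← hz]; exact hc
        obtain ⟨k, rfl⟩ := hc'
        change f' ⟨z ^ k, _⟩ = f ⟨z ^ k, _⟩
        have e1 : (⟨z ^ k, hc.2⟩ : MulAction.stabilizer G v) = ⟨z, hzz.2⟩ ^ k := rfl
        have e2 : (⟨z ^ k, hc.1⟩ : MulAction.stabilizer G u) = ⟨z, hzz.1⟩ ^ k := rfl
        rw [e1, e2, map_zpow, map_zpow, hff]
    let ψ : PushoutI φ →* H := PushoutI.lift fi base hcomp
    have hψ : ∀ i (a : S i), ψ (PushoutI.of i a) = fi i a :=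
      fun i a => PushoutI.lift_of fi base hcomp a
    refine ⟨ψ.comp Φ.symm.toMonoidHom, ?_, ?_⟩
    · intro a
      change ψ (Φ.symm a) = _
      have h1 : Φ.symm (a : G) = PushoutI.of (φ := φ) 0 a := hΦ 0 a
      rw [h1, hψ]
    · intro a
      change ψ (Φ.symm a) = _
      have h1 : Φ.symm (a : G) = PushoutI.of (φ := φ) 1 a := hΦ 1 a
      rw [h1, hψ]

theorem hnUP_of_tree {v : V} {t : G} (h : HT G X v t) (z : G)
    (hz : ES G v (t • v) = Subgroup.zpowers z) :
    HnUP G (MulAction.stabilizer G v) t (t⁻¹ * z * t) z := by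
  have hsst := h.oe.sst h.act v
  obtain ⟨A, hA⟩ : ∃ A, A = MulAction.stabilizer G v := ⟨_, rfl⟩
  rw [← hA] at hsst ⊢
  obtain ⟨C₁, C₂, φ, hC1, hC2, hφ⟩ := hnn_data h.act t (Rch.refl X v (t • v) (t • v))
    A hsst.symm
  have hbij := hnn h.act h.tree (fun g => h.noinv g _ _ h.adj) h.adj t
    (Rch.refl X v (t • v) (t • v)) A hsst.symm C₁ C₂ hC1 hC2 φ hφ
  set nat : HNNExtension A C₁ C₂ φ →* G := HNNExtension.lift (φ := φ) A.subtype t
      (fun a => by rw [Subgroup.subtype_apply, Subgroup.subtype_apply, hφ]; group) with hnat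
  have hnat_of : ∀ (a : A), nat (HNNExtension.of a) = a := by
    intro a
    rw [hnat, HNNExtension.lift_of]
    rfl
  have hnat_t : nat HNNExtension.t = t := by
    rw [hnat, HNNExtension.lift_t]
  have hbij' : Function.Bijective nat := hbij
  let Φ : HNNExtension A C₁ C₂ φ ≃* G := MulEquiv.ofBijective nat hbij'
  have hΦ : ∀ a : A, Φ.symm (a : G) = HNNExtension.of a := by
    intro a
    rw [MulEquiv.symm_apply_eq]
    exact (hnat_of a).symm
  have hΦt : Φ.symm t = HNNExtension.t := by
    rw [MulEquiv.symm_apply_eq]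
    exact hnat_t.symm
  have hzz : z ∈ ES G v (t • v) := by
    rw [hz]
    exact Subgroup.mem_zpowers z
  have hz0 : t⁻¹ * z * t ∈ A := by
    rw [hA, MulAction.mem_stabilizer_iff, mul_smul, mul_smul,
      MulAction.mem_stabilizer_iff.1 hzz.2, inv_smul_smul]
  have hz1 : z ∈ A := by
    rw [hA]
    exact hzz.1
  refine ⟨hz0, hz1, by group, ?_, ?_⟩
  · rw [eq_top_iff]
    intro g _
    obtain ⟨w, rfl⟩ := hbij'.2 g
    induction w using HNNExtension.induction_on with
    | of a =>
      rw [hnat_of]
      exact Subgroup.mem_sup_left a.2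
    | t =>
      rw [hnat_t]
      exact Subgroup.mem_sup_right (Subgroup.mem_zpowers _)
    | mul x y hx hy =>
      rw [map_mul]
      exact Subgroup.mul_mem _ (hx trivial) (hy trivial)
    | inv x hx =>
      rw [map_inv]
      exact Subgroup.inv_mem _ (hx trivial)
  · intro H _ f τ hτ
    let ψ : HNNExtension A C₁ C₂ φ →* H :=
      HNNExtension.lift (φ := φ) f τ (by
        intro a
        have h1 := (hC1 _).1 a.2
        have h2 : t * ((a : A) : G) * t⁻¹ ∈ Subgroup.zpowers z := by rw [← hz]; exact h1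
        obtain ⟨k, hk⟩ := h2
        have e1 : (a : A) = ⟨t⁻¹ * z * t, hz0⟩ ^ k := by
          apply Subtype.ext
          have e2 : ((⟨t⁻¹ * z * t, hz0⟩ ^ k : A) : G) = (t⁻¹ * z * t) ^ k := rfl
          have e3 : (t⁻¹ * z * t) ^ k = t⁻¹ * z ^ k * t := by
            have := conj_zpow (a := t⁻¹) (b := z) (i := k)
            rw [inv_inv] at this
            exact this
          rw [e2, e3]
          have hk' : z ^ k = t * ((a : A) : G) * t⁻¹ := hk
          rw [hk']
          group
        have e4 : (φ a : A) = ⟨z, hz1⟩ ^ k := by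
          apply Subtype.ext
          rw [hφ]
          exact hk.symm
        rw [e4, map_zpow, e1, map_zpow, ← hτ, conj_zpow, inv_mul_cancel_right])
    have hψ : ∀ a : A, ψ (HNNExtension.of a) = f a := fun a => HNNExtension.lift_of _ _ _ a
    have hψt : ψ HNNExtension.t = τ := HNNExtension.lift_t _ _ _
    refine ⟨ψ.comp Φ.symm.toMonoidHom, ?_, ?_⟩
    · intro a
      change ψ (Φ.symm a) = _
      rw [hΦ, hψ]
    · change ψ (Φ.symm t) = _
      rw [hΦt, hψt]

end Pool.Agent.SuE
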