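import Pool.Agent.Lib.MP_305fdd_al.Su.E.Pos

/-!
# MP_305fdd_al, surface groups, END block: every letter occurs exactly twice
-/

set_option autoImplicit false
set_option linter.unusedSectionVars false

namespace Pool.Agent.SuE

open Pool.Agent.SuD

variable {X ι : Type} [Fintype X] [DecidableEq X] [Fintype ι] [DecidableEq ι]
  {L : ι → List (X × Bool)}

theorem const_of_TProp (hne : ∀ i, L i ≠ []) (hR : Red (yy L) (nn L))
    (hT : TProp fun i => FreeGroup.mk (L i)) :
    ∀ s ∈ ZZ (yy L) (nn L), ∀ e e', s e = s e' := by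
  have hn : ∀ i, 0 < (L i).length := fun i => List.length_pos_iff.2 (hne i)
  let q : ι → ℕ → Ps L := fun i k => ⟨i, ⟨k % (L i).length, Nat.mod_lt _ (hn i)⟩⟩
  have hq : ∀ i k, nn L (q i k) = q i (k + 1) := by
    intro i k
    refine Sigma.ext rfl (heq_of_eq (Fin.ext ?_))
    change (finRotate _ (⟨k % (L i).length, Nat.mod_lt _ (hn i)⟩ : Fin (L i).length)).val =
      (k + 1) % (L i).length
    rw [rot_val]
    simp
  have hqn : ∀ i, q i (L i).length = q i 0 := by
    intro i
    refine Sigma.ext rfl (heq_of_eq (Fin.ext ?_))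
    change (L i).length % (L i).length = 0 % (L i).length
    simp
  have hqk : ∀ i (k : Fin (L i).length), q i k.val = ⟨i, k⟩ := by
    intro i k
    refine Sigma.ext rfl (heq_of_eq (Fin.ext ?_))
    exact Nat.mod_eq_of_lt k.2
  let W : ι → ℕ → FreeGroup X := fun i k => FreeGroup.mk ((L i).take k)
  have hW0 : ∀ i, W i 0 = 1 := by
    intro i
    simp [W, FreeGroup.one_eq_mk]
  have hWn : ∀ i, W i (L i).length = FreeGroup.mk (L i) := by
    intro i
    simp [W]
  have hWs : ∀ i, ∀ k < (L i).length, W i (k + 1) = W i k * gn (yy L (q i k)) := by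
    intro i k hk
    have h1 : yy L (q i k) = (L i)[k] := by
      change (L i)[k % (L i).length]'(Nat.mod_lt _ (hn i)) = (L i)[k]
      congr 1
      exact Nat.mod_eq_of_lt hk
    rw [h1]
    change FreeGroup.mk ((L i).take (k + 1)) = FreeGroup.mk ((L i).take k) * gn (L i)[k]
    rw [List.take_succ_eq_append_getElem hk, mk_append]
    rfl
  let κ : ι → (ZZ (yy L) (nn L) →ₗ[ZMod 2] ZMod 2) := fun i =>
    (LinearMap.proj ((nn L).symm (q i 0))).comp (ZZ (yy L) (nn L)).subtype
  have hκ : ∀ i (s : ZZ (yy L) (nn L)), κ i s = (s : Ps L → ZMod 2) ((nn L).symm (q i 0)) :=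
    fun i s => rfl
  have hcw := fun i => coord_word hR (q i) (hq i) (W i) (hW0 i) (L i).length (hWs i)
  have key := hT (ZZ (yy L) (nn L)) (rho hR) κ
    (by
      intro i s
      rw [hκ, hκ]
      beta_reduce
      rw [← hWn, hcw i _ le_rfl, hqn])
    (by
      intro al hal
      rw [← sum_al hR hal, Fintype.sum_sigma]
      apply Finset.sum_congr rfl
      intro i _
      rw [hκ]
      beta_reduce
      rw [← hWn, al_word hR hal (q i) (hq i) (W i) (hW0 i) (L i).length (hWs i) _ le_rfl,
        Finset.sum_range]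
      apply Finset.sum_congr rfl
      intro k _
      rw [hqk])
  have hco : ∀ (s : ZZ (yy L) (nn L)) (e : Ps L), (s : Ps L → ZMod 2) e = κ e.1 s := by
    intro s e
    rw [key e.1 e.1 (W e.1 (nn L e).2.val) s, hκ]
    have h1 := hcw e.1 (nn L e).2.val (nn L e).2.2.le s
    rw [h1]
    have h2 : q e.1 (nn L e).2.val = nn L e := hqk (nn L e).1 (nn L e).2
    rw [h2, Equiv.symm_apply_apply]
  intro s hs e e'
  have h1 := hco ⟨s, hs⟩ e
  have h2 := hco ⟨s, hs⟩ e'
  have h3 := key e.1 e'.1 1 ⟨s, hs⟩
  rw [map_one] at h3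
  rw [show s e = _ from h1, show s e' = _ from h2, h3]
  rfl

/-- the number of occurrences of `x` and `x⁻¹` -/
def occ (x : X) (l : List (X × Bool)) : ℕ := l.count (x, true) + l.count (x, false)

theorem occ_cons (x : X) (v : X × Bool) (l : List (X × Bool)) :
    occ x (v :: l) = occ x l + if v.1 = x then 1 else 0 := by
  rcases v with ⟨x', b⟩
  unfold occ
  rw [List.count_cons, List.count_cons]
  by_cases h : x' = x
  · subst h
    cases b
    · simp
      omega
    · simp
      omega
  · have h1 : ∀ b' : Bool, ((x', b) == (x, b')) = false := by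
      intro b'
      rw [beq_eq_false_iff_ne]
      intro h'
      exact h (Prod.ext_iff.1 h').1
    simp [h1, h]

theorem occ_eq (x : X) (l : List (X × Bool)) :
    occ x l = (l.map fun v => if v.1 = x then 1 else 0).sum := by
  induction l with
  | nil => simp [occ]
  | cons v l ih => rw [occ_cons, ih, List.map_cons, List.sum_cons, add_comm]

theorem card_occ (x : X) : (Finset.univ.filter fun e : Ps L => (yy L e).1 = x).card =
    ∑ i, occ x (L i) := by
  rw [Finset.card_filter, Fintype.sum_sigma]
  apply Finset.sum_congr rfl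
  intro i _
  rw [occ_eq]
  exact Fin.sum_univ_fun_getElem (L i) fun v : X × Bool => if v.1 = x then 1 else 0

/-- the exponent sum of `x` modulo `2` -/
noncomputable def chi (x : X) (g : FreeGroup X) : ZMod 2 :=
  Multiplicative.toAdd (FreeGroup.lift (fun x' => if x' = x then
    Multiplicative.ofAdd (1 : ZMod 2) else 1) g)

theorem chi_mul (x : X) (g h : FreeGroup X) : chi x (g * h) = chi x g + chi x h := by
  unfold chi
  rw [map_mul, toAdd_mul]

theorem chi_gn (x : X) (v : X × Bool) : chi x (gn v) = if v.1 = x then 1 else 0 := by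
  rcases v with ⟨x', b⟩
  have h1 : chi x (FreeGroup.of x') = if x' = x then 1 else 0 := by
    unfold chi
    rw [FreeGroup.lift_apply_of]
    split_ifs <;> rfl
  cases b
  · have h2 := chi_mul x (gn (x', true)) (gn (x', false))
    rw [gn_false, gn_true, mul_inv_cancel, h1, ← gn_false] at h2
    have h3 : chi x 1 = 0 := by
      unfold chi
      rw [map_one]
      rfl
    rw [h3] at h2
    exact (two_eq _ _ h2.symm).symm
  · exact h1

theorem chi_mk (x : X) (l : List (X × Bool)) : chi x (FreeGroup.mk l) = (occ x l : ℕ) := by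
  induction l with
  | nil =>
    have h : chi x 1 = 0 := by
      unfold chi
      rw [map_one]
      rfl
    rw [← FreeGroup.one_eq_mk, h]
    simp [occ]
  | cons v l ih =>
    rw [mk_cons, chi_mul, ih, chi_gn, occ_cons]
    push_cast
    ring

theorem even_occ (hE : EvP fun i => FreeGroup.mk (L i)) (x : X) : Even (∑ i, occ x (L i)) := by
  rw [← ZMod.natCast_eq_zero_iff_even]
  push_cast
  rw [← hE (chi x) (chi_mul x)]
  apply Finset.sum_congr rfl
  intro i _
  rw [chi_mk]

/-- the homomorphism which kills `x` -/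
def prx (x : X) : FreeGroup X →* FreeGroup X :=
  FreeGroup.lift fun x' => if x' = x then 1 else FreeGroup.of x'

theorem prx_mk (x : X) (l : List (X × Bool)) (h : ∀ v ∈ l, v.1 ≠ x) :
    prx x (FreeGroup.mk l) = FreeGroup.mk l := by
  induction l with
  | nil => rw [← FreeGroup.one_eq_mk, map_one]
  | cons v l ih =>
    rw [mk_cons, map_mul, ih fun w hw => h w (List.mem_cons_of_mem _ hw)]
    congr 1
    have h1 : v.1 ≠ x := h v List.mem_cons_self
    rcases gn_fst v with h2 | h2 <;> rw [h2] <;> simp [prx, h1]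

theorem exists_occ [Nonempty ι] (hT : TProp fun i => FreeGroup.mk (L i))
    (hE : EvP fun i => FreeGroup.mk (L i)) (x : X) : ∃ i, ∃ v ∈ L i, v.1 = x := by
  by_contra hn
  push Not at hn
  let sw : (ZMod 2 × ZMod 2) ≃ₗ[ZMod 2] (ZMod 2 × ZMod 2) := LinearEquiv.prodComm _ _ _
  let ρ : FreeGroup X →* ((ZMod 2 × ZMod 2) ≃ₗ[ZMod 2] (ZMod 2 × ZMod 2)) :=
    FreeGroup.lift fun x' => if x' = x then sw else 1
  have hρ : ∀ g, ρ (prx x g) = 1 := by
    intro g
    have h1 : ρ.comp (prx x) = 1 := by
      apply FreeGroup.ext_hom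
      intro x'
      rw [MonoidHom.comp_apply, MonoidHom.one_apply]
      by_cases h : x' = x
      · simp [prx, h]
      · simp [prx, ρ, h]
    exact DFunLike.congr_fun h1 g
  have h0 := hT (ZMod 2 × ZMod 2) ρ (fun _ => LinearMap.fst _ _ _)
    (by
      intro i m
      beta_reduce
      rw [← prx_mk x (L i) (hn i), hρ]
      rfl)
    (by
      intro al hal
      have h1 := hE (fun g => (al (prx x g)).1) (by
        intro g h
        rw [map_mul, hal, hρ, one_smul]
        rfl)
      beta_reduce at h1 ⊢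
      rw [← h1]
      apply Finset.sum_congr rfl
      intro i _
      rw [prx_mk x (L i) (hn i)]
      rfl) (Classical.arbitrary ι) (Classical.arbitrary ι) (FreeGroup.of x) (1, 0)
  simp [ρ, sw] at h0

theorem occ_pos_of_mem {x : X} {l : List (X × Bool)} (h : ∃ v ∈ l, v.1 = x) : 0 < occ x l := by
  induction l with
  | nil => simp at h
  | cons w l ih =>
    rw [occ_cons]
    obtain ⟨v, hv, rfl⟩ := h
    rcases List.mem_cons.1 hv with rfl | hv
    · simp
    · have := ih ⟨v, hv, rfl⟩
      omega

/-- **the words**: in a suitable basis every letter occurs exactly twice -/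
theorem twice [Nonempty ι] (z : ι → FreeGroup X) (hz : ∀ i, z i ≠ 1) (hT : TProp z)
    (hE : EvP z) : ∃ (σ : FreeGroup X ≃* FreeGroup X) (c : ι → FreeGroup X)
      (L : ι → List (X × Bool)), (∀ i, FreeGroup.mk (L i) = c i * σ (z i) * (c i)⁻¹) ∧
        ∀ x, ∑ i, occ x (L i) = 2 := by
  classical
  let P : ℕ → Prop := fun n => ∃ (σ : FreeGroup X ≃* FreeGroup X) (c : ι → FreeGroup X)
      (L : ι → List (X × Bool)), (∀ i, FreeGroup.mk (L i) = c i * σ (z i) * (c i)⁻¹) ∧
        ∑ i, (L i).length = n
  have hP : ∃ n, P n := ⟨_, MulEquiv.refl _, fun _ => 1, fun i => (z i).toWord, fun i => by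
    simp [FreeGroup.mk_toWord], rfl⟩
  obtain ⟨σ, c, L, h1, h2⟩ := Nat.find_spec hP
  have hmin : ∀ n, P n → ∑ i, (L i).length ≤ n := by
    intro n hn
    rw [h2]
    exact Nat.find_min' hP hn
  refine ⟨σ, c, L, h1, ?_⟩
  have hT' : TProp fun i => FreeGroup.mk (L i) := hT.conj σ c h1
  have hE' : EvP fun i => FreeGroup.mk (L i) := hE.conj σ c h1
  have hne : ∀ i, L i ≠ [] := by
    intro i hi
    have h3 := h1 i
    rw [hi, ← FreeGroup.one_eq_mk] at h3
    apply hz i
    have h4 : σ (z i) = 1 := by
      have h5 : σ (z i) = (c i)⁻¹ * (c i * σ (z i) * (c i)⁻¹) * c i := by group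
      rw [h5, ← h3]
      group
    exact (map_eq_one_iff σ σ.injective).1 h4
  have hR : Red (yy L) (nn L) := by
    apply red_of_min
    intro a p _ ha'
    apply hmin
    choose d hd using fun i => mk_nc (a := a) (p := p) ha' (L i)
    refine ⟨σ.trans (tau a p), fun i => d i * tau a p (c i), fun i => nc a p (L i), ?_, rfl⟩
    intro i
    rw [hd i, h1 i, map_mul, map_mul, map_inv]
    simp only [MulEquiv.trans_apply, mul_inv_rev, mul_assoc]
  intro x
  have hc := const_of_TProp hne hR hT'
  have h3 := occ_le_two hR hc x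
  rw [card_occ] at h3
  have h4 := even_occ hE' x
  obtain ⟨i, hi⟩ := exists_occ hT' hE' x
  have h5 := occ_pos_of_mem hi
  have h6 : occ x (L i) ≤ ∑ i, occ x (L i) :=
    Finset.single_le_sum (f := fun i => occ x (L i)) (fun _ _ => Nat.zero_le _)
      (Finset.mem_univ i)
  obtain ⟨k, hk⟩ := h4
  omega

end Pool.Agent.SuE
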