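import Pool.Agent.Lib.MP_305fdd_al.Su.E.Gen
import Pool.Agent.Lib.MP_305fdd_al.Su.Emb

/-!
# MP_305fdd_al, surface groups: two lemmas for the going up step

`lgOrd_of_finiteIndex` : `LgOrd` passes from a subgroup of finite index to the group.
`exists_psi` : a finitely generated group with the finite quotients of the surface group of genus
`g ≥ 1` has a nontrivial homomorphism to `ℤ`.
-/

set_option autoImplicit false
set_option linter.unusedSectionVars false

namespace Pool.Agent.SuE

open Pool.Agent.Lib.MP_305fdd_al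

/-- `LgOrd` passes from a subgroup of finite index to the group -/
theorem lgOrd_of_finiteIndex {G : Type} [Group G] (H : Subgroup G) [H.FiniteIndex] {z : H}
    (h : LgOrd z) : LgOrd (z : G) := by
  intro N hN
  obtain ⟨Q, i1, i2, θ, hθ⟩ := h N hN
  let K : Subgroup G := θ.ker.map H.subtype
  have hK : K.FiniteIndex := by
    have h1 : θ.ker.FiniteIndex := inferInstance
    refine ⟨?_⟩
    rw [Subgroup.index_map, H.ker_subtype, sup_bot_eq, H.range_subtype]
    exact mul_ne_zero h1.index_ne_zero (Subgroup.FiniteIndex.index_ne_zero)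
  let K' : Subgroup G := K.normalCore
  have hK' : K'.FiniteIndex := inferInstance
  refine ⟨G ⧸ K', inferInstance, inferInstance, QuotientGroup.mk' K', ?_⟩
  refine dvd_trans hθ ?_
  rw [orderOf_dvd_iff_pow_eq_one]
  have h2 : (z : G) ^ orderOf (QuotientGroup.mk' K' (z : G)) ∈ K' := by
    rw [← QuotientGroup.eq_one_iff]
    have := pow_orderOf_eq_one (QuotientGroup.mk' K' (z : G))
    rw [← map_pow] at this
    exact this
  have h3 := Subgroup.normalCore_le K h2
  obtain ⟨x, hx, hxz⟩ := h3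
  have h4 : x = z ^ orderOf (QuotientGroup.mk' K' (z : G)) := Subtype.ext hxz
  have h5 : θ x = 1 := hx
  rw [h4, map_pow] at h5
  exact h5

/-- the same with an index hypothesis -/
theorem lgOrd_of_index_ne {G : Type} [Group G] (H : Subgroup G) (hH : H.index ≠ 0) {z : G}
    (hz : z ∈ H) (h : LgOrd (⟨z, hz⟩ : H)) : LgOrd z := by
  have : H.FiniteIndex := ⟨hH⟩
  exact lgOrd_of_finiteIndex H h

/-- large order of a power gives large order -/
theorem LgOrd.of_pow {G : Type} [Group G] {z : G} {k : ℕ} (h : LgOrd (z ^ k)) : LgOrd z := by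
  intro N hN
  obtain ⟨Q, i1, i2, θ, hθ⟩ := h N hN
  refine ⟨Q, i1, i2, θ, hθ.trans ?_⟩
  rw [map_pow]
  exact orderOf_pow_dvd k

/-- **a nontrivial homomorphism to the integers** -/
theorem exists_psi {g : ℕ} (hg : 1 ≤ g) {L : Type} [Group L] [Group.FG L]
    (Φ : NatBij L (Su.SurfaceGroup g)) :
    ∃ ψ : L →* Multiplicative ℤ, Function.Surjective ψ ∧ ∃ x, ψ x ≠ 1 := by
  have hk : SuPts.KerSL (MonoidHom.id L) := by
    intro k _ _ _ r x hx
    rw [MonoidHom.mem_ker, MonoidHom.id_apply] at hx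
    rw [hx]
    exact one_mem _
  obtain ⟨n, hn, q, hq⟩ := SuPts.exists_rank (Γ := L) Function.surjective_id hk Φ
  let i : Fin n := ⟨0, by omega⟩
  let p : Multiplicative (Fin n → ℤ) →* Multiplicative ℤ :=
    AddMonoidHom.toMultiplicative (Pi.evalAddMonoidHom (fun _ : Fin n => ℤ) i)
  have hp : Function.Surjective p := by
    intro v
    exact ⟨Multiplicative.ofAdd (fun _ => Multiplicative.toAdd v), rfl⟩
  have hpq : Function.Surjective (p.comp q) := hp.comp hq
  refine ⟨p.comp q, hpq, ?_⟩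
  obtain ⟨x, hx⟩ := hpq (Multiplicative.ofAdd 1)
  refine ⟨x, ?_⟩
  rw [hx]
  decide

/-- elements of infinite order of a surface group have large order -/
theorem lgOrd_surf {g : ℕ} (hg : 2 ≤ g) (z : Su.SurfaceGroup g) (hz : ∀ n, 0 < n → z ^ n ≠ 1) :
    LgOrd z := by
  obtain ⟨E, _, hE, φ, hφ⟩ := Su.exists_rep g hg
  have h1 : Algebra (ZMod 2) E := ZMod.algebra E 2
  have hfg : Group.FG (Su.SurfaceGroup g) :=
    Group.fg_of_surjective (PresentedGroup.mk_surjective _)
  exact lgOrd_of_inj hfg φ hφ z hz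

/-- elements of infinite order of a finite index overgroup of a surface group have large order -/
theorem lgOrd_over {g : ℕ} (hg : 2 ≤ g) {L : Type} [Group L] (H : Subgroup L)
    (hH : H.index ≠ 0) (e : H ≃* Su.SurfaceGroup g) (z : L) (hz : ∀ n, 0 < n → z ^ n ≠ 1) :
    LgOrd z := by
  have hf : H.FiniteIndex := ⟨hH⟩
  obtain ⟨k, hk, hzk⟩ : ∃ k, 0 < k ∧ z ^ k ∈ H := by
    obtain ⟨k, hk, _, hz⟩ := Subgroup.exists_pow_mem_of_index_ne_zero hH z
    exact ⟨k, hk, hz⟩
  have h1 : LgOrd (e ⟨z ^ k, hzk⟩) := by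
    apply lgOrd_surf hg
    intro n hn h
    rw [← map_pow, ← map_one e] at h
    have h2 := congrArg Subtype.val (e.injective h)
    have h3 : (z ^ k) ^ n = 1 := h2
    rw [← pow_mul] at h3
    exact hz _ (by positivity) h3
  have h2 : LgOrd (⟨z ^ k, hzk⟩ : H) := LgOrd.of_map e.toMonoidHom h1
  exact (lgOrd_of_index_ne H hH hzk h2).of_pow

/-- the same for the kernel of a homomorphism to a finite group -/
theorem lgOrd_ker {g : ℕ} (hg : 2 ≤ g) {L Q : Type} [Group L] [Group Q] [Finite Q] (θ : L →* Q)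
    (e : θ.ker ≃* Su.SurfaceGroup g) (z : L) (hz : ∀ n, 0 < n → z ^ n ≠ 1) : LgOrd z := by
  have : θ.ker.FiniteIndex := inferInstance
  exact lgOrd_over hg θ.ker this.index_ne_zero e z hz

end Pool.Agent.SuE
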