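import Pool.Agent.Lib.MP_305fdd_al.Su.E.Tree

/-!
# MP_305fdd_al, surface groups, END block: the versions with a hypothesis on orders

`LgOrd z` : every positive number divides the order of the image of `z` in some finite quotient.
`surf_of_am_lg`, `surf_of_hn_lg` : END for amalgams and HNN extensions of free subgroups.
`surf_of_tree_am`, `surf_of_tree_hn` : the same for actions on trees.
-/

set_option autoImplicit false
set_option linter.unusedSectionVars false

namespace Pool.Agent.SuE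

open Matrix Pool.Agent.Lib.MP_305fdd_al Pool.Agent.SuUp Pool.Agent.FrT Pool.Agent.SuT

/-- every positive number divides the order of the image of `z` in some finite quotient -/
def LgOrd {G : Type} [Group G] (z : G) : Prop :=
  ∀ N : ℕ, 0 < N → ∃ (Q : Type) (_ : Group Q) (_ : Finite Q) (θ : G →* Q), N ∣ orderOf (θ z)

theorem lgOrd_of_rep {G F : Type} [Group G] [Field F] [Algebra (ZMod 2) F] (hG : Group.FG G)
    (ρ : G →* SpecialLinearGroup (Fin 2) F) (z : G) (hz : ∀ n, 0 < n → ρ z ^ n ≠ 1) : LgOrd z :=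
  fun N hN => large_ord_rep ρ hG z hz N hN

theorem lgOrd_of_inj {G F : Type} [Group G] [Field F] [Algebra (ZMod 2) F] (hG : Group.FG G)
    (ρ : G →* SpecialLinearGroup (Fin 2) F) (hρ : Function.Injective ρ) (z : G)
    (hz : ∀ n, 0 < n → z ^ n ≠ 1) : LgOrd z := by
  apply lgOrd_of_rep hG ρ
  intro n hn h
  rw [← map_pow, ← map_one ρ] at h
  exact hz n hn (hρ h)

theorem LgOrd.of_map {G H : Type} [Group G] [Group H] (j : G →* H) {z : G} (h : LgOrd (j z)) :
    LgOrd z := by
  intro N hN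
  obtain ⟨Q, i1, i2, θ, hθ⟩ := h N hN
  exact ⟨Q, i1, i2, θ.comp j, hθ⟩

theorem LgOrd.sub {G : Type} [Group G] (L : Subgroup G) {z : L} (h : LgOrd (z : G)) : LgOrd z :=
  LgOrd.of_map L.subtype h

theorem LgOrd.equiv {G H : Type} [Group G] [Group H] (j : G ≃* H) {z : G} (h : LgOrd z) :
    LgOrd (j z) := by
  intro N hN
  obtain ⟨Q, i1, i2, θ, hθ⟩ := h N hN
  refine ⟨Q, i1, i2, θ.comp j.symm.toMonoidHom, ?_⟩
  change N ∣ orderOf (θ (j.symm (j z)))
  rw [MulEquiv.symm_apply_apply]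
  exact hθ

theorem LgOrd.pow {G : Type} [Group G] {z : G} (h : LgOrd z) {k : ℕ} (hk : 0 < k) :
    LgOrd (z ^ k) := by
  intro N hN
  obtain ⟨Q, i1, i2, θ, hθ⟩ := h (N * k) (by positivity)
  refine ⟨Q, i1, i2, θ, ?_⟩
  have h0 : 0 < orderOf (θ z) := orderOf_pos _
  have h1 : k ∣ orderOf (θ z) := dvd_trans (Dvd.intro_left N rfl) hθ
  rw [map_pow, orderOf_pow_of_dvd hk.ne' h1]
  obtain ⟨c, hc⟩ := hθ
  rw [hc]
  refine ⟨c, ?_⟩
  rw [show N * k * c = N * c * k by ring, Nat.mul_div_cancel _ hk]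

theorem LgOrd.conj {G : Type} [Group G] {z : G} (h : LgOrd z) (t : G) :
    LgOrd (t * z * t⁻¹) :=
  h.equiv (MulAut.conj t)

theorem LgOrd.zpow {G : Type} [Group G] {z : G} (h : LgOrd z) {k : ℤ} (hk : k ≠ 0) :
    LgOrd (z ^ k) := by
  intro N hN
  obtain ⟨Q, i1, i2, θ, hθ⟩ := h.pow (Int.natAbs_pos.2 hk) N hN
  refine ⟨Q, i1, i2, θ, ?_⟩
  rcases Int.natAbs_eq k with h1 | h1
  · rw [h1, zpow_natCast]
    exact hθ
  · rw [h1, _root_.zpow_neg, zpow_natCast, map_inv, orderOf_inv]
    exact hθ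

section am

variable {G X X' : Type} [Group G] {A A' : Subgroup G} {z : G}

/-- **END for an amalgam of free subgroups** -/
theorem surf_of_am_lg [Fintype X] [Fintype X'] {g : ℕ}
    (hX : Fintype.card X + Fintype.card X' = 2 * g)
    {L : Type} [Group L] (Φ : NatBij L (Su.SurfaceGroup g)) (π : L →* G)
    (hπ : Function.Surjective π) (hk : SuPts.KerSL π) (hz : LgOrd z)
    (h : AmUP G A A' z) (e : FreeGroup X ≃* A) (e' : FreeGroup X' ≃* A') :
    Nonempty (G ≃* Su.SurfaceGroup g) := by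
  obtain ⟨E, hE⟩ := am_presented h e e'
  obtain ⟨s⟩ := Su.nonempty_surfG g
  have hG : Group.FG G := Group.fg_of_surjective (f := E.symm.toMonoidHom.comp
    (PresentedGroup.mk _)) (E.symm.surjective.comp (PresentedGroup.mk_surjective _))
  have hcard : ∀ (Q : Type) [Group Q], Nat.card (PresentedGroup
      ({amRel (e.symm ⟨z, h.mem⟩) (e'.symm ⟨z, h.mem'⟩)} : Set (FreeGroup (X ⊕ X'))) →* Q) =
        Nat.card (G →* Q) := fun Q _ => Nat.card_congr (MulEquiv.monoidHomCongrLeftEquiv E.symm)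
  obtain ⟨E'⟩ := end_am hX (e.symm ⟨z, h.mem⟩) (e'.symm ⟨z, h.mem'⟩) (natBijCongr Φ s)
    (E.toMonoidHom.comp π) (E.surjective.comp hπ)
    (by
      have h1 := hz.equiv E
      rw [hE] at h1
      exact h1)
    (by rw [hcard]; exact SuPts.card_cyc hπ hk Φ 2 two_pos)
    (by rw [hcard]; exact SuPts.card_cyc hπ hk Φ 4 (by norm_num))
    (by rw [hcard]; exact SuPts.card_S3 hπ hk Φ)
  exact ⟨E.trans E'⟩

end am

section hn

variable {G X : Type} [Group G] {A : Subgroup G} {t z₀ z₁ : G}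

/-- **END for an HNN extension of a free subgroup** -/
theorem surf_of_hn_lg [Fintype X] {g : ℕ} (hX : Fintype.card X + 1 = 2 * g)
    {L : Type} [Group L] (Φ : NatBij L (Su.SurfaceGroup g)) (π : L →* G)
    (hπ : Function.Surjective π) (hk : SuPts.KerSL π) (hz : LgOrd z₀)
    (h : HnUP G A t z₀ z₁) (e : FreeGroup X ≃* A) :
    Nonempty (G ≃* Su.SurfaceGroup g) := by
  obtain ⟨E, hE⟩ := hn_presented h e
  obtain ⟨s⟩ := Su.nonempty_surfG g
  have hG : Group.FG G := Group.fg_of_surjective (f := E.symm.toMonoidHom.comp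
    (PresentedGroup.mk _)) (E.symm.surjective.comp (PresentedGroup.mk_surjective _))
  have hcard : ∀ (Q : Type) [Group Q], Nat.card (PresentedGroup
      ({hnRel (fun b => if b then e.symm ⟨z₁, h.mem1⟩ else e.symm ⟨z₀, h.mem0⟩)} :
        Set (FreeGroup (Option X))) →* Q) =
        Nat.card (G →* Q) := fun Q _ => Nat.card_congr (MulEquiv.monoidHomCongrLeftEquiv E.symm)
  obtain ⟨E'⟩ := end_hn hX (fun b => if b then e.symm ⟨z₁, h.mem1⟩ else e.symm ⟨z₀, h.mem0⟩)
    (natBijCongr Φ s) (E.toMonoidHom.comp π) (E.surjective.comp hπ)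
    (by
      have h1 := hz.equiv E
      rw [hE] at h1
      exact h1)
    (by rw [hcard]; exact SuPts.card_cyc hπ hk Φ 2 two_pos)
    (by rw [hcard]; exact SuPts.card_cyc hπ hk Φ 4 (by norm_num))
    (by rw [hcard]; exact SuPts.card_S3 hπ hk Φ)
  exact ⟨E.trans E'⟩

end hn

section tree

variable {G : Type} [Group G] {V : Type} [MulAction G V] {X : SimpleGraph V}

/-- **END for an action on a tree**, two orbits of vertices; the stabilizers are free, the sum of
the ranks is `2 g` -/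
theorem surf_of_tree_am {g : ℕ} {L : Type} [Group L] (Φ : NatBij L (Su.SurfaceGroup g))
    (π : L →* G) (hπ : Function.Surjective π) (hk : SuPts.KerSL π)
    (hT : TA G X) {u v : V} (huv : X.Adj u v) (hoe : OE G X u v)
    (hno : ∀ g : G, g • u ≠ v) (z : G) (hz : ES G u v = Subgroup.zpowers z) (hlg : LgOrd z)
    {Y Y' : Type} [Fintype Y] [Fintype Y'] (hY : Fintype.card Y + Fintype.card Y' = 2 * g)
    (e : FreeGroup Y ≃* MulAction.stabilizer G u) (e' : FreeGroup Y' ≃* MulAction.stabilizer G v) :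
    Nonempty (G ≃* Su.SurfaceGroup g) :=
  surf_of_am_lg hY Φ π hπ hk hlg (amUP_of_tree hT huv hoe hno z hz) e e'

/-- **END for an action on a tree**, one orbit of vertices; the stabilizer is free of rank
`2 g - 1` -/
theorem surf_of_tree_hn {g : ℕ} {L : Type} [Group L] (Φ : NatBij L (Su.SurfaceGroup g))
    (π : L →* G) (hπ : Function.Surjective π) (hk : SuPts.KerSL π)
    {v : V} {t : G} (h : HT G X v t) (z : G)
    (hz : ES G v (t • v) = Subgroup.zpowers z) (hlg : LgOrd z)
    {Y : Type} [Fintype Y] (hY : Fintype.card Y + 1 = 2 * g)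
    (e : FreeGroup Y ≃* MulAction.stabilizer G v) :
    Nonempty (G ≃* Su.SurfaceGroup g) := by
  refine surf_of_hn_lg hY Φ π hπ hk ?_ (hnUP_of_tree h z hz) e
  have h1 := hlg.conj t⁻¹
  rw [inv_inv] at h1
  exact h1

end tree

end Pool.Agent.SuE
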